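import Pool.Agent.Q36.GV.Tr
import Pool.Agent.W327.PG.TRGE3

/-!
Ratios of canonical forms are algebraic over the Iitaka base.
-/

set_option autoImplicit false
set_option linter.overlappingInstances false
set_option linter.unusedSectionVars false

open Polynomial FF IsDedekindDomain IntermediateField
open Pool.Agent.W603.LV Pool.Agent.W619.PQ Pool.Agent.W619.PL
  Pool.Agent.W619.TW Pool.Agent.W619.X Pool.Agent.W619.Y Q36.PT Q36.SD Q36.HB Q36.HL

namespace Q36.GV

section

variable {k M : Type} [Field k] [CharZero k] [IsAlgClosed k] [Field M] [Algebra k M]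

/-- the Kodaira dimension is at most the numerical dimension -/
theorem kod_num {N h h' : ℕ} (hk : KodGe k M N (fun _ => False) h')
    (hn : NumLe k M N (fun _ => False) h) : h' ≤ h := by
  classical
  by_contra hlt
  push Not at hlt
  obtain ⟨m, hm, hs⟩ := hk
  obtain ⟨C, hC⟩ := hn {1}
  set T := C * m ^ h with hT
  have h1 : ∀ j : ℕ, 1 ≤ j → j ≤ T := by
    intro j hj
    obtain ⟨ω, hω, hωs⟩ := hs j hj
    have h2 := hC (j * m) (j ^ h') (Nat.mul_pos hj hm) ⟨ω, hω, fun l => by
      obtain ⟨h3, h4, -⟩ := hωs l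
      refine ⟨h3, fun v hv hB D hD => ?_, fun v _ hB => absurd hB id⟩
      rcases h4 v hv hB D hD with h5 | ⟨s, hs, hs0, h5⟩
      · exact Or.inl h5
      · refine Or.inr ⟨s, hs, hs0, ?_⟩
        rw [Finset.mem_singleton] at hs
        rw [hs, v.ord_one] at h5 ⊢
        simpa using h5⟩
    have h3 : j ^ (h + 1) ≤ j ^ h' := Nat.pow_le_pow_right hj hlt
    have h4 : j ^ h * j ≤ j ^ h * T := by
      calc j ^ h * j = j ^ (h + 1) := (pow_succ _ _).symm
        _ ≤ C * (j * m) ^ h := h3.trans h2
        _ = j ^ h * T := by rw [hT, mul_pow]; ring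
    exact Nat.le_of_mul_le_mul_left h4 (Nat.pow_pos hj)
  have h2 := h1 (T + 1) (Nat.le_add_left 1 T)
  omega

/-- ratios of canonical forms are algebraic over the field generated by a maximal independent
family of ratios -/
theorem ratio_algebraic {N h : ℕ} (hN : Algebra.trdeg k M = N)
    (hn : NumLe k M N (fun _ => False) h)
    {α : Fin (h + 1) → (Fin N → Derivation k M M) → M}
    (hα : ∀ l, IsSec k M N (fun _ => False) {1} 1 0 (α l)) {D : Fin N → Derivation k M M}
    (hα0 : ∀ l, α l D ≠ 0) (hind : AlgebraicIndependent k fun l : Fin h => α l.succ D / α 0 D)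
    {q : ℕ} {β β' : (Fin N → Derivation k M M) → M}
    (hβ : IsSec k M N (fun _ => False) {1} q 0 β)
    (hβ' : IsSec k M N (fun _ => False) {1} q 0 β') (hβ0 : β D ≠ 0) :
    IsAlgebraic (Algebra.adjoin k (Set.range fun l : Fin h => α l.succ D / α 0 D))
      (β' D / β D) := by
  classical
  by_contra htr
  have hβ'0 : β' D ≠ 0 := by
    intro h0
    rw [h0, zero_div] at htr
    exact htr isAlgebraic_zero
  have h1 := (hind.option_iff_transcendental (β' D / β D)).2 htr
  -- the forms of weight `1 + q`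
  let ζ : Fin (h + 1 + 1) → (Fin N → Derivation k M M) → M :=
    Fin.cons (fun D => α 0 D * β D) (Fin.cons (fun D => α 0 D * β' D)
      fun l : Fin h => fun D => α l.succ D * β D)
  have hζ : ∀ l, IsSec k M N (fun _ => False) {1} (1 + q) 0 (ζ l) := by
    intro l
    refine Fin.cases ?_ (fun l => ?_) l
    · exact Pool.Agent.W327.PG.TRGE3.sec_mul (hα 0) hβ
    · refine Fin.cases ?_ (fun l => ?_) l
      · exact Pool.Agent.W327.PG.TRGE3.sec_mul (hα 0) hβ'
      · exact Pool.Agent.W327.PG.TRGE3.sec_mul (hα l.succ) hβ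
  have hζ0 : ∀ l, ζ l D ≠ 0 := by
    intro l
    refine Fin.cases ?_ (fun l => ?_) l
    · exact mul_ne_zero (hα0 0) hβ0
    · refine Fin.cases ?_ (fun l => ?_) l
      · exact mul_ne_zero (hα0 0) hβ'0
      · exact mul_ne_zero (hα0 l.succ) hβ0
  have h2 : AlgebraicIndependent k fun l : Fin (h + 1) => ζ l.succ D / ζ 0 D := by
    have h3 := h1.comp (finSuccEquiv h) (finSuccEquiv h).injective
    convert h3 using 1
    funext l
    refine Fin.cases ?_ (fun l => ?_) l
    · change α 0 D * β' D / (α 0 D * β D) = _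
      rw [mul_div_mul_left _ _ (hα0 0)]
      simp
    · change α l.succ D * β D / (α 0 D * β D) = _
      rw [mul_div_mul_right _ _ hβ0]
      simp
  have h3 : KodGe k M N (fun _ => False) (h + 1) :=
    Pool.Agent.W327.PG.TRGE3.main k M N _ _ hN ⟨1 + q, Nat.le_add_right 1 q, ζ, hζ, D, hζ0, h2⟩
  have h4 := kod_num h3 hn
  omega

end

end Q36.GV
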