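import Pool.Agent.Q36.GV.Uw

/-!
Factors of products are algebraically closed in the product; linear disjointness over algebraically
closed subfields.
-/

set_option autoImplicit false
set_option linter.overlappingInstances false
set_option linter.unusedSectionVars false

open Polynomial IntermediateField
open scoped TensorProduct

namespace Q36.GV

/-- **A factor of a product is algebraically closed in the product.** -/
theorem closed_in_prod {k M : Type} [Field k] [IsAlgClosed k] [Field M] [Algebra k M]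
    (A P : IntermediateField k M) (d n : ℕ) (hA : Algebra.trdeg k A = d)
    (hM : Algebra.trdeg k M = (d + n : ℕ)) (hP : Algebra.trdeg k P ≤ n) (hsup : A ⊔ P = ⊤)
    {z : M} (hz : IsAlgebraic A z) : z ∈ A := by
  classical
  let A' : IntermediateField k M := (IntermediateField.adjoin A {z}).restrictScalars k
  have hle : A ≤ A' := fun x hx =>
    (IntermediateField.adjoin A {z}).algebraMap_mem (⟨x, hx⟩ : A)
  have hzA : z ∈ A' := mem_adjoin_simple_self A z
  have hA' : Algebra.trdeg k A' = d := by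
    let i1 : Algebra A A' := (IntermediateField.inclusion hle).toRingHom.toAlgebra
    have i2 : IsScalarTower k A A' := IsScalarTower.of_algebraMap_eq fun x => rfl
    have h1 : Algebra.IsAlgebraic A (IntermediateField.adjoin A {z}) :=
      isAlgebraic_adjoin_simple hz.isIntegral
    have h2 : Algebra.IsAlgebraic A A' := h1
    have h3 := trdeg_add_eq k A (A := A')
    have h4 : Algebra.trdeg A A' = 0 := by
      rw [trdeg_eq_zero_iff]
      exact h2
    rw [h4, add_zero, hA] at h3
    exact h3.symm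
  have hsup' : A' ⊔ P = ⊤ := by
    rw [eq_top_iff, ← hsup]
    exact sup_le_sup_right hle P
  obtain ⟨s, hs⟩ := exists_isTranscendenceBasis k A'
  have h1 := Pool.Agent.W904.PG.T2 (k := k) (P := P) (M := A') (L := M) A'.val _ hs
    (Pool.Agent.W904.PG.indep A' P d n hA' hM hP hsup' s hs)
  set Φ := Algebra.TensorProduct.productLeftAlgHom (Algebra.ofId P M) A'.val with hΦ
  have hΦt : ∀ p m, Φ (p ⊗ₜ[k] m) = (p : M) * (m : M) := by
    intro p m
    rw [hΦ]
    simp [Algebra.ofId_apply]
  -- the ring generated by `A` and `P`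
  let ι : (A ⊗[k] P) →ₐ[k] (A' ⊗[k] P) :=
    Algebra.TensorProduct.map (IntermediateField.inclusion hle) (AlgHom.id k P)
  let c : (A' ⊗[k] P) ≃ₐ[k] (P ⊗[k] A') := Algebra.TensorProduct.comm k A' P
  let Ψ : (A ⊗[k] P) →ₐ[k] M := (Φ.restrictScalars k).comp (c.toAlgHom.comp ι)
  have hΨt : ∀ (a : A) (p : P), Ψ (a ⊗ₜ[k] p) = (a : M) * (p : M) := by
    intro a p
    change Φ (c (ι (a ⊗ₜ[k] p))) = _
    have h2 : ι (a ⊗ₜ[k] p) = (IntermediateField.inclusion hle a) ⊗ₜ[k] p := by
      simp [ι]
    rw [h2]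
    have h3 : c ((IntermediateField.inclusion hle a) ⊗ₜ[k] p) =
        p ⊗ₜ[k] (IntermediateField.inclusion hle a) := by
      simp [c]
    rw [h3, hΦt, mul_comm]
    rfl
  have hz2 : z ∈ IntermediateField.adjoin k ((A : Set M) ∪ (P : Set M)) := by
    have h2 : A ⊔ P ≤ IntermediateField.adjoin k ((A : Set M) ∪ (P : Set M)) :=
      sup_le (fun z hz => IntermediateField.subset_adjoin _ _ (Or.inl hz))
        (fun z hz => IntermediateField.subset_adjoin _ _ (Or.inr hz))
    rw [hsup] at h2
    exact h2 (show z ∈ (⊤ : IntermediateField k M) from trivial)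
  have h3 : Algebra.adjoin k ((A : Set M) ∪ (P : Set M)) ≤ Ψ.range := by
    refine Algebra.adjoin_le ?_
    rintro z (hz | hz)
    · exact ⟨(⟨z, hz⟩ : A) ⊗ₜ[k] (1 : P), (hΨt _ _).trans (by simp)⟩
    · exact ⟨(1 : A) ⊗ₜ[k] (⟨z, hz⟩ : P), (hΨt _ _).trans (by simp)⟩
  obtain ⟨r, hr, t, ht, hrt⟩ := IntermediateField.mem_adjoin_iff_div.1 hz2
  by_cases ht0 : t = 0
  · rw [ht0, div_zero] at hrt
    rw [hrt]
    exact A.zero_mem
  obtain ⟨x, hx⟩ := h3 hr
  obtain ⟨y, hy⟩ := h3 ht
  have hy0 : y ≠ 0 := by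
    rintro rfl
    rw [map_zero] at hy
    exact ht0 hy.symm
  -- the equation in the tensor product
  have heq : ((⟨z, hzA⟩ : A') ⊗ₜ[k] (1 : P)) * ι y = ι x := by
    apply c.injective
    apply h1
    have h4 : Φ (c ((((⟨z, hzA⟩ : A') ⊗ₜ[k] (1 : P))) * ι y)) = z * Ψ y := by
      rw [map_mul, map_mul]
      congr 1
      have h5 : c ((⟨z, hzA⟩ : A') ⊗ₜ[k] (1 : P)) = (1 : P) ⊗ₜ[k] (⟨z, hzA⟩ : A') := by
        simp [c]
      rw [h5, hΦt]
      simp
    rw [h4]
    change z * Ψ y = Ψ x
    have hx' : Ψ x = r := hx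
    have hy' : Ψ y = t := hy
    rw [hx', hy', hrt, div_mul_cancel₀ _ ht0]
  let b := Module.Basis.ofVectorSpace k P
  let B := Algebra.TensorProduct.basis A b
  let B' := Algebra.TensorProduct.basis A' b
  have hrepr : ∀ (w : A ⊗[k] P) i, B'.repr (ι w) i = IntermediateField.inclusion hle (B.repr w i) := by
    intro w i
    induction w using TensorProduct.induction_on with
    | zero => simp
    | tmul a p =>
      have h2 : ι (a ⊗ₜ[k] p) = (IntermediateField.inclusion hle a) ⊗ₜ[k] p := by
        simp [ι]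
      rw [h2]
      simp only [B, B', Algebra.TensorProduct.basis_repr_tmul, Finsupp.smul_apply,
        Finsupp.mapRange_apply, smul_eq_mul, map_mul]
      rfl
    | add u v hu hv => rw [map_add, map_add, map_add, Finsupp.add_apply, Finsupp.add_apply, hu, hv,
        map_add]
  obtain ⟨i, hi⟩ : ∃ i, B.repr y i ≠ 0 := by
    by_contra h4
    push Not at h4
    refine hy0 (B.repr.injective ?_)
    ext i
    rw [h4 i, map_zero]
    rfl
  have h4 := congrArg (fun w => B'.repr w i) heq
  simp only [hrepr] at h4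
  have h5 : ∀ w : A' ⊗[k] P, ((⟨z, hzA⟩ : A') ⊗ₜ[k] (1 : P)) * w = (⟨z, hzA⟩ : A') • w := by
    intro w
    induction w using TensorProduct.induction_on with
    | zero => simp
    | tmul a p =>
      rw [Algebra.TensorProduct.tmul_mul_tmul, one_mul, TensorProduct.smul_tmul', smul_eq_mul]
    | add u v hu hv => rw [mul_add, hu, hv, smul_add]
  rw [h5, map_smul, Finsupp.smul_apply, hrepr, smul_eq_mul] at h4
  have h6 : z * (B.repr y i : M) = (B.repr x i : M) := congrArg Subtype.val h4
  have h7 : ((B.repr y i : A) : M) ≠ 0 := fun h => hi (Subtype.ext h)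
  rw [← eq_div_iff h7] at h6
  rw [h6]
  exact A.div_mem (B.repr x i).2 (B.repr y i).2

end Q36.GV
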