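import Pool.Agent.Q36.GV.Sp

/-!
The core of varieties dominated by products of a variety and curves.
-/

set_option autoImplicit false
set_option linter.overlappingInstances false
set_option linter.unusedSectionVars false

open Polynomial FF IsDedekindDomain IntermediateField
open Pool.Agent.W603.LV Pool.Agent.W619.PQ Pool.Agent.W619.PL
  Pool.Agent.W619.TW Pool.Agent.W619.X Pool.Agent.W619.Y Q36.PT Q36.SD Q36.HB Q36.HL

namespace Q36.GV

section

variable {k L M : Type} [Field k] [CharZero k] [IsAlgClosed k] [Field L] [Field M]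
  [Algebra k L] [Algebra k M] [Algebra L M] [IsScalarTower k L M] [FiniteDimensional L M]
  [Algebra.EssFiniteType k L]
  {d n : ℕ} (F : Fin (n + 1) → IntermediateField k M) [hess0 : Algebra.EssFiniteType k (F 0)]
  [hF : ∀ i : Fin n, IsFF k (F i.succ)]

/-- the compositum of the factors of general type -/
def gtPart {n : ℕ} (F : Fin (n + 1) → IntermediateField k M) (p : Prop) : IntermediateField k M :=
  ⨆ i : {i : Fin (n + 1) // (i = 0 ∧ p) ∨ ∃ j : Fin n, i = j.succ ∧ ¬ IsElliptic (F i)}, F i.1

theorem core1 (hY : Algebra.trdeg k (F 0) = d) (hnM : Algebra.trdeg k M = (d + n : ℕ))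
    (hsup : ⨆ i, F i = ⊤) {c : Fin (n + 1) → ℕ} {e0 : ℕ}
    (ha : ImageGe k (F 0) d (fun _ => False) 1 e0) (hnum : NumLe k (F 0) d (fun _ => False) e0)
    (he0 : (e0 = d ∧ (c 0 = 0 ∨ CanSepJ k (F 0) d (c 0 + 1))) ∨ (e0 = 0 ∧ c 0 = 0))
    (hγ : ∀ i : Fin n, ∀ b : F i.succ, Transcendental k b →
      c i.succ + 2 ≤ Module.finrank k⟮b⟯ (F i.succ))
    (hell : ∀ i : Fin n, IsElliptic (F i.succ) → c i.succ = 0)
    (B : Finset (Fin (n + 1)))
    (hB : ∀ i ∈ B, 2 * Module.finrank L (IntermediateField.adjoin L (F i : Set M)) ≤ c i + 1)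
    (hQ : ∀ Q : Finset (Fin (n + 1)), Disjoint Q B →
      Module.finrank (IntermediateField.adjoin L {z : M | ∃ j, j ∉ Q ∧ z ∈ F j}) M = 1 ∨
      2 * Module.finrank (IntermediateField.adjoin L {z : M | ∃ j, j ∉ Q ∧ z ∈ F j}) M ≤
        1 + ∑ j ∈ Q, c j) :
    ∃ K : IntermediateField k L, (∀ x : L, IsAlgebraic K x → x ∈ K) ∧
      Algebra.EssFiniteType k K ∧
      Algebra.trdeg k K = (e0 + {i : Fin n | ¬ IsElliptic (F i.succ)}.ncard : ℕ) ∧
      ImageGe k K (e0 + {i : Fin n | ¬ IsElliptic (F i.succ)}.ncard) (fun _ => False) 1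
        (e0 + {i : Fin n | ¬ IsElliptic (F i.succ)}.ncard) ∧
      (∀ (q : ℕ) (ω ω' : (Fin (d + n) → Derivation k L L) → L),
        IsSec k L (d + n) (fun _ => False) {1} q 0 ω →
        IsSec k L (d + n) (fun _ => False) {1} q 0 ω' → ∀ G, ω G ≠ 0 → ω' G / ω G ∈ K) ∧
      (∀ x ∈ K, algebraMap L M x ∈ gtPart F (e0 = d)) ∧
      Algebra.trdeg k (gtPart F (e0 = d)) =
        (e0 + {i : Fin n | ¬ IsElliptic (F i.succ)}.ncard : ℕ) ∧
      IntermediateField.adjoin L (gtPart F (e0 = d) : Set M) = ⊤ ∧
      (Pool.Agent.W602.GT.Special k L (d + n) (fun _ => False) →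
        e0 = 0 ∧ (∀ i : Fin n, IsElliptic (F i.succ)) ∧ Function.Bijective (algebraMap L M)) := by
  classical
  have hess : ∀ i, Algebra.EssFiniteType k (F i) := ess_all F
  obtain ⟨S, hS0, hSs, h1, h2, h3, h4, h5, h6, h7⟩ := coreYC2 (L := L) F hY hnM hsup ha hnum
    he0 hγ hell B hB hQ
  have hSi : ∀ i, i ∈ S ↔ (i = 0 ∧ e0 = d) ∨ ∃ j : Fin n, i = j.succ ∧ ¬ IsElliptic (F i) := by
    intro i
    refine Fin.cases ?_ (fun i => ?_) i
    · rw [hS0]
      constructor
      · exact fun h => Or.inl ⟨rfl, h⟩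
      · rintro (⟨-, h⟩ | ⟨j, hj, -⟩)
        · exact h
        · exact absurd hj (Fin.succ_ne_zero j).symm
    · rw [hSs]
      constructor
      · exact fun h => Or.inr ⟨i, rfl, h⟩
      · rintro (⟨h, -⟩ | ⟨j, -, h⟩)
        · exact absurd h (Fin.succ_ne_zero i)
        · exact h
  have hpart : part F S = gtPart F (e0 = d) := by
    apply le_antisymm
    · refine iSup_le fun i => ?_
      exact le_iSup (fun i : {i : Fin (n + 1) // (i = 0 ∧ e0 = d) ∨
        ∃ j : Fin n, i = j.succ ∧ ¬ IsElliptic (F i)} => F i.1) ⟨i.1, (hSi i.1).1 i.2⟩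
    · refine iSup_le fun i => ?_
      exact le_part F ((hSi i.1).2 i.2)
  rw [hpart] at h5
  refine ⟨iit F L S, h2, h3, h4, h6, h7, fun x hx => ?_, h5, ?_, fun hsp => ?_⟩
  · rw [← hpart]
    exact hx
  · rw [eq_top_iff, ← h1]
    refine IntermediateField.adjoin.mono _ _ _ ?_
    rintro z ⟨j, hj, hz⟩
    rw [← hpart]
    exact le_part F hj hz
  · have hnL : Algebra.trdeg k L = (d + n : ℕ) := trdeg_below (K := M) hnM
    have h8 : e0 + {i : Fin n | ¬ IsElliptic (F i.succ)}.ncard = 0 := by
      by_contra h9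
      exact not_special_of_sub (iit F L S) (w := d + n)
        (p := e0 + {i : Fin n | ¬ IsElliptic (F i.succ)}.ncard) (by omega) hnL h4 h6 hsp
    have h9 : e0 = 0 := by omega
    subst h9
    have h10 : {i : Fin n | ¬ IsElliptic (F i.succ)}.ncard = 0 := by omega
    have h11 : ∀ i : Fin n, IsElliptic (F i.succ) := by
      rw [Set.ncard_eq_zero (Set.toFinite _)] at h10
      intro i
      by_contra h6
      have h7 : i ∈ {i : Fin n | ¬ IsElliptic (F i.succ)} := h6
      rw [h10] at h7
      exact h7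
    refine ⟨rfl, h11, ?_⟩
    have h12 : Module.finrank L M = 1 := by
      by_cases hd : d = 0
      · have hF0 : F 0 = ⊥ := eq_bot_of_trdeg (F 0) (by rw [hY, hd])
        have hc : ∀ i : Fin n, c i.succ = 0 := fun i => hell i (h11 i)
        have hBQ : Disjoint (Finset.univ.erase (0 : Fin (n + 1))) B := by
          rw [Finset.disjoint_left]
          intro i hi hiB
          have hi0 : i ≠ 0 := Finset.ne_of_mem_erase hi
          obtain ⟨j, rfl⟩ := Fin.exists_succ_eq.2 hi0
          have h6 := hB _ hiB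
          rw [hc j] at h6
          have h7 : 0 < Module.finrank L (IntermediateField.adjoin L (F j.succ : Set M)) :=
            Module.finrank_pos
          omega
        have h13 := hQ _ hBQ
        have h14 : IntermediateField.adjoin L
            {z : M | ∃ j, j ∉ Finset.univ.erase (0 : Fin (n + 1)) ∧ z ∈ F j} = ⊥ := by
          rw [IntermediateField.adjoin_eq_bot_iff]
          rintro z ⟨j, hj, hz⟩
          have hj0 : j = 0 := by
            by_contra hj0
            exact hj (Finset.mem_erase.2 ⟨hj0, Finset.mem_univ _⟩)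
          rw [hj0, hF0] at hz
          obtain ⟨r, rfl⟩ := IntermediateField.mem_bot.1 hz
          rw [SetLike.mem_coe, IntermediateField.mem_bot]
          exact ⟨algebraMap k L r, (IsScalarTower.algebraMap_apply k L M r).symm⟩
        have h15 : ∑ j ∈ Finset.univ.erase (0 : Fin (n + 1)), c j = 0 := by
          refine Finset.sum_eq_zero fun j hj => ?_
          obtain ⟨i, rfl⟩ := Fin.exists_succ_eq.2 (Finset.ne_of_mem_erase hj)
          exact hc i
        rw [h14, IntermediateField.finrank_bot', h15] at h13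
        have h16 : 0 < Module.finrank L M := Module.finrank_pos
        rcases h13 with h13 | h13
        · exact h13
        · omega
      · have hc0 : c 0 = 0 := by
          rcases he0 with ⟨h, -⟩ | ⟨-, h⟩
          · exact absurd h.symm hd
          · exact h
        exact (specYC (L := L) F hY hnM hsup ha hnum hc0 hγ hell B hB hQ hsp).2
    have h13 : (⊥ : IntermediateField L M) = ⊤ :=
      IntermediateField.finrank_eq_one_iff_eq_top.1 (by
        rw [IntermediateField.finrank_bot', h12])
    refine ⟨(algebraMap L M).injective, fun x => ?_⟩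
    have h14 : x ∈ (⊥ : IntermediateField L M) := by
      rw [h13]
      exact IntermediateField.mem_top
    exact IntermediateField.mem_bot.1 h14

end

end Q36.GV
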