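import Pool.Agent.Q36.GV.Cy
import Pool.Agent.W602.GT.SpecDefs

/-!
Special varieties.
-/

set_option autoImplicit false
set_option linter.overlappingInstances false
set_option linter.unusedSectionVars false

open Polynomial FF IsDedekindDomain IntermediateField
open Pool.Agent.W602.GT Pool.Agent.W603.LV Pool.Agent.W619.PQ Pool.Agent.W619.PL
  Pool.Agent.W619.TW Pool.Agent.W619.X Pool.Agent.W619.Y Q36.PT Q36.SD Q36.HB Q36.HL

namespace Q36.GV

section

variable {k L : Type} [Field k] [CharZero k] [IsAlgClosed k] [Field L] [Algebra k L]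

/-- the values of vector fields at functions -/
noncomputable def evD {p : ℕ} (y : Fin p → L) : Derivation k L L →ₗ[L] (Fin p → L) where
  toFun D := fun b => D (y b)
  map_add' D D' := by
    funext b
    rfl
  map_smul' c D := by
    funext b
    rfl

/-- the `p`-form `dy 1 ∧ ... ∧ dy p` -/
noncomputable def dForm {p : ℕ} (y : Fin p → L) :
    AlternatingMap L (Derivation k L L) L (Fin p) :=
  (Matrix.detRowAlternating (n := Fin p) (R := L)).compLinearMap (evD y)

theorem dForm_apply {p : ℕ} (y : Fin p → L) (D : Fin p → Derivation k L L) :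
    dForm y D = (Matrix.of fun a b => D a (y b)).det := rfl

/-- **Special varieties do not dominate varieties with a generically finite canonical map.** -/
theorem not_special_of_sub (K : IntermediateField k L) [hessK : Algebra.EssFiniteType k K]
    {w p : ℕ} (hp : 1 ≤ p) (hL : Algebra.trdeg k L = w) (hK : Algebra.trdeg k K = p)
    (h : ImageGe k K p (fun _ => False) 1 p) : ¬ Special k L w (fun _ => False) := by
  classical
  intro hsp
  obtain ⟨ω, h1, G, h2, h3⟩ := h
  obtain ⟨y, E, hy, hE⟩ := Pool.Agent.Y172.exists_crd hK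
  have hco : ∀ l, ω l G = (Matrix.of fun a b => G a (y b)).det ^ 1 * ω l E := fun l =>
    Pool.Agent.Y172.pluri_coord hy hE (h1 l).1 G
  have hω0 : ∀ l, ω l E ≠ 0 := fun l h => h2 l (by rw [hco, h, mul_zero])
  have hdet : (Matrix.of fun a b => G a (y b)).det ^ 1 ≠ 0 := fun h =>
    h2 0 (by rw [hco, h, zero_mul])
  have hreg : ∀ P : Place k L, Divisorial w P → ∀ D : Fin p → Derivation k L L,
      (∀ i, DerReg P (D i)) → ∀ j, P.Reg ((ω j E : L) * dForm (fun b => (y b : L)) D ^ 1) := by
    intro P hP D hD j
    obtain ⟨Z, z, hz, hZ, hA⟩ := pYLOC.{0, 0} k L K p w 1 hK hL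
      (fun y hy => Pool.Agent.Y172.fd_basis hy) (ω j) (reg_of_sec (h1 j)).1 (reg_of_sec (h1 j)).2
      y E hy hE P hP
    rw [dForm_apply, pow_one]
    have h4 : (Matrix.of fun a b => D a ((y b : K) : L)) =
        (Matrix.of fun a b => D a (z b)) * (Matrix.of Z).transpose := by
      ext a b
      rw [Matrix.of_apply, Matrix.mul_apply, hZ]
      refine Finset.sum_congr rfl fun c _ => ?_
      rw [Matrix.of_apply, Matrix.transpose_apply, Matrix.of_apply]
      ring
    rw [h4, Matrix.det_mul, Matrix.det_transpose]
    have h5 : Ge P 0 (Matrix.of fun a b => D a (z b)).det :=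
      Pool.Agent.W619.PQ.ge_det P _ fun a b => hD a _ (hz b)
    have h6 := hA.mul h5
    rw [add_zero, pow_one] at h6
    have h7 : ((ω j E : K) : L) * ((Matrix.of fun a b => D a (z b)).det * (Matrix.of Z).det) =
        ((ω j E : K) : L) * (Matrix.det Z) * (Matrix.of fun a b => D a (z b)).det := by
      change _ * (_ * Matrix.det Z) = _
      ring
    rw [h7]
    exact h6
  refine hsp p hp ⟨dForm (fun b => (y b : L)), ?_, 1, one_pos, fun j => (ω j E : L),
    fun P hP D hD j => hreg P hP D (fun i => ?_) j, fun P hP _ D hD j => hreg P hP D hD j,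
    fun h => hω0 0 (Subtype.ext h), ?_⟩
  · -- nonzero
    intro h0
    have hyL : AlgebraicIndependent k fun b => ((y b : K) : L) :=
      (K.val.algebraicIndependent_iff K.val.injective).2 hy.1
    obtain ⟨y', hy', g, hg, hgy⟩ := extend_basis hL hyL
    choose D' hD' using fun a : Fin p =>
      Pool.Agent.W602.GT.exists_der _ hy' fun c => if c = g a then 1 else 0
    have h4 : (Matrix.of fun a b => D' a ((y b : K) : L)) = (1 : Matrix (Fin p) (Fin p) L) := by
      ext a b
      rw [Matrix.of_apply, Matrix.one_apply, ← hgy b, hD']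
      by_cases hab : a = b
      · rw [if_pos hab, hab, if_pos rfl]
      · rw [if_neg hab, if_neg fun h => hab (hg h).symm]
    have h5 := congrArg (fun θ : AlternatingMap L (Derivation k L L) L (Fin p) => θ D') h0
    simp only [dForm_apply, h4, Matrix.det_one, AlternatingMap.zero_apply] at h5
    exact one_ne_zero h5
  · intro f hf
    have h4 := hD i f
    by_cases hf0 : f = 0
    · rw [hf0, map_zero]
      exact P.reg_zero
    have h5 := P.reg_mul h4 hf
    rwa [div_mul_cancel₀ _ hf0] at h5
  · have h4 : (fun i : Fin p => ((ω i.succ E : K) : L) / ((ω 0 E : K) : L)) =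
        fun i : Fin p => K.val (ω i.succ G / ω 0 G) := by
      funext i
      rw [hco i.succ, hco 0, mul_div_mul_left _ _ hdet]
      rfl
    rw [h4]
    exact (K.val.algebraicIndependent_iff K.val.injective).2 h3

end

end Q36.GV
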