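import Pool.Agent.Q36.GV.Ln
import Pool.Agent.Q36.HB.Eli

/-!
Elimination for products of varieties.
-/

set_option autoImplicit false
set_option linter.overlappingInstances false
set_option linter.unusedSectionVars false

open IntermediateField Q36.HB

namespace Q36.GV

section

variable {k Ω : Type} [Field k] [Field Ω] [Algebra k Ω] {n : ℕ}
  {F : Fin n → Type} [∀ i, Field (F i)] [∀ i, Algebra k (F i)]

/-- **Elimination with derivatives.** -/
theorem elim_jetV (V : ∀ i, Set (F i)) {Λ : Type} [Fintype Λ]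
    (p : ∀ i, Λ → (F i →ₐ[k] Ω)) (c : Λ → Ω) (θ : ∀ i, Λ → (F i →ₗ[k] Ω))
    (h : ∀ f : ∀ i, F i, (∀ i, f i ∈ V i) →
      ∑ σ, (c σ * ∏ j, p j σ (f j) +
        ∑ i, ∏ j, (if j = i then θ j σ (f j) else p j σ (f j))) = 0)
    (σ0 : Λ) (i0 : Fin n) (m : Fin n → ℕ) (a : ∀ i, Fin (m i) → Ω) (g : ∀ i, Fin (m i) → F i)
    (hg : ∀ i l, g i l ∈ V i)
    (h0 : ∑ l, a i0 l * p i0 σ0 (g i0 l) = 0)
    (h1 : ∀ i, i ≠ i0 → ∑ l, a i l * p i σ0 (g i l) = 1)
    (hkill : ∀ σ, σ ≠ σ0 → (∃ i, ∑ l, a i l * p i σ (g i l) = 0 ∧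
        ∑ l, a i l * θ i σ (g i l) = 0) ∨
      ∃ i j, i ≠ j ∧ ∑ l, a i l * p i σ (g i l) = 0 ∧ ∑ l, a j l * p j σ (g j l) = 0) :
    ∑ l, a i0 l * θ i0 σ0 (g i0 l) = 0 := by
  classical
  let U : Fin n → Λ → Fin n → Ω := fun i σ j =>
    ∑ l, a j l * (if j = i then θ j σ (g j l) else p j σ (g j l))
  have hUe : ∀ i σ, U i σ i = ∑ l, a i l * θ i σ (g i l) := by
    intro i σ
    simp only [U, if_true]
  have hUn : ∀ i σ j, j ≠ i → U i σ j = ∑ l, a j l * p j σ (g j l) := by
    intro i σ j hj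
    simp only [U, if_neg hj]
  have key : ∑ σ, (c σ * ∏ j, ∑ l, a j l * p j σ (g j l) + ∑ i, ∏ j, U i σ j) = 0 := by
    have e1 : ∀ σ, c σ * ∏ j, ∑ l, a j l * p j σ (g j l) =
        ∑ q ∈ Fintype.piFinset fun i => (Finset.univ : Finset (Fin (m i))),
          (∏ i, a i (q i)) * (c σ * ∏ j, p j σ (g j (q j))) := by
      intro σ
      rw [Finset.prod_univ_sum, Finset.mul_sum]
      refine Finset.sum_congr rfl fun q _ => ?_
      rw [Finset.prod_mul_distrib]
      ring
    have e2 : ∀ σ, ∑ i, ∏ j, U i σ j =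
        ∑ q ∈ Fintype.piFinset fun i => (Finset.univ : Finset (Fin (m i))),
          (∏ i, a i (q i)) * ∑ i,
            ∏ j, (if j = i then θ j σ (g j (q j)) else p j σ (g j (q j))) := by
      intro σ
      have e3 : ∀ i, ∏ j, U i σ j =
          ∑ q ∈ Fintype.piFinset fun i => (Finset.univ : Finset (Fin (m i))),
          (∏ i, a i (q i)) *
            ∏ j, (if j = i then θ j σ (g j (q j)) else p j σ (g j (q j))) := by
        intro i
        simp only [U]
        rw [Finset.prod_univ_sum]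
        refine Finset.sum_congr rfl fun q _ => ?_
        rw [Finset.prod_mul_distrib]
      rw [Finset.sum_congr rfl fun i _ => e3 i, Finset.sum_comm]
      refine Finset.sum_congr rfl fun q _ => ?_
      rw [Finset.mul_sum]
    have e4 : ∀ σ, (c σ * ∏ j, ∑ l, a j l * p j σ (g j l) + ∑ i, ∏ j, U i σ j) =
        ∑ q ∈ Fintype.piFinset fun i => (Finset.univ : Finset (Fin (m i))),
          (∏ i, a i (q i)) * (c σ * ∏ j, p j σ (g j (q j)) + ∑ i,
            ∏ j, (if j = i then θ j σ (g j (q j)) else p j σ (g j (q j)))) := by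
      intro σ
      rw [e1, e2, ← Finset.sum_add_distrib]
      refine Finset.sum_congr rfl fun q _ => ?_
      ring
    rw [Finset.sum_congr rfl fun σ _ => e4 σ, Finset.sum_comm]
    refine Finset.sum_eq_zero fun q _ => ?_
    rw [← Finset.mul_sum, h (fun i => g i (q i)) (fun i => hg i _), mul_zero]
  rw [Finset.sum_eq_single σ0] at key
  · have h2 : ∏ j, ∑ l, a j l * p j σ0 (g j l) = 0 :=
      Finset.prod_eq_zero (Finset.mem_univ i0) h0
    rw [h2, mul_zero, zero_add, Finset.sum_eq_single i0] at key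
    · have h3 : ∏ j, U i0 σ0 j = ∑ l, a i0 l * θ i0 σ0 (g i0 l) := by
        rw [Finset.prod_eq_single i0]
        · exact hUe i0 σ0
        · intro j _ hj
          rw [hUn _ _ _ hj]
          exact h1 j hj
        · intro h
          exact absurd (Finset.mem_univ i0) h
      rwa [h3] at key
    · intro i _ hi
      refine Finset.prod_eq_zero (Finset.mem_univ i0) ?_
      rw [hUn _ _ _ (Ne.symm hi)]
      exact h0
    · intro h
      exact absurd (Finset.mem_univ i0) h
  · intro σ _ hσ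
    rcases hkill σ hσ with ⟨i, hi1, hi2⟩ | ⟨i, j, hij, hi, hj⟩
    · rw [Finset.prod_eq_zero (Finset.mem_univ i) hi1, mul_zero, zero_add]
      refine Finset.sum_eq_zero fun i' _ => ?_
      refine Finset.prod_eq_zero (Finset.mem_univ i) ?_
      by_cases h : i = i'
      · subst h
        rw [hUe]
        exact hi2
      · rw [hUn _ _ _ h]
        exact hi1
    · rw [Finset.prod_eq_zero (Finset.mem_univ i) hi, mul_zero, zero_add]
      refine Finset.sum_eq_zero fun i' _ => ?_
      by_cases h : i = i'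
      · subst h
        refine Finset.prod_eq_zero (Finset.mem_univ j) ?_
        rw [hUn _ _ _ (Ne.symm hij)]
        exact hj
      · refine Finset.prod_eq_zero (Finset.mem_univ i) ?_
        rw [hUn _ _ _ h]
        exact hi
  · intro h
    exact absurd (Finset.mem_univ σ0) h

/-- **Elimination of values.** -/
theorem elimV (V : ∀ i, Set (F i)) {m : Fin n → ℕ} (hV : ∀ i, Sep k (V i) (m i)) {Λ : Type}
    [Fintype Λ] (p : ∀ i, Λ → (F i →ₐ[k] Ω)) (c : Λ → Ω)
    (h : ∀ f : ∀ i, F i, (∀ i, f i ∈ V i) → ∑ σ, c σ * ∏ i, p i σ (f i) = 0)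
    (σ0 : Λ) (B : ∀ i, Finset (F i →ₐ[k] Ω)) (hB : ∀ i, p i σ0 ∉ B i)
    (hm : ∀ i, (B i).card + 1 ≤ m i)
    (hkill : ∀ σ, σ ≠ σ0 → ∃ i, p i σ ∈ B i) : c σ0 = 0 := by
  classical
  choose m a g hg h1 h0 using fun i => kill_V (hV i) (p i σ0) (B i) (hB i) (hm i)
  have key : ∑ σ, c σ * ∏ i, ∑ l, a i l * p i σ (g i l) = 0 := by
    have e1 : ∀ σ, c σ * ∏ i, ∑ l, a i l * p i σ (g i l) =
        ∑ q ∈ Fintype.piFinset fun i => (Finset.univ : Finset (Fin (m i))),
          (∏ i, a i (q i)) * (c σ * ∏ i, p i σ (g i (q i))) := by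
      intro σ
      rw [Finset.prod_univ_sum, Finset.mul_sum]
      refine Finset.sum_congr rfl fun q _ => ?_
      rw [Finset.prod_mul_distrib]
      ring
    rw [Finset.sum_congr rfl fun σ _ => e1 σ, Finset.sum_comm]
    refine Finset.sum_eq_zero fun q _ => ?_
    rw [← Finset.mul_sum, h (fun i => g i (q i)) (fun i => hg i _), mul_zero]
  rw [Finset.sum_eq_single σ0] at key
  · have h2 : ∏ i, ∑ l, a i l * p i σ0 (g i l) = 1 := Finset.prod_eq_one fun i _ => h1 i
    rwa [h2, mul_one] at key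
  · intro σ _ hσ
    obtain ⟨i, hi⟩ := hkill σ hσ
    rw [Finset.prod_eq_zero (Finset.mem_univ i) (h0 i _ hi), mul_zero]
  · intro h
    exact absurd (Finset.mem_univ σ0) h

end

section

variable {k L M : Type} [Field k] [CharZero k] [Field L] [Field M]
  [Algebra k L] [Algebra k M] [Algebra L M] [IsScalarTower k L M] [FiniteDimensional L M]
  {n : ℕ} (F : Fin n → IntermediateField k M)

/-- the restriction of an embedding to `F i` -/
def resV {Ω : Type} [Field Ω] [Algebra k Ω] [Algebra L Ω] [IsScalarTower k L Ω] (i : Fin n)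
    (σ : M →ₐ[L] Ω) : F i →ₐ[k] Ω := (σ.restrictScalars k).comp (F i).val

theorem resV_apply {Ω : Type} [Field Ω] [Algebra k Ω] [Algebra L Ω] [IsScalarTower k L Ω]
    (i : Fin n) (σ : M →ₐ[L] Ω) (z : F i) : resV F i σ z = σ (z : M) := rfl

/-- the number of the restrictions to `F i` -/
theorem card_resV {Ω : Type} [Field Ω] [Algebra k Ω] [Algebra L Ω] [IsScalarTower k L Ω]
    [DecidableEq (M →ₐ[L] Ω)] (i : Fin n) [DecidableEq (F i →ₐ[k] Ω)]
    [Fintype (M →ₐ[L] Ω)] :
    (Finset.univ.image (resV F i : (M →ₐ[L] Ω) → (F i →ₐ[k] Ω))).card ≤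
      Module.finrank L (IntermediateField.adjoin L (F i : Set M)) := by
  classical
  let L1 : IntermediateField L M := IntermediateField.adjoin L (F i : Set M)
  have hmem : ∀ z : F i, (z : M) ∈ L1 := fun z => IntermediateField.subset_adjoin L _ z.2
  let _ : Fintype (L1 →ₐ[L] Ω) := Fintype.ofFinite _
  let Ψ : (L1 →ₐ[L] Ω) → (F i →ₐ[k] Ω) := fun τ =>
    { toFun := fun z => τ ⟨z, hmem z⟩
      map_one' := by
        rw [← map_one τ]
        rfl
      map_mul' := fun a b => by
        rw [← map_mul]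
        rfl
      map_zero' := by
        rw [← map_zero τ]
        rfl
      map_add' := fun a b => by
        rw [← map_add]
        rfl
      commutes' := fun c => by
        have h1 : (⟨((algebraMap k (F i) c : F i) : M), hmem _⟩ : L1) =
            algebraMap L L1 (algebraMap k L c) := by
          apply Subtype.ext
          change algebraMap k M c = algebraMap L M (algebraMap k L c)
          rw [← IsScalarTower.algebraMap_apply]
        rw [h1, τ.commutes, ← IsScalarTower.algebraMap_apply] }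
  have h1 : Finset.univ.image (resV F i : (M →ₐ[L] Ω) → (F i →ₐ[k] Ω)) ⊆
      Finset.univ.image Ψ := by
    intro φ hφ
    obtain ⟨σ, -, rfl⟩ := Finset.mem_image.1 hφ
    exact Finset.mem_image.2 ⟨σ.comp L1.val, Finset.mem_univ _, by ext z; rfl⟩
  have h2 := card_algHom_le_finrank L L1 Ω
  rw [Nat.card_eq_fintype_card] at h2
  exact ((Finset.card_le_card h1).trans Finset.card_image_le).trans h2

/-- **Elimination under Hall's condition.** -/
theorem elim_hallV {m : Fin n → ℕ} (hm1 : ∀ i, 1 ≤ m i) (V : ∀ i, Set (F i))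
    (hV : ∀ i, SepJ k (V i) (m i)) (B : Finset (Fin n))
    (hB : ∀ i ∈ B, 2 * Module.finrank L (IntermediateField.adjoin L (F i : Set M)) ≤ m i)
    (hQ : ∀ Q : Finset (Fin n), Disjoint Q B →
      Module.finrank (IntermediateField.adjoin L {z : M | ∃ j, j ∉ Q ∧ z ∈ F j}) M = 1 ∨
      2 * Module.finrank (IntermediateField.adjoin L {z : M | ∃ j, j ∉ Q ∧ z ∈ F j}) M ≤
        1 + ∑ j ∈ Q, (m j - 1))
    {Ω : Type} [Field Ω] [Algebra k Ω] [Algebra L Ω] [IsScalarTower k L Ω]
    [Fintype (M →ₐ[L] Ω)]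
    (c : (M →ₐ[L] Ω) → Ω) (θ : ∀ i, (M →ₐ[L] Ω) → (F i →ₗ[k] Ω))
    (hθ : ∀ i σ, IsTan (resV F i σ) (θ i σ))
    (h : ∀ f : ∀ i, F i, (∀ i, f i ∈ V i) →
      ∑ σ : M →ₐ[L] Ω, (c σ * ∏ j, resV F j σ (f j) +
        ∑ i, ∏ j, (if j = i then θ j σ (f j) else resV F j σ (f j))) = 0)
    (i0 : Fin n) (σ0 : M →ₐ[L] Ω) {f f' : F i0} (hf : f ∈ V i0) (hf' : f' ∈ V i0) :
    σ0 (f : M) * θ i0 σ0 f' = σ0 (f' : M) * θ i0 σ0 f := by
  classical
  let p : ∀ i, (M →ₐ[L] Ω) → (F i →ₐ[k] Ω) := fun i => resV F i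
  by_cases hθ0 : θ i0 σ0 = 0
  · rw [hθ0]
    simp
  let cap : Fin n → ℕ := fun i => if i = i0 then m i - 2 else m i - 1
  have hcap : ∀ Q : Finset (Fin n), ∑ j ∈ Q, (m j - 1) ≤ ∑ j ∈ Q, cap j + 1 := by
    intro Q
    have h1 : ∀ j ∈ Q, m j - 1 ≤ cap j + if j = i0 then 1 else 0 := by
      intro j _
      simp only [cap]
      split_ifs <;> omega
    refine (Finset.sum_le_sum h1).trans ?_
    rw [Finset.sum_add_distrib]
    have h2 : ∑ j ∈ Q, (if j = i0 then 1 else 0) ≤ 1 := by
      rw [Finset.sum_ite_eq']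
      split_ifs <;> simp
    omega
  obtain ⟨K, μ, hK0, hμ, hKcap, hKB, hkill⟩ := assign p σ0 B cap (fun Q hQB => by
    have h1 := card_fix (L := L) (Ω := Ω) {z : M | ∃ j, j ∉ Q ∧ z ∈ F j}
      (insert σ0 (Finset.univ.filter fun σ => σ ≠ σ0 ∧ ∀ i, i ∉ Q → p i σ = p i σ0)) σ0 (by
        intro σ hσ z hz
        rcases Finset.mem_insert.1 hσ with rfl | hσ
        · rfl
        · obtain ⟨j, hj, hzj⟩ := hz
          exact congrArg (fun φ : F j →ₐ[k] Ω => φ ⟨z, hzj⟩) ((Finset.mem_filter.1 hσ).2.2 j hj))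
    rw [Finset.card_insert_of_notMem (by simp)] at h1
    have h2 := hcap Q
    rcases hQ Q hQB with h3 | h3 <;> omega)
  have hKB' : ∀ i ∈ B, ∑ x ∈ K i, μ i x + 2 ≤ m i := by
    intro i hi
    obtain ⟨h1, h2⟩ := hKB i hi
    have h3 : ∑ x ∈ K i, μ i x = (K i).card * 2 := by
      rw [Finset.sum_congr rfl fun x _ => h2 x, Finset.sum_const, smul_eq_mul]
    have h4 : (K i).card + 1 = (Finset.univ.image (p i)).card := by
      rw [h1]
      exact Finset.card_erase_add_one (Finset.mem_image_of_mem _ (Finset.mem_univ σ0))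
    have h5 := card_resV (L := L) (Ω := Ω) F i
    have h6 := hB i hi
    have h7 : (Finset.univ.image (p i)).card ≤
      Module.finrank L (IntermediateField.adjoin L (F i : Set M)) := h5
    omega
  -- the functionals
  have hex : ∀ i, ∃ (q : ℕ) (a : Fin q → Ω) (g : Fin q → F i), (∀ l, g l ∈ V i) ∧
      (i = i0 → ∑ l, a l * p i σ0 (g l) = 0 ∧ (∑ l, a l * θ i σ0 (g l) = 0 →
        ∀ f ∈ V i, ∀ f' ∈ V i, p i σ0 f * θ i σ0 f' = p i σ0 f' * θ i σ0 f)) ∧
      (i ≠ i0 → ∑ l, a l * p i σ0 (g l) = 1) ∧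
      (∀ φ ∈ K i, ∑ l, a l * φ (g l) = 0) ∧
      ∀ σ, p i σ ∈ K i → μ i (p i σ) = 2 → ∑ l, a l * θ i σ (g l) = 0 := by
    intro i
    by_cases hi : i = i0
    · subst hi
      by_cases h3 : (∑ x ∈ K i, μ i x) + 2 ≤ m i
      · obtain ⟨q, a, g, h1, h2, h4, h5, h6⟩ := kill_jetV (hV i) (p i σ0) (K i) (μ i) (hμ i)
          (hK0 i) h3 (p i) (θ i) (hθ i) (hθ i σ0) hθ0
        refine ⟨q, a, g, h1, fun _ => ⟨h2, fun h7 => ?_⟩, fun h7 => absurd rfl h7, h5, h6⟩
        rw [h4] at h7
        exact absurd h7 one_ne_zero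
      · have hiB : i ∉ B := fun h => h3 (hKB' i h)
        have h4 := hKcap i hiB
        simp only [cap, if_true] at h4
        have h5 := hm1 i
        have h6 : ∑ x ∈ K i, μ i x = 0 := by omega
        have h7 : K i = ∅ := by
          by_contra hne
          obtain ⟨x, hx⟩ := Finset.nonempty_iff_ne_empty.2 hne
          have h8 := (Finset.sum_eq_zero_iff.1 h6) x hx
          rcases hμ i x hx with h9 | h9 <;> omega
        by_cases hall : ∀ f ∈ V i, ∀ f' ∈ V i,
            p i σ0 f * θ i σ0 f' = p i σ0 f' * θ i σ0 f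
        · refine ⟨0, Fin.elim0, Fin.elim0, fun l => l.elim0, fun _ => ⟨by simp, fun _ => hall⟩,
            fun h7 => absurd rfl h7, by simp, by simp⟩
        · push Not at hall
          obtain ⟨f1, hf1, f2, hf2, hne⟩ := hall
          refine ⟨2, ![-p i σ0 f2, p i σ0 f1], ![f1, f2], ?_, fun _ => ⟨?_, fun h8 => ?_⟩,
            fun h7 => absurd rfl h7, ?_, ?_⟩
          · intro l
            fin_cases l
            · exact hf1
            · exact hf2
          · simp only [Fin.sum_univ_two, Matrix.cons_val_zero, Matrix.cons_val_one]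
            ring
          · exfalso
            apply hne
            simp only [Fin.sum_univ_two, Matrix.cons_val_zero, Matrix.cons_val_one] at h8
            linear_combination h8
          · rw [h7]
            simp
          · rw [h7]
            simp
    · have h3 : (∑ x ∈ K i, μ i x) + 1 ≤ m i := by
        by_cases hiB : i ∈ B
        · have := hKB' i hiB
          omega
        · have h4 := hKcap i hiB
          simp only [cap, if_neg hi] at h4
          have h5 := hm1 i
          omega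
      obtain ⟨q, a, g, h1, h2, h4, h5⟩ := kill_valV (hV i) (p i σ0) (K i) (μ i) (hμ i) (hK0 i) h3
        (p i) (θ i) (hθ i)
      exact ⟨q, a, g, h1, fun h6 => absurd h6 hi, fun _ => h2, h4, h5⟩
  choose q a g hg h0 h1 h2 h3 using hex
  have h10 := h0 i0 rfl
  have h11 := elim_jetV V p c θ h σ0 i0 q a g hg h10.1 h1 (fun σ hσ => by
    rcases hkill σ hσ with ⟨i, hi1, hi2⟩ | ⟨i, j, hij, hi, hj⟩
    · exact Or.inl ⟨i, h2 i _ hi1, h3 i _ hi1 hi2⟩
    · exact Or.inr ⟨i, j, hij, h2 i _ hi, h2 j _ hj⟩)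
  exact h10.2 h11 f hf f' hf'

/-- **Elimination of values under Hall's condition.** -/
theorem elim_hall_oneV {m : Fin n → ℕ} (hm1 : ∀ i, 1 ≤ m i) (V : ∀ i, Set (F i))
    (hV : ∀ i, Sep k (V i) (m i)) (B : Finset (Fin n))
    (hB : ∀ i ∈ B, Module.finrank L (IntermediateField.adjoin L (F i : Set M)) ≤ m i)
    (hQ : ∀ Q : Finset (Fin n), Disjoint Q B →
      Module.finrank (IntermediateField.adjoin L {z : M | ∃ j, j ∉ Q ∧ z ∈ F j}) M ≤
        1 + ∑ j ∈ Q, (m j - 1))
    (J : M)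
    (hrel : ∀ f : ∀ i, F i, (∀ i, f i ∈ V i) →
      Algebra.trace L M (J * ∏ i, (f i : M)) = 0) : J = 0 := by
  classical
  have hchar : CharZero L := charZero_of_injective_algebraMap (algebraMap k L).injective
  have hsep : Algebra.IsSeparable L M := inferInstance
  let Ω := AlgebraicClosure M
  have hΛ : Fintype.card (M →ₐ[L] Ω) = Module.finrank L M := AlgHom.card L M Ω
  have hpos : 0 < Module.finrank L M := Module.finrank_pos
  obtain ⟨σ0⟩ : Nonempty (M →ₐ[L] Ω) := Fintype.card_pos_iff.1 (by rw [hΛ]; exact hpos)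
  let p : ∀ i, (M →ₐ[L] Ω) → (F i →ₐ[k] Ω) := fun i => resV F i
  obtain ⟨K, hK0, hKcap, hKB, hkill⟩ := assign_one p σ0 B (fun i => m i - 1) (fun Q hQB => by
    have h1 := card_fix (L := L) (Ω := Ω) {z : M | ∃ j, j ∉ Q ∧ z ∈ F j}
      (insert σ0 (Finset.univ.filter fun σ => σ ≠ σ0 ∧ ∀ i, i ∉ Q → p i σ = p i σ0)) σ0 (by
        intro σ hσ z hz
        rcases Finset.mem_insert.1 hσ with rfl | hσ
        · rfl
        · obtain ⟨j, hj, hzj⟩ := hz
          exact congrArg (fun φ : F j →ₐ[k] Ω => φ ⟨z, hzj⟩) ((Finset.mem_filter.1 hσ).2.2 j hj))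
    rw [Finset.card_insert_of_notMem (by simp)] at h1
    have h3 := hQ Q hQB
    omega)
  have hfin := elimV (Ω := Ω) V hV p (fun σ => σ J) (fun f hf => by
    have h1 := hrel f hf
    have h2 := trace_eq_sum_embeddings (K := L) (L := M) (x := J * ∏ i, (f i : M)) Ω
    rw [h1, map_zero] at h2
    rw [h2]
    refine Finset.sum_congr rfl fun σ _ => ?_
    rw [map_mul, map_prod]
    rfl) σ0 K hK0 (fun i => by
      by_cases hiB : i ∈ B
      · have h4 : (K i).card + 1 = (Finset.univ.image (p i)).card := by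
          rw [hKB i hiB]
          exact Finset.card_erase_add_one (Finset.mem_image_of_mem _ (Finset.mem_univ σ0))
        have h5 := card_resV (L := L) (Ω := Ω) F i
        have h6 := hB i hiB
        have h7 : (Finset.univ.image (p i)).card ≤
          Module.finrank L (IntermediateField.adjoin L (F i : Set M)) := h5
        omega
      · have h2 := hKcap i hiB
        have h3 := hm1 i
        omega) hkill
  exact (map_eq_zero σ0).1 hfin

end

end Q36.GV
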