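import Pool.Agent.Q36.GV.Wd
import Pool.Agent.Q36.GV.El
import Pool.Agent.Q36.HB.Im

/-!
Coordinates on varieties which are generically finite over products.
-/

set_option autoImplicit false
set_option linter.overlappingInstances false
set_option linter.unusedSectionVars false

open Polynomial FF IsDedekindDomain IntermediateField
open Pool.Agent.W602.GT Pool.Agent.W603.LV Pool.Agent.W619.PQ Pool.Agent.W619.TW
  Pool.Agent.W619.Y

namespace Q36.GV

section

variable {k M : Type} [Field k] [CharZero k] [Field M] [Algebra k M]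
  {s : ℕ} {d : Fin s → ℕ} (F : Fin s → IntermediateField k M)

theorem coords_basis (hn : Algebra.trdeg k M = (∑ i, d i : ℕ))
    (halg : Algebra.IsAlgebraic ↥(⨆ i, F i) M) (y : ∀ i, Fin (d i) → F i)
    (hy : ∀ i, IsTranscendenceBasis k (y i)) : IsTranscendenceBasis k (coords F y) := by
  have h1 : Algebra.IsAlgebraic (Algebra.adjoin k (Set.range (coords F y))) M := by
    refine alg_adjoin fun z => ?_
    let S : IntermediateField k M := adjoin k (Set.range (coords F y))
    let A : IntermediateField S M := algebraicClosure S M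
    have hmem : ∀ i l, (y i l : M) ∈ S := by
      intro i l
      refine subset_adjoin k _ ⟨finSigmaFinEquiv ⟨i, l⟩, ?_⟩
      unfold coords
      rw [Equiv.symm_apply_apply]
    have hle : ⨆ i, F i ≤ (algebraicClosure S M).restrictScalars k := by
      refine iSup_le fun i z hz => ?_
      rw [mem_restrictScalars, mem_algebraicClosure_iff]
      have h2 := (hy i).isAlgebraic_field.isAlgebraic (⟨z, hz⟩ : F i)
      have hle : adjoin k (Set.range (y i)) ≤ S.comap (F i).val := by
        rw [adjoin_le_iff]
        rintro _ ⟨l, rfl⟩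
        exact hmem i l
      let f : adjoin k (Set.range (y i)) →+* S :=
        (((F i).val : F i →+* M).comp (algebraMap (adjoin k (Set.range (y i))) (F i))).codRestrict
          S fun y => hle y.2
      exact h2.ringHom_of_comp_eq f ((F i).val : F i →+* M) f.injective (by ext y; rfl)
    have hA : ∀ z ∈ ⨆ i, F i, z ∈ A := fun z hz => hle hz
    let f : ↥(⨆ i, F i) →+* A := ((⨆ i, F i).val : ↥(⨆ i, F i) →+* M).codRestrict A
      fun y => hA _ y.2
    have h2 : IsAlgebraic A z := by
      have h3 := halg.isAlgebraic z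
      refine h3.ringHom_of_comp_eq f (RingHom.id M) f.injective (by ext y; rfl)
    have h4 : Algebra.IsAlgebraic S A := algebraicClosure.isAlgebraic S M
    exact IsAlgebraic.restrictScalars S h2
  refine Algebra.IsAlgebraic.isTranscendenceBasis_of_lift_le_trdeg_of_finite k _ ?_
  rw [hn]
  simp

end

/-- an algebraically independent family is part of a transcendence basis -/
theorem extend_basis {k K : Type} [Field k] [Field K] [Algebra k K] {d a : ℕ}
    (hd : Algebra.trdeg k K = d) {x : Fin a → K} (hx : AlgebraicIndependent k x) :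
    ∃ y : Fin d → K, IsTranscendenceBasis k y ∧ ∃ g : Fin a → Fin d, Function.Injective g ∧
      ∀ l, y (g l) = x l := by
  classical
  have h0 : AlgebraicIndepOn k id (Set.range x) := AlgebraicIndependent.coe_range hx
  obtain ⟨t, ht, hb⟩ := exists_isTranscendenceBasis_superset h0
  have h1 := hb.cardinalMk_eq_trdeg
  rw [hd] at h1
  have h2 : Cardinal.lift.{0} (Cardinal.mk t) = Cardinal.lift.{0} (Cardinal.mk (Fin d)) := by
    rw [h1]
    simp
  obtain ⟨e⟩ := Cardinal.lift_mk_eq'.1 h2
  refine ⟨fun b => (e.symm b : K), (isTranscendenceBasis_equiv e.symm).2 hb,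
    fun l => e ⟨x l, ht ⟨l, rfl⟩⟩, fun l l' h => ?_, fun l => ?_⟩
  · have h3 := congrArg Subtype.val (e.injective h)
    exact hx.injective h3
  · simp

/-- The coefficients of the regular canonical forms, with respect to a frame. -/
def CanF (k : Type) {K : Type} [Field k] [Field K] [Algebra k K] (d : ℕ)
    (E : Fin d → Derivation k K K) : Set K :=
  {f | ∃ η : (Fin d → Derivation k K K) → K, IsPluriForm k K d 1 η ∧
    (∀ u : Place k K, IsDivisorial u d → RegularAt u d η) ∧ η E = f}

/-- The canonical forms separate `m` points and tangent vectors. -/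
def CanSepJ (k K : Type) [Field k] [Field K] [Algebra k K] (d m : ℕ) : Prop :=
  ∀ (y : Fin d → K) (E : Fin d → Derivation k K K), IsTranscendenceBasis k y →
    (∀ i j, E i (y j) = if i = j then 1 else 0) → SepJ k (CanF k d E) m

/-- The canonical forms separate `m` points. -/
def CanSep (k K : Type) [Field k] [Field K] [Algebra k K] (d m : ℕ) : Prop :=
  ∀ (y : Fin d → K) (E : Fin d → Derivation k K K), IsTranscendenceBasis k y →
    (∀ i j, E i (y j) = if i = j then 1 else 0) → Sep k (CanF k d E) m

theorem CanSepJ.canSep {k K : Type} [Field k] [Field K] [Algebra k K] {d m : ℕ}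
    (h : CanSepJ k K d m) : CanSep k K d m := fun y E hy hE => (h y E hy hE).sep

section

variable {k M : Type} [Field k] [CharZero k] [Field M] [Algebra k M]
  {s : ℕ} {d : Fin s → ℕ} (F : Fin s → IntermediateField k M)
  [∀ i, Algebra.EssFiniteType k (F i)]

/-- the exterior product of regular canonical forms is regular -/
theorem wdg_reg' (hd : ∀ i, Algebra.trdeg k (F i) = d i)
    (hn : Algebra.trdeg k M = (∑ i, d i : ℕ)) {y : ∀ i, Fin (d i) → F i}
    (hy : ∀ i, IsTranscendenceBasis k (y i)) {E : ∀ i, Fin (d i) → Derivation k (F i) (F i)}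
    (hE : ∀ i a b, E i a (y i b) = if a = b then 1 else 0) {f : ∀ i, F i}
    (hf : ∀ i, f i ∈ CanF k (d i) (E i)) (w : Place k M) (hw : Divisorial (∑ i, d i) w) :
    RegAt w (wdg F y f) := by
  refine wdg_reg F y f w fun i => ?_
  obtain ⟨η, h1, h2, h3⟩ := hf i
  have h4 := pYLOC.{0, 0} k M (F i) (d i) (∑ i, d i) 1 (hd i) hn
    (fun y hy => Pool.Agent.Y172.fd_basis hy) η h1 h2 (y i) (E i) (hy i) (hE i) w hw
  rw [h3] at h4
  exact h4

end

end Q36.GV
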