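import Pool.Agent.Q36.GV.Kn

/-!
The base of the Iitaka fibration.
-/

set_option autoImplicit false
set_option linter.overlappingInstances false
set_option linter.unusedSectionVars false

open Polynomial FF IsDedekindDomain IntermediateField
open Pool.Agent.W602.GT Pool.Agent.W603.LV Pool.Agent.W619.PQ Pool.Agent.W619.PL
  Pool.Agent.W619.TW Pool.Agent.W619.X Pool.Agent.W619.Y Q36.PT Q36.SD Q36.HB Q36.HL

namespace Q36.GV

/-- algebraic extensions which are finitely generated as fields are finite -/
theorem fin_of_alg {K N : Type} [Field K] [Field N] [Algebra K N] [Algebra.EssFiniteType K N]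
    [halg1 : Algebra.IsAlgebraic K N] : FiniteDimensional K N := by
  obtain ⟨s, hs⟩ := IntermediateField.fg_top K N
  have h1 : FiniteDimensional K (IntermediateField.adjoin K (s : Set N)) :=
    IntermediateField.finiteDimensional_adjoin fun x _ => (halg1.isAlgebraic x).isIntegral
  rw [hs] at h1
  exact h1.equiv IntermediateField.topEquiv.toLinearEquiv

/-- relative degrees are monotone -/
theorem finrank_anti {L M : Type} [Field L] [Field M] [Algebra L M] [FiniteDimensional L M]
    {E1 E2 : IntermediateField L M} (h : E1 ≤ E2) : Module.finrank E2 M ≤ Module.finrank E1 M := by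
  have h1 := Module.finrank_mul_finrank L E1 M
  have h2 := Module.finrank_mul_finrank L E2 M
  have h3 : Module.finrank L E1 ≤ Module.finrank L E2 :=
    LinearMap.finrank_le_finrank_of_injective (f := (IntermediateField.inclusion h).toLinearMap)
      (IntermediateField.inclusion h).injective
  have h4 : 0 < Module.finrank L E1 := Module.finrank_pos
  rw [← h2] at h1
  by_contra hlt
  push Not at hlt
  have h5 : Module.finrank L E1 * Module.finrank E1 M < Module.finrank L E1 * Module.finrank E2 M :=
    Nat.mul_lt_mul_of_pos_left hlt h4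
  have h6 : Module.finrank L E1 * Module.finrank E2 M ≤
      Module.finrank L E2 * Module.finrank E2 M := Nat.mul_le_mul_right _ h3
  omega

section

variable {k M : Type} [Field k] [CharZero k] [IsAlgClosed k] [Field M] [Algebra k M]
  {s : ℕ} {d : Fin s → ℕ} (F : Fin s → IntermediateField k M)
  [hess : ∀ i, Algebra.EssFiniteType k (F i)]

/-- the compositum of some of the factors -/
def part (S : Finset (Fin s)) : IntermediateField k M := ⨆ i : {i // i ∈ S}, F i

theorem le_part {S : Finset (Fin s)} {i : Fin s} (hi : i ∈ S) : F i ≤ part F S :=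
  le_iSup (fun i : {i // i ∈ S} => F i) ⟨i, hi⟩

theorem part_ess (S : Finset (Fin s)) : Algebra.EssFiniteType k (part F S) :=
  IntermediateField.essFiniteType_iff.2 (IntermediateField.fg_iSup fun j =>
    IntermediateField.essFiniteType_iff.1 (hess j))

theorem part_sup (hsup : ⨆ i, F i = ⊤) (S : Finset (Fin s)) : part F S ⊔ part F Sᶜ = ⊤ := by
  rw [eq_top_iff, ← hsup]
  refine iSup_le fun j => ?_
  by_cases hj : j ∈ S
  · exact (le_part F hj).trans le_sup_left
  · exact (le_part F (Finset.mem_compl.2 hj)).trans le_sup_right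

theorem part_trdeg_le (hd : ∀ i, Algebra.trdeg k (F i) = d i) (S : Finset (Fin s)) :
    Algebra.trdeg k (part F S) ≤ (∑ j ∈ S, d j : ℕ) := by
  classical
  have hb : ∀ j, ∃ y : Fin (d j) → F j, IsTranscendenceBasis k y := fun j => by
    obtain ⟨y, -, hy, -⟩ := Pool.Agent.Y172.exists_crd (hd j)
    exact ⟨y, hy⟩
  choose y hy using hb
  let T : Set M := Set.range fun p : (j : {j // j ∈ S}) × Fin (d j) => (y p.1 p.2 : M)
  have h2 : part F S ≤ Pool.Agent.W904.PG.acl k T := by
    refine iSup_le fun j => ?_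
    have h3 := Pool.Agent.W904.PG.le_acl_of_basis (F j) _ (hy j).to_subtype_range
    refine h3.trans (Pool.Agent.W904.PG.acl_mono ?_)
    rintro _ ⟨⟨_, l, rfl⟩, rfl⟩
    exact ⟨⟨j, l⟩, rfl⟩
  refine (Pool.Agent.W904.PG.trdeg_le_acl _ _ h2).trans ?_
  refine Cardinal.mk_range_le.trans ?_
  rw [Cardinal.mk_fintype, Fintype.card_sigma]
  refine Nat.cast_le.2 (le_of_eq ?_)
  simp only [Fintype.card_fin]
  exact Finset.sum_coe_sort S d

theorem part_trdeg (hd : ∀ i, Algebra.trdeg k (F i) = d i)
    (hM : Algebra.trdeg k M = (∑ i, d i : ℕ)) (hsup : ⨆ i, F i = ⊤) (S : Finset (Fin s)) :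
    Algebra.trdeg k (part F S) = (∑ j ∈ S, d j : ℕ) := by
  classical
  refine le_antisymm (part_trdeg_le F hd S) ?_
  have h1 := part_trdeg_le F hd Sᶜ
  have h2 := Pool.Agent.W904.PG.trdeg_sup (part F S).val (part F Sᶜ).val
  rw [fieldRange_val, fieldRange_val, part_sup F hsup S] at h2
  have h3 : Algebra.trdeg k (⊤ : IntermediateField k M) = (∑ i, d i : ℕ) := by
    rw [← hM]
    exact (IntermediateField.topEquiv (F := k) (E := M)).trdeg_eq
  rw [h3] at h2
  obtain ⟨p, hp⟩ := Cardinal.lt_aleph0.1
    ((part_trdeg_le F hd S).trans_lt Cardinal.natCast_lt_aleph0)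
  obtain ⟨q, hq⟩ := Cardinal.lt_aleph0.1 (h1.trans_lt Cardinal.natCast_lt_aleph0)
  rw [hp]
  rw [hp, hq] at h2
  rw [hq] at h1
  have h4 : ∑ i, d i ≤ p + q := by exact_mod_cast h2
  have h5 : q ≤ ∑ j ∈ Sᶜ, d j := by exact_mod_cast h1
  have h6 : ∑ j ∈ S, d j + ∑ j ∈ Sᶜ, d j = ∑ j, d j := Finset.sum_add_sum_compl S d
  exact_mod_cast (by omega : ∑ j ∈ S, d j ≤ p)

/-- a partial product is algebraically closed in the product -/
theorem part_closed (hd : ∀ i, Algebra.trdeg k (F i) = d i)
    (hM : Algebra.trdeg k M = (∑ i, d i : ℕ)) (hsup : ⨆ i, F i = ⊤) (S : Finset (Fin s)) {z : M}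
    (hz : IsAlgebraic (part F S) z) : z ∈ part F S := by
  refine closed_in_prod (part F S) (part F Sᶜ) _ _ (part_trdeg F hd hM hsup S) ?_
    (part_trdeg_le F hd Sᶜ) (part_sup F hsup S) hz
  rw [hM, Finset.sum_add_sum_compl S d]

end

end Q36.GV
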