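import Pool.Agent.Q36.GV.Cr

/-!
The ratios of the canonical forms are functions on the partial product.
-/

set_option autoImplicit false
set_option linter.overlappingInstances false
set_option linter.unusedSectionVars false

open Polynomial FF IsDedekindDomain IntermediateField
open Pool.Agent.W602.GT Pool.Agent.W603.LV Pool.Agent.W619.PQ Pool.Agent.W619.PL
  Pool.Agent.W619.TW Pool.Agent.W619.X Pool.Agent.W619.Y Q36.PT Q36.SD Q36.HB Q36.HL

namespace Q36.GV

section

variable {k L M : Type} [Field k] [CharZero k] [IsAlgClosed k] [Field L] [Field M]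
  [Algebra k L] [Algebra k M] [Algebra L M] [IsScalarTower k L M] [FiniteDimensional L M]
  [Algebra.EssFiniteType k L] {s : ℕ} {d : Fin s → ℕ} (F : Fin s → IntermediateField k M)
  [hess : ∀ i, Algebra.EssFiniteType k (F i)]

/-- the quotients of two canonical forms of `X` are functions on the partial product -/
theorem ratio_mem (hnM : Algebra.trdeg k M = (∑ i, d i : ℕ)) (hsup : ⨆ i, F i = ⊤)
    (hd : ∀ i, Algebra.trdeg k (F i) = d i) {a : Fin s → ℕ}
    (ha : ∀ i, ImageGe k (F i) (d i) (fun _ => False) 1 (a i)) (S : Finset (Fin s))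
    (haS : ∀ i, i ∉ S → a i = 0)
    (hnum : NumLe k M (∑ i, d i) (fun _ => False) (∑ i, a i))
    {q : ℕ} {ω ω' : (Fin (∑ i, d i) → Derivation k L L) → L}
    (hω : IsSec k L (∑ i, d i) (fun _ => False) {1} q 0 ω)
    (hω' : IsSec k L (∑ i, d i) (fun _ => False) {1} q 0 ω')
    {G : Fin (∑ i, d i) → Derivation k L L} (hG : ω G ≠ 0) :
    algebraMap L M (ω' G / ω G) ∈ part F S := by
  classical
  have hessM : Algebra.EssFiniteType k M := ess_up k L M
  have hn : Algebra.trdeg k L = (∑ i, d i : ℕ) := trdeg_below (K := M) hnM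
  obtain ⟨y, E, hy, hE⟩ := Pool.Agent.Y172.exists_crd (k := k) (K := L) hn
  choose E' hE' using fun i => Pool.Agent.Y172.exists_lift (L := M) hn (E i)
  have hEd := Pool.Agent.Y172.lift_dual hE hE'
  choose t D ht hD using fun i => Pool.Agent.Y172.exists_crd (hd i)
  have halg := alg_of_sup' F hsup
  have hbt : IsTranscendenceBasis k (coords F t) := coords_basis F hnM halg t ht
  have hJ : (Matrix.of fun a b => E' a (coords F t b)).det ≠ 0 := jac_ne hbt hEd
  -- the forms on the factors
  choose η hη Gi hGi hGind using ha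
  have hmem : ∀ i l, η i l (D i) ∈ CanF k (d i) (D i) := fun i l =>
    ⟨η i l, (reg_of_sec (hη i l)).1, (reg_of_sec (hη i l)).2, rfl⟩
  have hco : ∀ i l, η i l (Gi i) =
      (Matrix.of fun a b => Gi i a (t i b)).det ^ 1 * η i l (D i) := fun i l =>
    Pool.Agent.Y172.pluri_coord (ht i) (hD i) (hη i l).1 (Gi i)
  have hη0 : ∀ i l, η i l (D i) ≠ 0 := fun i l h => hGi i l (by rw [hco, h, mul_zero])
  have hdet : ∀ i, (Matrix.of fun a b => Gi i a (t i b)).det ^ 1 ≠ 0 := fun i h =>
    hGi i 0 (by rw [hco, h, zero_mul])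
  let x : ∀ i, Fin (a i) → F i := fun i l => η i l.succ (D i) / η i 0 (D i)
  have hx : ∀ i, AlgebraicIndependent k (x i) := by
    intro i
    have h1 : x i = fun l : Fin (a i) => η i l.succ (Gi i) / η i 0 (Gi i) := by
      funext l
      simp only [x]
      rw [hco i l.succ, hco i 0, mul_div_mul_left _ _ (hdet i)]
    rw [h1]
    exact hGind i
  choose u hu g hg hgx using fun i => extend_basis (hd i) (hx i)
  have hbu : IsTranscendenceBasis k (coords F u) := coords_basis F hnM halg u hu
  -- the forms on the product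
  let f0 : ∀ i, F i := fun i => η i 0 (D i)
  let fl : Fin (∑ i, a i) → ∀ i, F i := fun l => Function.update f0 (finSigmaFinEquiv.symm l).1
    (η (finSigmaFinEquiv.symm l).1 (finSigmaFinEquiv.symm l).2.succ (D (finSigmaFinEquiv.symm l).1))
  have hf0 : ∀ i, f0 i ∈ CanF k (d i) (D i) := fun i => hmem i 0
  have hfl : ∀ l i, fl l i ∈ CanF k (d i) (D i) := by
    intro l i
    by_cases hi : i = (finSigmaFinEquiv.symm l).1
    · subst hi
      simp only [fl, Function.update_self]
      exact hmem _ _
    · simp only [fl, Function.update_of_ne hi]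
      exact hmem i 0
  have hsec : ∀ f : ∀ i, F i, (∀ i, f i ∈ CanF k (d i) (D i)) →
      IsSec k M (∑ i, d i) (fun _ => False) {1} 1 0 (wdg F t f) := fun f hf =>
    ⟨wdg_pluri F t f, fun v hv _ D' hD' => Pool.Agent.W303.PG.dom_of_reg
      (wdg_reg' F hd hnM ht hD hf v hv D' hD'), fun v _ hB => absurd hB id⟩
  have hwd : ∀ f : ∀ i, F i, wdg F t f E' =
      (∏ i, (f i : M)) * (Matrix.of fun a b => E' a (coords F t b)).det := fun f => rfl
  have hprod : ∀ f : ∀ i, F i, (∀ i, f i ≠ 0) → (∏ i, (f i : M)) ≠ 0 := fun f hf =>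
    Finset.prod_ne_zero_iff.2 fun i _ h => hf i (Subtype.ext h)
  have hf00 : ∀ i, f0 i ≠ 0 := fun i => hη0 i 0
  have hfl0 : ∀ l i, fl l i ≠ 0 := by
    intro l i
    by_cases hi : i = (finSigmaFinEquiv.symm l).1
    · subst hi
      simp only [fl, Function.update_self]
      exact hη0 _ _
    · simp only [fl, Function.update_of_ne hi]
      exact hη0 i 0
  let α : Fin (∑ i, a i + 1) → (Fin (∑ i, d i) → Derivation k M M) → M :=
    Fin.cons (wdg F t f0) fun l => wdg F t (fl l)
  have hratio : ∀ l : Fin (∑ i, a i), α l.succ E' / α 0 E' =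
      (x (finSigmaFinEquiv.symm l).1 (finSigmaFinEquiv.symm l).2 : M) := by
    intro l
    change wdg F t (fl l) E' / wdg F t f0 E' = _
    rw [hwd, hwd, mul_div_mul_right _ _ hJ]
    rw [← Finset.mul_prod_erase Finset.univ _ (Finset.mem_univ (finSigmaFinEquiv.symm l).1),
      ← Finset.mul_prod_erase Finset.univ (fun i => (f0 i : M))
        (Finset.mem_univ (finSigmaFinEquiv.symm l).1)]
    have h1 : ∏ i ∈ Finset.univ.erase (finSigmaFinEquiv.symm l).1, (fl l i : M) =
        ∏ i ∈ Finset.univ.erase (finSigmaFinEquiv.symm l).1, (f0 i : M) := by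
      refine Finset.prod_congr rfl fun i hi => ?_
      simp only [fl, Function.update_of_ne (Finset.ne_of_mem_erase hi)]
    have h2 : ∏ i ∈ Finset.univ.erase (finSigmaFinEquiv.symm l).1, (f0 i : M) ≠ 0 :=
      Finset.prod_ne_zero_iff.2 fun i _ h => hf00 i (Subtype.ext h)
    rw [h1, mul_div_mul_right _ _ h2]
    simp only [fl, Function.update_self]
    rfl
  have hind : AlgebraicIndependent k fun l : Fin (∑ i, a i) => α l.succ E' / α 0 E' := by
    have h1 := hbu.1.comp (fun l : Fin (∑ i, a i) => finSigmaFinEquiv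
      (⟨(finSigmaFinEquiv.symm l).1, g _ (finSigmaFinEquiv.symm l).2⟩ :
        (i : Fin s) × Fin (d i))) (by
      intro l l' hll
      have h2 := finSigmaFinEquiv.injective hll
      apply finSigmaFinEquiv.symm.injective
      revert h2
      generalize (finSigmaFinEquiv.symm l : (i : Fin s) × Fin (a i)) = p
      generalize (finSigmaFinEquiv.symm l' : (i : Fin s) × Fin (a i)) = p'
      intro h2
      obtain ⟨i, c⟩ := p
      obtain ⟨i', c'⟩ := p'
      simp only [Sigma.mk.injEq] at h2
      obtain ⟨h3, h4⟩ := h2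
      subst h3
      rw [hg i (eq_of_heq h4)])
    convert h1 using 1
    funext l
    rw [hratio, Function.comp_apply]
    unfold coords
    rw [Equiv.symm_apply_apply]
    change _ = ((u _ (g _ _) : F _) : M)
    rw [hgx]
  -- the pull back of the forms of `X`
  have hpull : ∀ ζ : (Fin (∑ i, d i) → Derivation k L L) → L,
      IsSec k L (∑ i, d i) (fun _ => False) {1} q 0 ζ →
      IsSec k M (∑ i, d i) (fun _ => False) {1} q 0 (fun D =>
        (Matrix.of fun a b => D a (algebraMap L M (y b))).det ^ q * algebraMap L M (ζ E)) := by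
    intro ζ hζ
    have h1 := pPULL k L M (∑ i, d i) hn (fun y hy => fin_over y hy) (fun _ => False) {1} q 0 y E
      hy hE ζ hζ
    have hbd : BdUp (k := k) (K := L) (L := M) (fun _ => False) = fun _ => False := by
      funext w
      simp [BdUp]
    rw [hbd, Finset.image_singleton, map_one] at h1
    exact h1
  have hE1 : ∀ z : L, (Matrix.of fun a b => E' a (algebraMap L M (y b))).det ^ q *
      algebraMap L M z = algebraMap L M z := by
    intro z
    have h1 : (Matrix.of fun a b => E' a (algebraMap L M (y b))) =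
        (1 : Matrix (Fin (∑ i, d i)) (Fin (∑ i, d i)) M) := by
      ext a b
      rw [Matrix.of_apply, hEd, Matrix.one_apply]
    rw [h1, Matrix.det_one, one_pow, one_mul]
  have hcoL : ∀ ζ : (Fin (∑ i, d i) → Derivation k L L) → L,
      IsSec k L (∑ i, d i) (fun _ => False) {1} q 0 ζ →
      ζ G = (Matrix.of fun a b => G a (y b)).det ^ q * ζ E := fun ζ hζ =>
    Pool.Agent.Y172.pluri_coord hy hE hζ.1 G
  have hωE : ω E ≠ 0 := fun h => hG (by rw [hcoL ω hω, h, mul_zero])
  have hdG : (Matrix.of fun a b => G a (y b)).det ^ q ≠ 0 := fun h =>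
    hG (by rw [hcoL ω hω, h, zero_mul])
  have h1 := ratio_algebraic (k := k) (M := M) hnM hnum (α := α) (fun l => by
      refine Fin.cases ?_ (fun l => ?_) l
      · exact hsec f0 hf0
      · exact hsec (fl l) (hfl l)) (D := E') (fun l => by
      refine Fin.cases ?_ (fun l => ?_) l
      · exact mul_ne_zero (hprod f0 hf00) hJ
      · exact mul_ne_zero (hprod (fl l) (hfl0 l)) hJ) hind (hpull ω hω) (hpull ω' hω') (by
      rw [hE1]
      simpa using hωE)
  have h2 : (fun D : Fin (∑ i, d i) → Derivation k M M =>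
        (Matrix.of fun a b => D a (algebraMap L M (y b))).det ^ q * algebraMap L M (ω' E)) E' /
      (fun D : Fin (∑ i, d i) → Derivation k M M =>
        (Matrix.of fun a b => D a (algebraMap L M (y b))).det ^ q * algebraMap L M (ω E)) E' =
      algebraMap L M (ω' G / ω G) := by
    change _ * _ / (_ * _) = _
    rw [hE1, hE1, hcoL ω hω, hcoL ω' hω', mul_div_mul_left _ _ hdG, map_div₀]
  rw [h2] at h1
  -- algebraic over the partial product
  apply part_closed F hd hnM hsup S
  have hle : Algebra.adjoin k (Set.range fun l : Fin (∑ i, a i) => α l.succ E' / α 0 E') ≤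
      (part F S).toSubalgebra := by
    refine Algebra.adjoin_le ?_
    rintro _ ⟨l, rfl⟩
    change α l.succ E' / α 0 E' ∈ part F S
    rw [hratio]
    have hi : (finSigmaFinEquiv.symm l).1 ∈ S := by
      by_contra hi
      have h3 := haS _ hi
      exact absurd (finSigmaFinEquiv.symm l).2.2 (by omega)
    exact le_part F hi (x _ _).2
  let g2 : Algebra.adjoin k (Set.range fun l : Fin (∑ i, a i) => α l.succ E' / α 0 E') →+*
      part F S := (Subalgebra.inclusion hle).toRingHom
  exact h1.ringHom_of_comp_eq g2 (RingHom.id M) (Subalgebra.inclusion_injective hle)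
    (by ext z; rfl)

end

end Q36.GV
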