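import Pool.Agent.Q36.GV.Cs

/-!
The numbers of coordinates for a partial product.
-/

set_option autoImplicit false
set_option linter.overlappingInstances false
set_option linter.unusedSectionVars false

open Polynomial IntermediateField

namespace Q36.GV

section

variable {k K L N M : Type} [Field k] [Field K] [CharZero K] [Field L] [Field N] [Field M]
  [Algebra k K] [Algebra k L] [Algebra k N] [Algebra k M] [Algebra K L] [Algebra K N]
  [Algebra K M] [Algebra L M] [Algebra N M] [IsScalarTower K L M] [IsScalarTower K N M]
  [IsScalarTower k N M] [IsScalarTower k L M] [IsScalarTower k K L]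
  [FiniteDimensional L M] [FiniteDimensional K N]
  (hK : ∀ x : L, IsAlgebraic K x → x ∈ (algebraMap K L).range)

theorem finrank_map (T : Set N) : Module.finrank K (IntermediateField.adjoin K T) =
    Module.finrank K (IntermediateField.adjoin K (algebraMap N M '' T)) := by
  have h1 : IntermediateField.adjoin K (algebraMap N M '' T) =
      (IntermediateField.adjoin K T).map (IsScalarTower.toAlgHom K N M) :=
    (IntermediateField.adjoin_map K T (IsScalarTower.toAlgHom K N M)).symm
  rw [h1]
  exact (IntermediateField.equivMap (IntermediateField.adjoin K T)
    (IsScalarTower.toAlgHom K N M)).toLinearEquiv.finrank_eq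

theorem le_range (T : Set N) : IntermediateField.adjoin K (algebraMap N M '' T) ≤
    (IsScalarTower.toAlgHom K N M).fieldRange := by
  rw [adjoin_le_iff]
  rintro _ ⟨z, -, rfl⟩
  exact ⟨z, rfl⟩

include hK in
/-- the number of coordinates -/
theorem coord_le (F : IntermediateField k M) (F' : IntermediateField k N)
    (h : ∀ z ∈ F', algebraMap N M z ∈ F) :
    Module.finrank K (IntermediateField.adjoin K (F' : Set N)) ≤
      Module.finrank L (IntermediateField.adjoin L (F : Set M)) := by
  rw [finrank_map (M := M)]
  have hfinP2 : FiniteDimensional K (IsScalarTower.toAlgHom K N M).fieldRange :=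
    LinearEquiv.finiteDimensional (AlgEquiv.ofInjectiveField
      (IsScalarTower.toAlgHom K N M)).toLinearEquiv
  have hfin1 : FiniteDimensional K
      (IntermediateField.adjoin K (algebraMap N M '' (F' : Set N))) :=
    Module.Finite.of_injective (IntermediateField.inclusion (le_range _)).toLinearMap
      (IntermediateField.inclusion (le_range _)).injective
  rw [← ld hK (IntermediateField.adjoin K (algebraMap N M '' (F' : Set N)))]
  have h1 : IntermediateField.adjoin L
      ((IntermediateField.adjoin K (algebraMap N M '' (F' : Set N)) : IntermediateField K M) :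
        Set M) ≤ IntermediateField.adjoin L (F : Set M) := by
    rw [adjoin_le_iff]
    have h2 : IntermediateField.adjoin K (algebraMap N M '' (F' : Set N)) ≤
        (IntermediateField.adjoin L (F : Set M)).restrictScalars K := by
      rw [adjoin_le_iff]
      rintro _ ⟨z, hz, rfl⟩
      exact subset_adjoin L _ (h z hz)
    exact h2
  exact LinearMap.finrank_le_finrank_of_injective
    (f := (IntermediateField.inclusion h1).toLinearMap) (IntermediateField.inclusion h1).injective

include hK in
/-- the number of agreeing points -/
theorem agree_le (T : Set N) (T1 : Set M) (h : T1 ⊆ algebraMap N M '' T) :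
    Module.finrank (IntermediateField.adjoin K T) N ≤
      Module.finrank (IntermediateField.adjoin L T1) M := by
  have hfinP2 : FiniteDimensional K (IsScalarTower.toAlgHom K N M).fieldRange :=
    LinearEquiv.finiteDimensional (AlgEquiv.ofInjectiveField
      (IsScalarTower.toAlgHom K N M)).toLinearEquiv
  have hP2 : Module.finrank K (IsScalarTower.toAlgHom K N M).fieldRange = Module.finrank K N :=
    (AlgEquiv.ofInjectiveField (IsScalarTower.toAlgHom K N M)).toLinearEquiv.finrank_eq.symm
  obtain ⟨r, hr1, hr2⟩ := ld_le hK (IntermediateField.adjoin K (algebraMap N M '' T))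
    (IsScalarTower.toAlgHom K N M).fieldRange (le_range T)
  have h1 := Module.finrank_mul_finrank K (IntermediateField.adjoin K T) N
  rw [← finrank_map (M := M) T, hP2, ← h1] at hr1
  have h2 : 0 < Module.finrank K (IntermediateField.adjoin K T) := Module.finrank_pos
  have h3 : r = Module.finrank (IntermediateField.adjoin K T) N :=
    Nat.eq_of_mul_eq_mul_left h2 hr1
  have h4 : IntermediateField.adjoin L T1 ≤ IntermediateField.adjoin L
      ((IntermediateField.adjoin K (algebraMap N M '' T) : IntermediateField K M) : Set M) := by
    rw [adjoin_le_iff]
    intro z hz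
    exact subset_adjoin L _ (subset_adjoin K _ (h hz))
  have h5 := finrank_anti h4
  rw [← h3]
  exact hr2.trans h5

end

end Q36.GV
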