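import Pool.Agent.Q36.GV.Co

/-!
Curves as factors.
-/

set_option autoImplicit false
set_option linter.overlappingInstances false
set_option linter.unusedSectionVars false

open Polynomial FF IsDedekindDomain IntermediateField
open Pool.Agent.W602.GT Pool.Agent.W603.LV Pool.Agent.W619.PQ Pool.Agent.W619.TW
  Pool.Agent.W619.Y Q36.PT Q36.SD Q36.HB

namespace Q36.GV

/-- the kernel of a derivation with values in a bigger field -/
def kerV {k K V : Type} [Field k] [Field K] [Algebra k K] [Field V] [Algebra k V] [Algebra K V]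
    [IsScalarTower k K V] (D : Derivation k K V) : IntermediateField k K where
  carrier := {z | D z = 0}
  mul_mem' := by
    intro a b ha hb
    simp only [Set.mem_ofPred_eq] at *
    rw [D.leibniz, ha, hb, smul_zero, smul_zero, add_zero]
  add_mem' := by
    intro a b ha hb
    simp only [Set.mem_ofPred_eq] at *
    rw [map_add, ha, hb, add_zero]
  algebraMap_mem' := by
    intro r
    simp only [Set.mem_ofPred_eq]
    exact D.map_algebraMap r
  inv_mem' := by
    intro a ha
    simp only [Set.mem_ofPred_eq] at *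
    by_cases ha0 : a = 0
    · rw [ha0, inv_zero, map_zero]
    · have h1 : D (a * a⁻¹) = 0 := by rw [mul_inv_cancel₀ ha0, D.map_one_eq_zero]
      rw [D.leibniz, ha, smul_zero, add_zero] at h1
      exact (smul_eq_zero.1 h1).resolve_left ha0

section

variable {k F Ω : Type} [Field k] [CharZero k] [Field F] [Algebra k F] [Field Ω] [Algebra k Ω]

/-- the tangent vectors of a curve -/
theorem tan_curve [IsFF k F] {D : Derivation k F F} {t : F} (ht : Transcendental k t)
    (hDt : D t ≠ 0) (φ : F →ₐ[k] Ω) {θ : F →ₗ[k] Ω} (hθ : IsTan φ θ) (f : F) :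
    θ f = θ t / φ (D t) * φ (D f) := by
  let _ : Algebra F Ω := φ.toRingHom.toAlgebra
  have _ : IsScalarTower k F Ω := IsScalarTower.of_algebraMap_eq fun r => (φ.commutes r).symm
  have hsm : ∀ (a : F) (b : Ω), a • b = φ a * b := fun a b => rfl
  have hne : φ (D t) ≠ 0 := fun h => hDt ((map_eq_zero φ).1 h)
  have hθ1 : θ 1 = 0 := by
    have h1 := hθ 1 1
    rw [mul_one, map_one φ, one_mul] at h1
    linear_combination -h1
  let δ : Derivation k F Ω :=
    { toFun := fun z => θ z - θ t / φ (D t) * φ (D z)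
      map_add' := by
        intro a b
        rw [map_add, map_add, map_add]
        ring
      map_smul' := by
        intro c a
        rw [map_smul, D.map_smul, map_smul, RingHom.id_apply, smul_sub, mul_smul_comm]
      map_one_eq_zero' := by
        change θ 1 - _ * φ (D 1) = 0
        rw [hθ1, D.map_one_eq_zero, map_zero, mul_zero, sub_zero]
      leibniz' := by
        intro a b
        change θ (a * b) - _ * φ (D (a * b)) = a • (θ b - _ * φ (D b)) + b • (θ a - _ * φ (D a))
        rw [hsm, hsm, hθ, D.leibniz, map_add, smul_eq_mul, smul_eq_mul, map_mul, map_mul]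
        ring }
  have h1 : ∀ z ∈ kerV δ, δ z = 0 := fun z hz => hz
  have h2 : k⟮t⟯ ≤ kerV δ := by
    rw [adjoin_simple_le_iff]
    change θ t - θ t / φ (D t) * φ (D t) = 0
    rw [div_mul_cancel₀ _ hne, sub_self]
  have h3 := (IsFF.isAlgebraic ht).isAlgebraic f
  let g : k⟮t⟯ →+* kerV δ := (IntermediateField.inclusion h2 : _ →+* _)
  have h4 : IsAlgebraic (kerV δ) f :=
    h3.ringHom_of_comp_eq g (RingHom.id F) g.injective (by ext z; rfl)
  exact sub_eq_zero.1 (der_alg (kerV δ) δ h1 h4)

/-- the canonical forms on a curve -/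
theorem canF_curve [IsAlgClosed k] [IsFF k F] {y : Fin 1 → F} {E : Fin 1 → Derivation k F F}
    (hy : IsTranscendenceBasis k y) (hE : ∀ i j, E i (y j) = if i = j then 1 else 0)
    {f : F} (hf : RegDiff (E 0) f) : f ∈ CanF k 1 E := by
  have hE0 : E 0 ≠ 0 := by
    intro h
    have h1 := hE 0 0
    rw [h, if_pos rfl] at h1
    exact zero_ne_one h1
  refine ⟨fun D => D 0 (y 0) * f, ?_, fun u _ D hD => ?_, ?_⟩
  · intro A D
    change (∑ j, A 0 j • D j) (y 0) * f = A.det ^ 1 * (D 0 (y 0) * f)
    rw [Fin.sum_univ_one, Matrix.det_fin_one]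
    change (A 0 0 * D 0 (y 0)) * f = _
    ring
  · have h1 := Pool.Agent.W73.PG.PULL.expand y hy E hE (D 0)
    rw [Fin.sum_univ_one] at h1
    have h2 : D 0 (unif u) = D 0 (y 0) * E 0 (unif u) := by
      conv_lhs => rw [← h1]
      rfl
    have h3 := hD 0 (unif u) (Or.inr (by rw [ord_unif]; norm_num))
    rw [h2] at h3
    have h4 := der_pi_ne_zero hE0 u (ord_unif u)
    change u.Reg (D 0 (y 0) * f)
    by_cases hc : D 0 (y 0) = 0
    · rw [hc, zero_mul]
      exact Or.inl rfl
    by_cases hf0 : f = 0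
    · rw [hf0, mul_zero]
      exact Or.inl rfl
    right
    have h5 := h3.resolve_left (mul_ne_zero hc h4)
    rw [u.ord_mul hc h4] at h5
    have h6 := (hf u).resolve_left hf0
    rw [u.ord_mul hc hf0]
    have h7 : vo u (E 0) = u.ord (E 0 (unif u)) := rfl
    omega
  · change E 0 (y 0) * f = f
    rw [hE, if_pos rfl, one_mul]

/-- **Curves of gonality more than `m`.** -/
theorem sep_curve [IsAlgClosed k] [IsFF k F] {m : ℕ}
    (hγ : ∀ b : F, Transcendental k b → m < Module.finrank k⟮b⟯ F) : CanSepJ k F 1 m := by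
  intro y E hy hE Ω _ _ ι _ φ n c θ hφ hn hm hθ hθ1 hf i
  have hE0 : E 0 ≠ 0 := by
    intro h
    have h1 := hE 0 0
    rw [h, if_pos rfl] at h1
    exact zero_ne_one h1
  have ht : Transcendental k (y 0) := hy.1.transcendental 0
  have hEt : E 0 (y 0) = 1 := by rw [hE, if_pos rfl]
  have hEne : E 0 (y 0) ≠ 0 := by rw [hEt]; exact one_ne_zero
  have htan := fun i => tan_curve ht hEne (φ i) (hθ i)
  simp only [hEt, map_one, div_one] at htan
  have h1 := indep_mu hE0 φ hφ n hn (fun b hb => lt_of_le_of_lt hm (hγ b hb)) c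
    (fun i => θ i (y 0)) (fun i hi => by rw [hθ1 i hi]; rfl) (fun f hf0 => by
      rw [← hf f (canF_curve hy hE hf0)]
      refine Finset.sum_congr rfl fun j _ => ?_
      rw [htan j f]) i
  refine ⟨h1.1, ?_⟩
  ext f
  rw [htan i f, h1.2, zero_mul]
  rfl

/-- the canonical image of a curve -/
theorem image_curve [IsAlgClosed k] [IsFF k F]
    (h1 : Algebra.trdeg k F = (1 : ℕ))
    (hγ : ∀ b : F, Transcendental k b → 2 ≤ Module.finrank k⟮b⟯ F) :
    ImageGe k F 1 (fun _ => False) 1 (if 0 < canDeg k F then 1 else 0) := by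
  classical
  obtain ⟨y, E, hy, hE⟩ := Pool.Agent.Y172.exists_crd h1
  have hE0 : E 0 ≠ 0 := by
    intro h
    have h1 := hE 0 0
    rw [h, if_pos rfl] at h1
    exact zero_ne_one h1
  have hsec : ∀ f : F, RegDiff (E 0) f → ∃ η : (Fin 1 → Derivation k F F) → F,
      IsSec k F 1 (fun _ => False) {1} 1 0 η ∧ η E = f := by
    intro f hf
    obtain ⟨η, h2, h3, h4⟩ := canF_curve hy hE hf
    exact ⟨η, ⟨h2, fun v hv _ D hD => Pool.Agent.W303.PG.dom_of_reg (h3 v hv D hD),
      fun v _ hB => absurd hB id⟩, h4⟩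
  by_cases hc : 0 < canDeg k F
  · rw [if_pos hc]
    obtain ⟨f, g, hf, hg, hf0, hgf⟩ := two_diff hE0 hγ hc
    obtain ⟨η, h2, h3⟩ := hsec f hf
    obtain ⟨η', h4, h5⟩ := hsec g hg
    have hg0 : g ≠ 0 := by
      rintro rfl
      rw [zero_div] at hgf
      exact hgf isAlgebraic_zero
    refine ⟨![η, η'], fun l => ?_, E, fun l => ?_, ?_⟩
    · fin_cases l
      · exact h2
      · exact h4
    · fin_cases l
      · change η E ≠ 0
        rw [h3]
        exact hf0
      · change η' E ≠ 0
        rw [h5]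
        exact hg0
    · rw [algebraicIndependent_unique_type_iff]
      change Transcendental k (η' E / η E)
      rw [h3, h5]
      exact hgf
  · rw [if_neg hc]
    obtain ⟨f, hf0, hf⟩ := exists_reg_of_gon hE0 hγ
    obtain ⟨η, h2, h3⟩ := hsec f hf
    refine ⟨fun _ => η, fun l => h2, E, fun l => ?_, ?_⟩
    · change η E ≠ 0
      rw [h3]
      exact hf0
    · rw [algebraicIndependent_empty_type_iff]
      exact (algebraMap k F).injective

/-- varieties with a canonical form -/
theorem sep_one {K : Type} [Field K] [Algebra k K] {d : ℕ} (h : PlurigenusPos k K d 1) :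
    CanSepJ k K d 1 := by
  intro y E hy hE Ω _ _ ι _ φ n c θ hφ hn hm hθ hθ1 hf i
  obtain ⟨η, h1, h2, D, hD⟩ := h
  have h3 : η E ≠ 0 := by
    intro h
    have h4 := Pool.Agent.Y172.pluri_coord hy hE h1 D
    rw [h, mul_zero] at h4
    exact hD h4
  have hn1 : n i = 1 := by
    have h4 : n i ≤ ∑ j, n j := Finset.single_le_sum (fun j _ => Nat.zero_le _)
      (Finset.mem_univ i)
    rcases hn i with h5 | h5 <;> omega
  have huniq : ∀ j, j = i := by
    classical
    intro j
    by_contra hj
    have h4 : n j + n i ≤ ∑ l, n l := by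
      rw [← Finset.sum_pair hj]
      exact Finset.sum_le_sum_of_subset (Finset.subset_univ _)
    rcases hn j with h5 | h5 <;> omega
  refine ⟨?_, hθ1 i hn1⟩
  have h4 := hf _ ⟨η, h1, h2, rfl⟩
  rw [Finset.sum_eq_single i (fun j _ hj => absurd (huniq j) hj)
    (fun h => absurd (Finset.mem_univ i) h), hθ1 i hn1] at h4
  rw [LinearMap.zero_apply, add_zero] at h4
  exact (mul_eq_zero.1 h4).resolve_right fun h5 => h3 ((map_eq_zero (φ i)).1 h5)

end

end Q36.GV
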