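import Pool.Agent.Q36.GV.Ct

/-!
The base of the Iitaka fibration is of general type.
-/

set_option autoImplicit false
set_option linter.overlappingInstances false
set_option linter.unusedSectionVars false

open Polynomial FF IsDedekindDomain IntermediateField
open Pool.Agent.W602.GT Pool.Agent.W603.LV Pool.Agent.W619.PQ Pool.Agent.W619.PL
  Pool.Agent.W619.TW Pool.Agent.W619.X Pool.Agent.W619.Y Q36.PT Q36.SD Q36.HB Q36.HL

namespace Q36.GV

section

variable {k K L N M : Type} [Field k] [CharZero k] [IsAlgClosed k] [Field K] [CharZero K]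
  [Field L] [Field N] [Field M]
  [Algebra k K] [Algebra k L] [Algebra k N] [Algebra k M] [Algebra K L] [Algebra K N]
  [Algebra K M] [Algebra L M] [Algebra N M] [IsScalarTower K L M] [IsScalarTower K N M]
  [IsScalarTower k N M] [IsScalarTower k L M] [IsScalarTower k K L] [IsScalarTower k K N]
  [FiniteDimensional L M] [FiniteDimensional K N] [Algebra.EssFiniteType k K]
  {s : ℕ} {d : Fin s → ℕ} (F : Fin s → IntermediateField k M)
  [hess : ∀ i, Algebra.EssFiniteType k (F i)]

/-- the canonical map of the base is generically finite, abstract version -/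
theorem coreAbs (hK : ∀ x : L, IsAlgebraic K x → x ∈ (algebraMap K L).range)
    (hd : ∀ i, Algebra.trdeg k (F i) = d i)
    {m : Fin s → ℕ} (hm1 : ∀ i, 1 ≤ m i) (hV : ∀ i, CanSepJ k (F i) (d i) (m i))
    {a : Fin s → ℕ} (ha : ∀ i, ImageGe k (F i) (d i) (fun _ => False) 1 (a i))
    (S : Finset (Fin s)) (haS : ∀ i ∈ S, a i = d i) (haS' : ∀ i, i ∉ S → a i = 0)
    (hmS : ∀ i, i ∉ S → m i = 1) (hN : Algebra.trdeg k N = (∑ i, a i : ℕ))
    (F' : Fin s → IntermediateField k N) (hsup' : ⨆ i, F' i = ⊤)
    (hF1 : ∀ i ∈ S, ∀ z ∈ F' i, algebraMap N M z ∈ F i)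
    (hF2 : ∀ i ∈ S, ∀ z ∈ F i, ∃ z' ∈ F' i, algebraMap N M z' = z)
    (he : ∀ i ∈ S, Nonempty (F i ≃ₐ[k] F' i))
    (hF'N : ∀ i, i ∉ S → ∀ z : F' i, ∃ r : k, algebraMap k (F' i) r = z)
    (B : Finset (Fin s))
    (hB : ∀ i ∈ B, 2 * Module.finrank L (IntermediateField.adjoin L (F i : Set M)) ≤ m i)
    (hQ : ∀ Q : Finset (Fin s), Disjoint Q B →
      Module.finrank (IntermediateField.adjoin L {z : M | ∃ j, j ∉ Q ∧ z ∈ F j}) M = 1 ∨
      2 * Module.finrank (IntermediateField.adjoin L {z : M | ∃ j, j ∉ Q ∧ z ∈ F j}) M ≤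
        1 + ∑ j ∈ Q, (m j - 1)) :
    ImageGe k K (∑ i, a i) (fun _ => False) 1 (∑ i, a i) := by
  classical
  have hessN : ∀ i, Algebra.EssFiniteType k (F' i) := by
    intro i
    by_cases h : i ∈ S
    · obtain ⟨e⟩ := he i h
      exact (Algebra.EssFiniteType.iff_of_algEquiv e).1 (hess i)
    · have h1 : Function.Surjective (Algebra.ofId k (F' i)) := hF'N i h
      exact Algebra.EssFiniteType.of_surjective (Algebra.ofId k (F' i)) h1
  have hd' : ∀ i, Algebra.trdeg k (F' i) = a i := by
    intro i
    by_cases h : i ∈ S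
    · obtain ⟨e⟩ := he i h
      rw [haS i h, ← hd i]
      exact e.symm.trdeg_eq
    · rw [haS' i h]
      have h1 : Algebra.IsAlgebraic k (F' i) := ⟨fun z => by
        obtain ⟨r, rfl⟩ := hF'N i h z
        exact isAlgebraic_algebraMap r⟩
      rw [Nat.cast_zero, trdeg_eq_zero_iff]
      exact h1
  have hV' : ∀ i, CanSepJ k (F' i) (a i) (m i) := by
    intro i
    by_cases h : i ∈ S
    · obtain ⟨e⟩ := he i h
      rw [haS i h]
      exact canSepJ_equiv e (hV i)
    · rw [haS' i h]
      exact canSepJ_bot _ (hF'N i h)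
  have ha' : ∀ i, ImageGe k (F' i) (a i) (fun _ => False) 1 (a i) := by
    intro i
    by_cases h : i ∈ S
    · obtain ⟨e⟩ := he i h
      have h1 := ha i
      rw [haS i h] at h1 ⊢
      exact imageGe_equiv e h1
    · rw [haS' i h]
      exact imageGe_bot
  have hBS : ∀ i ∈ B, i ∈ S := by
    intro i hi
    by_contra h
    have h1 := hB i hi
    rw [hmS i h] at h1
    have h2 : 0 < Module.finrank L (IntermediateField.adjoin L (F i : Set M)) :=
      Module.finrank_pos
    omega
  refine imageV (L := K) (M := N) (d := a) F' hN (alg_of_sup' F' hsup') hd' hm1 hV' ha'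
    B (fun i hi => ?_) (fun Q hQB => ?_)
  · have h1 := coord_le hK (F i) (F' i) (hF1 i (hBS i hi))
    have h2 := hB i hi
    omega
  · let Q' : Finset (Fin s) := Finset.univ.filter fun j => j ∈ Q ∨ j ∉ S
    have hQ'B : Disjoint Q' B := by
      rw [Finset.disjoint_left]
      intro j hj hjB
      rcases (Finset.mem_filter.1 hj).2 with h | h
      · exact Finset.disjoint_left.1 hQB h hjB
      · exact h (hBS j hjB)
    have hQ'n : ∀ j, j ∉ Q' → j ∉ Q ∧ j ∈ S := by
      intro j hj
      constructor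
      · intro h
        exact hj (Finset.mem_filter.2 ⟨Finset.mem_univ _, Or.inl h⟩)
      · by_contra h
        exact hj (Finset.mem_filter.2 ⟨Finset.mem_univ _, Or.inr h⟩)
    have hsum : ∑ j ∈ Q', (m j - 1) ≤ ∑ j ∈ Q, (m j - 1) := by
      have h1 : ∑ j ∈ Q', (m j - 1) = ∑ j ∈ Q' ∩ Q, (m j - 1) := by
        symm
        refine Finset.sum_subset Finset.inter_subset_left fun j hj hj2 => ?_
        rcases (Finset.mem_filter.1 hj).2 with h | h
        · exact absurd (Finset.mem_inter.2 ⟨hj, h⟩) hj2
        · simp [hmS j h]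
      rw [h1]
      exact Finset.sum_le_sum_of_subset Finset.inter_subset_right
    have h5 := agree_le hK {z : N | ∃ j, j ∉ Q ∧ z ∈ F' j} {z : M | ∃ j, j ∉ Q' ∧ z ∈ F j} (by
      rintro z ⟨j, hj, hz⟩
      obtain ⟨h5, h6⟩ := hQ'n j hj
      obtain ⟨z', hz', rfl⟩ := hF2 j h6 z hz
      exact ⟨z', ⟨j, h5, hz'⟩, rfl⟩)
    have h6 : 0 < Module.finrank
        (IntermediateField.adjoin K {z : N | ∃ j, j ∉ Q ∧ z ∈ F' j}) N := Module.finrank_pos
    rcases hQ Q' hQ'B with h7 | h7
    · left
      omega
    · right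
      omega

end

section

variable {k L M : Type} [Field k] [CharZero k] [IsAlgClosed k] [Field L] [Field M]
  [Algebra k L] [Algebra k M] [Algebra L M] [IsScalarTower k L M] [FiniteDimensional L M]
  [Algebra.EssFiniteType k L] {s : ℕ} {d : Fin s → ℕ} (F : Fin s → IntermediateField k M)
  [hess : ∀ i, Algebra.EssFiniteType k (F i)]

/-- the functions on `X` which are functions on the partial product -/
def iit (L : Type) [Field L] [Algebra k L] [Algebra L M] [IsScalarTower k L M]
    (S : Finset (Fin s)) : IntermediateField k L :=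
  (part F S).comap (IsScalarTower.toAlgHom k L M)

theorem mem_iit {S : Finset (Fin s)} {x : L} : x ∈ iit F L S ↔ algebraMap L M x ∈ part F S :=
  Iff.rfl

/-- the functions on the base as functions on the partial product -/
noncomputable def iitHom (L : Type) [Field L] [Algebra k L] [Algebra L M] [IsScalarTower k L M]
    (S : Finset (Fin s)) : (iit F L S) →ₐ[k] part F S where
  toFun x := ⟨algebraMap L M (x : L), x.2⟩
  map_one' := Subtype.ext (map_one _)
  map_mul' x y := Subtype.ext (map_mul (algebraMap L M) (x : L) (y : L))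
  map_zero' := Subtype.ext (map_zero _)
  map_add' x y := Subtype.ext (map_add (algebraMap L M) (x : L) (y : L))
  commutes' r := Subtype.ext (by
    change algebraMap L M (algebraMap k L r) = algebraMap k M r
    rw [← IsScalarTower.algebraMap_apply])

/-- **The base of the Iitaka fibration.** -/
theorem coreV (hnM : Algebra.trdeg k M = (∑ i, d i : ℕ)) (hsup : ⨆ i, F i = ⊤)
    (hd : ∀ i, Algebra.trdeg k (F i) = d i)
    {m : Fin s → ℕ} (hm1 : ∀ i, 1 ≤ m i) (hV : ∀ i, CanSepJ k (F i) (d i) (m i))
    {a : Fin s → ℕ} (ha : ∀ i, ImageGe k (F i) (d i) (fun _ => False) 1 (a i))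
    (S : Finset (Fin s)) (haS : ∀ i ∈ S, a i = d i) (haS' : ∀ i, i ∉ S → a i = 0)
    (hmS : ∀ i, i ∉ S → m i = 1)
    (hnum : NumLe k M (∑ i, d i) (fun _ => False) (∑ i, a i))
    (B : Finset (Fin s))
    (hB : ∀ i ∈ B, 2 * Module.finrank L (IntermediateField.adjoin L (F i : Set M)) ≤ m i)
    (hQ : ∀ Q : Finset (Fin s), Disjoint Q B →
      Module.finrank (IntermediateField.adjoin L {z : M | ∃ j, j ∉ Q ∧ z ∈ F j}) M = 1 ∨
      2 * Module.finrank (IntermediateField.adjoin L {z : M | ∃ j, j ∉ Q ∧ z ∈ F j}) M ≤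
        1 + ∑ j ∈ Q, (m j - 1)) :
    (∀ x : L, IsAlgebraic (iit F L S) x → x ∈ iit F L S) ∧
    Algebra.EssFiniteType k (iit F L S) ∧ Algebra.trdeg k (iit F L S) = (∑ i, a i : ℕ) ∧
    ImageGe k (iit F L S) (∑ i, a i) (fun _ => False) 1 (∑ i, a i) := by
  classical
  have hessM : Algebra.EssFiniteType k M := ess_up k L M
  have hsa : ∑ i, a i = ∑ j ∈ S, d j := by
    rw [← Finset.sum_subset (Finset.subset_univ S) (fun i _ hi => haS' i hi)]
    exact Finset.sum_congr rfl fun i hi => haS i hi
  have htMS : Algebra.trdeg k (part F S) = (∑ i, a i : ℕ) := by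
    rw [hsa]
    exact part_trdeg F hd hnM hsup S
  have hessMS : Algebra.EssFiniteType k (part F S) := part_ess F S
  -- the algebra structures
  let iKS : Algebra (iit F L S) (part F S) := (iitHom F L S).toRingHom.toAlgebra
  have tKS : IsScalarTower k (iit F L S) (part F S) :=
    IsScalarTower.of_algebraMap_eq fun c => ((iitHom F L S).commutes c).symm
  have tKSM : IsScalarTower (iit F L S) (part F S) M := IsScalarTower.of_algebraMap_eq fun c => rfl
  have tkSM : IsScalarTower k (part F S) M := inferInstance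
  -- algebraically closed
  have hclosed : ∀ x : L, IsAlgebraic (iit F L S) x → x ∈ iit F L S := by
    intro x hx
    rw [mem_iit]
    refine part_closed F hd hnM hsup S ?_
    exact (hx.algebraMap (A := M)).ringHom_of_comp_eq (iitHom F L S).toRingHom (RingHom.id M)
      (iitHom F L S).injective (by ext z; rfl)
  have hK : ∀ x : L, IsAlgebraic (iit F L S) x → x ∈ (algebraMap (iit F L S) L).range :=
    fun x hx => ⟨⟨x, hclosed x hx⟩, rfl⟩
  -- the transcendence degree
  have htK : Algebra.trdeg k (iit F L S) = (∑ i, a i : ℕ) := by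
    refine le_antisymm ?_ ?_
    · rw [← htMS]
      exact trdeg_le_of_injective (iitHom F L S) (iitHom F L S).injective
    · obtain ⟨ω, h1, G, h2, h3⟩ := imageV (L := L) F hnM (alg_of_sup' F hsup) hd hm1 hV ha B hB hQ
      have h4 : ∀ l : Fin (∑ i, a i), ω l.succ G / ω 0 G ∈ iit F L S := fun l =>
        ratio_mem F hnM hsup hd ha S haS' hnum (h1 0) (h1 l.succ) (h2 0)
      have h5 : AlgebraicIndependent k fun l : Fin (∑ i, a i) =>
          (⟨ω l.succ G / ω 0 G, h4 l⟩ : iit F L S) :=
        ((iit F L S).val.algebraicIndependent_iff (iit F L S).val.injective).1 h3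
      have h6 := h5.lift_cardinalMk_le_trdeg
      simpa using h6
  have halgKS : Algebra.IsAlgebraic (iit F L S) (part F S) := by
    have h1 := trdeg_add_eq k (iit F L S) (A := part F S)
    rw [htK, htMS] at h1
    have h2 : Algebra.trdeg (iit F L S) (part F S) = 0 := by
      obtain ⟨c, hc⟩ : ∃ c : ℕ, Algebra.trdeg (iit F L S) (part F S) = c := by
        refine Cardinal.lt_aleph0.1 (lt_of_le_of_lt ?_
          (Cardinal.natCast_lt_aleph0 (n := ∑ i, a i)))
        rw [← h1]
        exact le_add_self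
      rw [hc] at h1 ⊢
      have h3 : ∑ i, a i + c = ∑ i, a i := by exact_mod_cast h1
      have h4 : c = 0 := by omega
      rw [h4, Nat.cast_zero]
    rwa [trdeg_eq_zero_iff] at h2
  have hessKS : Algebra.EssFiniteType (iit F L S) (part F S) :=
    Algebra.EssFiniteType.of_comp k (iit F L S) (part F S)
  have hfinKS : FiniteDimensional (iit F L S) (part F S) := fin_of_alg
  have hessK : Algebra.EssFiniteType k (iit F L S) := ess_below (K := part F S)
  have hcK : CharZero (iit F L S) :=
    charZero_of_injective_algebraMap (algebraMap k (iit F L S)).injective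
  refine ⟨hclosed, hessK, htK, ?_⟩
  -- the factors of the partial product
  let F' : Fin s → IntermediateField k (part F S) := fun i =>
    if h : i ∈ S then restrict (le_part F h) else ⊥
  have hF'S : ∀ i (h : i ∈ S), F' i = restrict (le_part F h) := fun i h => dif_pos h
  have hF'N : ∀ i, i ∉ S → F' i = ⊥ := fun i h => dif_neg h
  have hsup' : ⨆ i, F' i = ⊤ := by
    apply lift_injective (part F S)
    rw [lift_top, lift, IntermediateField.map_iSup]
    refine le_antisymm (iSup_le fun i => ?_) (iSup_le fun j => ?_)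
    · exact lift_le (F' i)
    · refine le_trans (le_of_eq ?_) (le_iSup (fun i => (F' i).map (part F S).val) j)
      rw [hF'S j j.2]
      exact (lift_restrict (le_part F j.2)).symm
  refine coreAbs (K := iit F L S) (N := part F S) F hK hd hm1 hV ha S haS haS' hmS htMS F' hsup'
    (fun i hi z hz => ?_) (fun i hi z hz => ?_) (fun i hi => ?_) (fun i hi z => ?_) B hB hQ
  · rw [hF'S i hi, mem_restrict] at hz
    exact hz
  · refine ⟨⟨z, le_part F hi hz⟩, ?_, rfl⟩
    rw [hF'S i hi, mem_restrict]
    exact hz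
  · rw [hF'S i hi]
    exact ⟨restrictAlgEquiv (le_part F hi)⟩
  · obtain ⟨r, hr⟩ := IntermediateField.mem_bot.1 ((hF'N i hi).le z.2)
    exact ⟨r, Subtype.ext hr⟩

end

end Q36.GV
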