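import Pool.Agent.Q36.GV.Cv

/-!
The Iitaka fibration of a variety dominated by a product of a variety and curves.
-/

set_option autoImplicit false
set_option linter.overlappingInstances false
set_option linter.unusedSectionVars false

open Polynomial FF IsDedekindDomain IntermediateField
open Pool.Agent.W603.LV Pool.Agent.W619.PQ Pool.Agent.W619.PL
  Pool.Agent.W619.TW Pool.Agent.W619.X Pool.Agent.W619.Y Q36.PT Q36.SD Q36.HB Q36.HL

namespace Q36.GV

section

variable {k L M : Type} [Field k] [CharZero k] [IsAlgClosed k] [Field L] [Field M]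
  [Algebra k L] [Algebra k M] [Algebra L M] [IsScalarTower k L M] [FiniteDimensional L M]
  [Algebra.EssFiniteType k L]
  {d n : ℕ} (F : Fin (n + 1) → IntermediateField k M) [hess0 : Algebra.EssFiniteType k (F 0)]
  [hF : ∀ i : Fin n, IsFF k (F i.succ)]

/-- **The Iitaka fibration.** -/
theorem coreYC (hY : Algebra.trdeg k (F 0) = d) (hnM : Algebra.trdeg k M = (d + n : ℕ))
    (hsup : ⨆ i, F i = ⊤) {c : Fin (n + 1) → ℕ} {e0 : ℕ}
    (ha : ImageGe k (F 0) d (fun _ => False) 1 e0) (hnum : NumLe k (F 0) d (fun _ => False) e0)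
    (he0 : (e0 = d ∧ (c 0 = 0 ∨ CanSepJ k (F 0) d (c 0 + 1))) ∨ (e0 = 0 ∧ c 0 = 0))
    (hγ : ∀ i : Fin n, ∀ b : F i.succ, Transcendental k b →
      c i.succ + 2 ≤ Module.finrank k⟮b⟯ (F i.succ))
    (hell : ∀ i : Fin n, IsElliptic (F i.succ) → c i.succ = 0)
    (B : Finset (Fin (n + 1)))
    (hB : ∀ i ∈ B, 2 * Module.finrank L (IntermediateField.adjoin L (F i : Set M)) ≤ c i + 1)
    (hQ : ∀ Q : Finset (Fin (n + 1)), Disjoint Q B →
      Module.finrank (IntermediateField.adjoin L {z : M | ∃ j, j ∉ Q ∧ z ∈ F j}) M = 1 ∨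
      2 * Module.finrank (IntermediateField.adjoin L {z : M | ∃ j, j ∉ Q ∧ z ∈ F j}) M ≤
        1 + ∑ j ∈ Q, c j) :
    ∃ K : IntermediateField k L, (∀ x : L, IsAlgebraic K x → x ∈ K) ∧
      Algebra.EssFiniteType k K ∧ Algebra.trdeg k K = (e0 + {i : Fin n | ¬ IsElliptic (F i.succ)}.ncard : ℕ) ∧
      ImageGe k K (e0 + {i : Fin n | ¬ IsElliptic (F i.succ)}.ncard) (fun _ => False) 1
        (e0 + {i : Fin n | ¬ IsElliptic (F i.succ)}.ncard) ∧
      ∀ (q : ℕ) (ω ω' : (Fin (d + n) → Derivation k L L) → L),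
        IsSec k L (d + n) (fun _ => False) {1} q 0 ω →
        IsSec k L (d + n) (fun _ => False) {1} q 0 ω' → ∀ G, ω G ≠ 0 → ω' G / ω G ∈ K := by
  classical
  have hess : ∀ i, Algebra.EssFiniteType k (F i) := ess_all F
  have hpos : PlurigenusPos k (F 0) d 1 := by
    obtain ⟨ω, h1, D, h2, -⟩ := ha
    exact ⟨ω 0, (reg_of_sec (h1 0)).1, (reg_of_sec (h1 0)).2, D, h2 0⟩
  have h2γ : ∀ i : Fin n, ∀ b : F i.succ, Transcendental k b →
      2 ≤ Module.finrank k⟮b⟯ (F i.succ) := fun i b hb => le_trans (by omega) (hγ i b hb)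
  have hirr : ∀ i : Fin n, ¬ ∃ t : F i.succ, k⟮t⟯ = ⊤ := fun i => irr_of_gon (h2γ i)
  let dd : Fin (n + 1) → ℕ := Fin.cons d (fun _ => 1)
  let a : Fin (n + 1) → ℕ := Fin.cons e0 (fun i : Fin n => if IsElliptic (F i.succ) then 0 else 1)
  have hdd : ∑ i, dd i = d + n := sum_dims
  have hsa : ∑ i, a i = e0 + {i : Fin n | ¬ IsElliptic (F i.succ)}.ncard := by
    rw [Fin.sum_univ_succ]
    simp only [a, Fin.cons_zero, Fin.cons_succ]
    congr 1
    have h1 : {i : Fin n | ¬ IsElliptic (F i.succ)}.ncard =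
        (Finset.univ.filter fun i : Fin n => ¬ IsElliptic (F i.succ)).card := by
      rw [← Set.ncard_coe_finset]
      congr 1
      ext i
      simp
    rw [h1, Finset.card_filter]
    refine Finset.sum_congr rfl fun i _ => ?_
    by_cases h2 : IsElliptic (F i.succ)
    · rw [if_pos h2, if_neg (not_not.2 h2)]
    · rw [if_neg h2, if_pos h2]
  have hnumM : NumLe k M (d + n) (fun _ => False)
      (e0 + {i : Fin n | ¬ IsElliptic (F i.succ)}.ncard) := numYC (L := M) F hY hnM hsup hirr hnum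
  let S : Finset (Fin (n + 1)) := Finset.univ.filter fun i => a i = dd i
  have haI : ∀ i, ImageGe k (F i) (dd i) (fun _ => False) 1 (a i) := by
    intro i
    refine Fin.cases ?_ (fun i => ?_) i
    · exact ha
    · change ImageGe k (F i.succ) 1 (fun _ => False) 1 (if IsElliptic (F i.succ) then 0 else 1)
      have h2 := image_curve (F := F i.succ)
        (by rw [IsFF.trdeg (k := k) (K := F i.succ)]; simp) (h2γ i)
      by_cases h3 : IsElliptic (F i.succ)
      · rw [if_pos h3]
        rw [if_neg (by rw [canDeg_elliptic h3]; simp)] at h2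
        exact h2
      · rw [if_neg h3]
        rw [if_pos (canDeg_pos (hirr i) h3)] at h2
        exact h2
  have haS' : ∀ i, i ∉ S → a i = 0 := by
    intro i hi
    have h2 : a i ≠ dd i := fun h => hi (Finset.mem_filter.2 ⟨Finset.mem_univ _, h⟩)
    revert h2
    refine Fin.cases (fun h2 => ?_) (fun i h2 => ?_) i
    · rcases he0 with ⟨h3, -⟩ | ⟨h3, -⟩
      · exact absurd h3 h2
      · exact h3
    · change (if IsElliptic (F i.succ) then 0 else 1) ≠ 1 at h2
      change (if IsElliptic (F i.succ) then 0 else 1) = 0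
      by_cases h3 : IsElliptic (F i.succ)
      · rw [if_pos h3]
      · rw [if_neg h3] at h2
        exact absurd rfl h2
  have hV : ∀ i, CanSepJ k (F i) (dd i) (c i + 1) := by
    intro i
    refine Fin.cases ?_ (fun i => ?_) i
    · change CanSepJ k (F 0) d (c 0 + 1)
      rcases he0 with ⟨-, h | h⟩ | ⟨-, h⟩
      · rw [h]
        exact sep_one hpos
      · exact h
      · rw [h]
        exact sep_one hpos
    · change CanSepJ k (F i.succ) 1 (c i.succ + 1)
      refine sep_curve fun b hb => ?_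
      have := hγ i b hb
      omega
  have h1 := coreV (L := L) (d := dd) F (by rw [hdd]; exact hnM) hsup (trd_all F hY)
    (m := fun i => c i + 1) (fun i => Nat.le_add_left 1 _) hV (a := a) haI S
    (fun i hi => (Finset.mem_filter.1 hi).2) haS' (fun i hi => by
      have h2 : a i ≠ dd i := fun h => hi (Finset.mem_filter.2 ⟨Finset.mem_univ _, h⟩)
      revert h2
      refine Fin.cases (fun h2 => ?_) (fun i h2 => ?_) i
      · rcases he0 with ⟨h3, -⟩ | ⟨-, h3⟩
        · exact absurd h3 h2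
        · rw [h3]
      · change (if IsElliptic (F i.succ) then 0 else 1) ≠ 1 at h2
        by_cases h3 : IsElliptic (F i.succ)
        · rw [hell i h3]
        · rw [if_neg h3] at h2
          exact absurd rfl h2) (by rw [hdd, hsa]; exact hnumM)
    B hB (fun Q hQB => by
      have h3 : ∑ j ∈ Q, (c j + 1 - 1) = ∑ j ∈ Q, c j :=
        Finset.sum_congr rfl fun j _ => Nat.add_sub_cancel _ _
      rw [h3]
      exact hQ Q hQB)
  rw [hsa] at h1
  refine ⟨iit F L S, h1.1, h1.2.1, h1.2.2.1, h1.2.2.2, ?_⟩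
  have h2 : ∀ N : ℕ, N = ∑ i, dd i → NumLe k M N (fun _ => False) (∑ i, a i) →
      ∀ (q : ℕ) (ω ω' : (Fin N → Derivation k L L) → L),
        IsSec k L N (fun _ => False) {1} q 0 ω →
        IsSec k L N (fun _ => False) {1} q 0 ω' → ∀ G, ω G ≠ 0 → ω' G / ω G ∈ iit F L S := by
    intro N hN hnum' q ω ω' hω hω' G hG
    subst hN
    exact ratio_mem F (by rw [hdd]; exact hnM) hsup (trd_all F hY) haI S haS' hnum' hω hω' hG
  exact h2 (d + n) hdd.symm (by rw [hsa]; exact hnumM)

end

end Q36.GV
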