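import Pool.Agent.Q36.GV.Cz

/-!
Varieties which are covered by curves of genus at most one are not of general type.
-/

set_option autoImplicit false
set_option linter.overlappingInstances false
set_option linter.unusedSectionVars false

open Polynomial FF IsDedekindDomain IntermediateField
open Pool.Agent.W603.LV Pool.Agent.W619.PQ Pool.Agent.W619.PL
  Pool.Agent.W619.TW Pool.Agent.W619.X Pool.Agent.W619.Y Q36.PT Q36.SD Q36.HB Q36.HL

namespace Q36.GV

section

variable {k L N : Type} [Field k] [CharZero k] [IsAlgClosed k] [Field L] [Field N]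
  [Algebra k L] [Algebra k N] [Algebra L N] [IsScalarTower k L N] [FiniteDimensional L N]

/-- **No pluricanonical map of a variety dominated by a product with a curve of genus at most one is
generically finite.** -/
theorem no_big_of_cover [Algebra.EssFiniteType k L] (V E : IntermediateField k N) [IsFF k E]
    (hE : canDeg k E ≤ 0) {p : ℕ} (hV : Algebra.trdeg k V = p)
    (hN : Algebra.trdeg k N = (p + 1 : ℕ)) (hsup : V ⊔ E = ⊤) {m : ℕ}
    (h : ImageGe k L (p + 1) (fun _ => False) m (p + 1)) : False := by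
  classical
  have hn : Algebra.trdeg k L = (p + 1 : ℕ) := trdeg_below (K := N) hN
  obtain ⟨ω, h1, G, h2, h3⟩ := h
  obtain ⟨y, EL, hy, hEL⟩ := Pool.Agent.Y172.exists_crd (k := k) (K := L) hn
  obtain ⟨A0, S', yV, x, EN, b0, hyV, hx, hEN, hb0, hbase⟩ :=
    Pool.Agent.W740.PG.ONEB.base pFIBJB
      (Pool.Agent.W589.PG.DESCJB.main Pool.Agent.W881.PG.GAUSSB.main) k N V E p
      (fun _ => False) (fun _ => False) hV hN hsup (by simp) {1}
  obtain ⟨r, β, hβ, hr, hrep⟩ := hbase m 0
  have hr1 : r ≤ 1 := by
    have h4 : (m : ℤ) * (canDeg k E + ({p : Place k E | False}.ncard : ℤ)) +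
        ((0 : ℕ) : ℤ) * (A0 : ℤ) + 1 ≤ 1 := by
      have h5 : {p : Place k E | False}.ncard = 0 := by simp
      rw [h5]
      have h6 : (m : ℤ) * canDeg k E ≤ 0 :=
        mul_nonpos_of_nonneg_of_nonpos (by positivity) hE
      push_cast
      linarith
    have h5 : (r : ℤ) ≤ 1 := hr.trans (max_le zero_le_one h4)
    exact_mod_cast h5
  -- the pull back
  have hBd2 : BdTwo V E (fun _ => False) (fun _ => False) = fun _ => False := by
    funext w
    simp [BdTwo]
  have hpull : ∀ l, IsSec k N (p + 1) (fun _ => False) {1} m 0 (fun D =>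
        (Matrix.of fun a b => D a (algebraMap L N (y b))).det ^ m * algebraMap L N (ω l EL)) := by
    intro l
    have h4 := pPULL k L N (p + 1) hn (fun y hy => fin_over y hy) (fun _ => False) {1} m 0 y EL
      hy hEL (ω l) (h1 l)
    have hbd : BdUp (k := k) (K := L) (L := N) (fun _ => False) = fun _ => False := by
      funext w
      simp [BdUp]
    rw [hbd, Finset.image_singleton, map_one] at h4
    exact h4
  have hco : ∀ l, ω l G = (Matrix.of fun a b => G a (y b)).det ^ m * ω l EL := fun l =>
    Pool.Agent.Y172.pluri_coord hy hEL (h1 l).1 G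
  have hω0 : ∀ l, ω l EL ≠ 0 := fun l h => h2 l (by rw [hco, h, mul_zero])
  have hdet : (Matrix.of fun a b => G a (y b)).det ^ m ≠ 0 := fun h =>
    h2 0 (by rw [hco, h, zero_mul])
  have hyN : IsTranscendenceBasis k fun b => algebraMap L N (y b) := hy.algebraMap_comp
  have hJ : (Matrix.of fun a b => EN a (algebraMap L N (y b))).det ≠ 0 :=
    jac_ne (y := x) hyN fun a b => by
      rw [hEN b a]
      by_cases hab : a = b
      · rw [if_pos hab, if_pos hab.symm]
      · rw [if_neg hab, if_neg fun h => hab h.symm]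
  choose μ hμ hμs using fun l => hrep _ (hBd2.symm ▸ hpull l)
  have hne : ∀ l, (Matrix.of fun a b => EN a (algebraMap L N (y b))).det ^ m *
      algebraMap L N (ω l EL) ≠ 0 := fun l =>
    mul_ne_zero (pow_ne_zero _ hJ) fun h => hω0 l ((map_eq_zero _).1 h)
  have hμ' : ∀ l, (Matrix.of fun a b => EN a (algebraMap L N (y b))).det ^ m *
      algebraMap L N (ω l EL) = ∑ i, (β i : N) * (μ l i : N) := fun l => by
    have h4 := hμ l
    rw [pow_zero, one_mul] at h4
    exact h4
  have hrat : ∀ l, algebraMap L N (ω l EL / ω 0 EL) ∈ V := by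
    intro l
    have h0 := hμ' 0
    have hl := hμ' l
    have hr0 : r ≠ 0 := by
      rintro rfl
      rw [Finset.univ_eq_empty, Finset.sum_empty] at h0
      exact hne 0 h0
    have hr2 : r = 1 := by omega
    subst hr2
    rw [Fin.sum_univ_one] at h0 hl
    have h5 : algebraMap L N (ω l EL / ω 0 EL) =
        ((Matrix.of fun a b => EN a (algebraMap L N (y b))).det ^ m * algebraMap L N (ω l EL)) /
        ((Matrix.of fun a b => EN a (algebraMap L N (y b))).det ^ m * algebraMap L N (ω 0 EL)) := by
      rw [mul_div_mul_left _ _ (pow_ne_zero _ hJ), map_div₀]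
    have h6 : ((β 0 : E) : N) ≠ 0 := by
      intro h7
      rw [h7, zero_mul] at h0
      exact hne 0 h0
    rw [h5, h0, hl, mul_div_mul_left _ _ h6]
    exact V.div_mem (μ l 0).2 (μ 0 0).2
  -- the count
  have h4 : (fun l : Fin (p + 1) => ω l.succ G / ω 0 G) =
      fun l : Fin (p + 1) => ω l.succ EL / ω 0 EL := by
    funext l
    rw [hco l.succ, hco 0, mul_div_mul_left _ _ hdet]
  rw [h4] at h3
  have h5 : AlgebraicIndependent k fun l : Fin (p + 1) =>
      algebraMap L N (ω l.succ EL / ω 0 EL) :=
    h3.map' (f := IsScalarTower.toAlgHom k L N) (algebraMap L N).injective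
  have h6 : AlgebraicIndependent k fun l : Fin (p + 1) =>
      (⟨algebraMap L N (ω l.succ EL / ω 0 EL), hrat l.succ⟩ : V) :=
    (V.val.algebraicIndependent_iff V.val.injective).1 h5
  have h7 := h6.lift_cardinalMk_le_trdeg
  rw [hV] at h7
  rw [Cardinal.mk_fin, Cardinal.lift_natCast, Cardinal.lift_natCast] at h7
  have h9 : p + 1 ≤ p := by exact_mod_cast h7
  omega

end

/-- The projective manifolds of dimension `n` with function field `L` are covered by a birationally
trivial family of curves of genus at most one: there is a dominant rational map of finite degree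
`V × E ⇢ X`, `E` an elliptic or rational curve. -/
def CovSmall (k L : Type) [Field k] [Field L] [Algebra k L] (n : ℕ) : Prop :=
  ∃ (N : Type) (_ : Field N) (_ : Algebra k N) (_ : Algebra L N) (_ : IsScalarTower k L N)
    (_ : FiniteDimensional L N) (V E : IntermediateField k N) (p : ℕ), n = p + 1 ∧
    Algebra.trdeg k N = (n : ℕ) ∧ Algebra.trdeg k V = p ∧ IsFF k E ∧
    (IsElliptic E ∨ ∃ t : E, k⟮t⟯ = ⊤) ∧ V ⊔ E = ⊤

section

variable {k L M : Type} [Field k] [CharZero k] [IsAlgClosed k] [Field L] [Field M]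
  [Algebra k L] [Algebra k M] [Algebra L M] [IsScalarTower k L M] [FiniteDimensional L M]
  [Algebra.EssFiniteType k L]
  {d n : ℕ} (F : Fin (n + 1) → IntermediateField k M) [hess0 : Algebra.EssFiniteType k (F 0)]
  [hF : ∀ i : Fin n, IsFF k (F i.succ)]

theorem not_big_of_cov {N m : ℕ} (hcov : CovSmall k L N)
    (h : ImageGe k L N (fun _ => False) m N) : False := by
  obtain ⟨K, _, _, _, _, _, V, E, p, rfl, hK, hV, hE, hE2, hsup⟩ := hcov
  refine no_big_of_cover V E ?_ hV hK hsup h
  rcases hE2 with h1 | ⟨t, ht⟩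
  · exact (canDeg_elliptic h1).le
  · rw [canDeg_rational ht]
    norm_num

/-- **Varieties dominated by products of a variety of general type and curves.** -/
theorem hyp_tfae (hY : Algebra.trdeg k (F 0) = d) (hnM : Algebra.trdeg k M = (d + n : ℕ))
    (hsup : ⨆ i, F i = ⊤) {c : Fin (n + 1) → ℕ}
    (ha : ImageGe k (F 0) d (fun _ => False) 1 d)
    (hc : c 0 = 0 ∨ CanSepJ k (F 0) d (c 0 + 1))
    (hγ : ∀ i : Fin n, ∀ b : F i.succ, Transcendental k b →
      c i.succ + 2 ≤ Module.finrank k⟮b⟯ (F i.succ))
    (B : Finset (Fin (n + 1)))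
    (hB : ∀ i ∈ B, 2 * Module.finrank L (IntermediateField.adjoin L (F i : Set M)) ≤ c i + 1)
    (hQ : ∀ Q : Finset (Fin (n + 1)), Disjoint Q B →
      Module.finrank (IntermediateField.adjoin L {z : M | ∃ j, j ∉ Q ∧ z ∈ F j}) M = 1 ∨
      2 * Module.finrank (IntermediateField.adjoin L {z : M | ∃ j, j ∉ Q ∧ z ∈ F j}) M ≤
        1 + ∑ j ∈ Q, c j) :
    List.TFAE [ImageGe k L (d + n) (fun _ => False) 1 (d + n),
      ∃ m, ImageGe k L (d + n) (fun _ => False) m (d + n),
      ∀ i : Fin n, ¬ IsElliptic (F i.succ),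
      ¬ CovSmall k L (d + n)] := by
  classical
  have hess : ∀ i, Algebra.EssFiniteType k (F i) := ess_all F
  tfae_have 1 → 2 := fun h => ⟨1, h⟩
  tfae_have 2 → 4 := fun ⟨m, h⟩ hcov => not_big_of_cov hcov h
  tfae_have 3 → 1 := by
    intro h
    have h1 := imageYC (L := L) F hY hnM (alg_of_sup' F hsup) hc ha hγ B hB hQ
    have h2 : {i : Fin n | ¬ IsElliptic (F i.succ)}.ncard = n := by
      have h3 : {i : Fin n | ¬ IsElliptic (F i.succ)} = Set.univ := by
        ext i
        simp [h i]
      rw [h3, Set.ncard_univ, Nat.card_fin]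
    rw [h2] at h1
    exact h1
  tfae_have 4 → 3 := by
    intro h i hi
    apply h
    have hd := trd_all F hY
    have hsum := sum_dims (d := d) (n := n)
    have h1 := part_trdeg F hd (by rw [hsum]; exact hnM) hsup (Finset.univ.erase i.succ)
    have h2 : ∑ j ∈ Finset.univ.erase i.succ,
        (Fin.cons d (fun _ => 1) : Fin (n + 1) → ℕ) j + 1 = d + n := by
      have h3 := Finset.sum_erase_add Finset.univ (Fin.cons d (fun _ => 1) : Fin (n + 1) → ℕ)
        (Finset.mem_univ i.succ)
      rw [Fin.cons_succ, hsum] at h3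
      exact h3
    refine ⟨M, inferInstance, inferInstance, inferInstance, inferInstance, inferInstance,
      part F (Finset.univ.erase i.succ), F i.succ, _, h2.symm, hnM, h1, hF i, Or.inl hi, ?_⟩
    rw [eq_top_iff, ← hsup]
    refine iSup_le fun j => ?_
    by_cases hj : j = i.succ
    · rw [hj]
      exact le_sup_right
    · exact (le_part F (Finset.mem_erase.2 ⟨hj, Finset.mem_univ _⟩)).trans le_sup_left
  tfae_finish

end

end Q36.GV
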