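import Pool.Agent.Q36.GV.Co

/-!
Canonical forms of varieties dominated by products of varieties.
-/

set_option autoImplicit false
set_option linter.overlappingInstances false
set_option linter.unusedSectionVars false

open Polynomial FF IsDedekindDomain IntermediateField
open Pool.Agent.W602.GT Pool.Agent.W603.LV Pool.Agent.W619.PQ Pool.Agent.W619.TW
  Pool.Agent.W619.Y Q36.PT Q36.SD Q36.HB

namespace Q36.GV

section

variable {k L M : Type} [Field k] [CharZero k] [Field L] [Field M]
  [Algebra k L] [Algebra k M] [Algebra L M] [IsScalarTower k L M] [FiniteDimensional L M]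
  {s : ℕ} (F : Fin s → IntermediateField k M)

/-- **The relation given by a derivation.** -/
theorem relationV (J : M) (d : Derivation k L L) (d' : Derivation k M M)
    (hd : ∀ f, d' (algebraMap L M f) = algebraMap L M (d f)) (a : L) {f : ∀ i, F i}
    (hf : d (Algebra.trace L M (J * ∏ i, (f i : M))) =
      a * Algebra.trace L M (J * ∏ i, (f i : M)))
    {Ω : Type} [Field Ω] [IsAlgClosed Ω] [Algebra k Ω] [Algebra L Ω] [IsScalarTower k L Ω]
    [Algebra M Ω] [IsScalarTower L M Ω] (θ : ∀ i, (M →ₐ[L] Ω) → (F i →ₗ[k] Ω))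
    (hθ : ∀ i σ (z : F i), θ i σ z = σ (J * d' (z : M))) :
    ∑ σ : M →ₐ[L] Ω, (σ (d' J - algebraMap L M a * J) * ∏ j, resV F j σ (f j) +
      ∑ i, ∏ j, (if j = i then θ j σ (f j) else resV F j σ (f j))) = 0 := by
  classical
  have hchar : CharZero L := charZero_of_injective_algebraMap (algebraMap k L).injective
  have hsep : Algebra.IsSeparable L M := inferInstance
  have h1 : Algebra.trace L M (d' (J * ∏ i, (f i : M)) -
      algebraMap L M a * (J * ∏ i, (f i : M))) = 0 := by
    rw [map_sub, trace_der d d' hd, hf, ← Algebra.smul_def, map_smul, smul_eq_mul, sub_self]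
  have h2 : d' (J * ∏ i, (f i : M)) - algebraMap L M a * (J * ∏ i, (f i : M)) =
      (d' J - algebraMap L M a * J) * ∏ j, (f j : M) +
        ∑ i, J * ∏ j, (if j = i then d' (f j : M) else (f j : M)) := by
    rw [d'.leibniz, der_prod', smul_eq_mul, smul_eq_mul, Finset.mul_sum]
    ring
  rw [h2] at h1
  have h3 := trace_eq_sum_embeddings (K := L) (L := M)
    (x := (d' J - algebraMap L M a * J) * ∏ j, (f j : M) +
        ∑ i, J * ∏ j, (if j = i then d' (f j : M) else (f j : M))) Ω
  rw [h1, map_zero] at h3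
  rw [h3]
  refine Finset.sum_congr rfl fun σ _ => ?_
  rw [map_add, map_mul, map_prod, map_sum]
  congr 1
  refine Finset.sum_congr rfl fun i _ => ?_
  rw [← Finset.mul_prod_erase Finset.univ _ (Finset.mem_univ i), if_pos rfl, hθ]
  conv_rhs =>
    rw [← Finset.mul_prod_erase Finset.univ _ (Finset.mem_univ i), if_pos rfl, ← mul_assoc,
      map_mul, map_prod]
  congr 1
  refine Finset.prod_congr rfl fun j hj => ?_
  rw [if_neg (Finset.ne_of_mem_erase hj), if_neg (Finset.ne_of_mem_erase hj)]
  rfl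

end

section

variable {k L M : Type} [Field k] [CharZero k] [IsAlgClosed k] [Field L] [Field M]
  [Algebra k L] [Algebra k M] [Algebra L M] [IsScalarTower k L M] [FiniteDimensional L M]
  [Algebra.EssFiniteType k L] {s : ℕ} {d : Fin s → ℕ} (F : Fin s → IntermediateField k M)
  [∀ i, Algebra.EssFiniteType k (F i)]

/-- **The geometric genus is positive** under Hall's condition. -/
theorem genusV (hnM : Algebra.trdeg k M = (∑ i, d i : ℕ))
    (halg : Algebra.IsAlgebraic ↥(⨆ i, F i) M) (hd : ∀ i, Algebra.trdeg k (F i) = d i)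
    {m : Fin s → ℕ} (hm1 : ∀ i, 1 ≤ m i) (hV : ∀ i, CanSep k (F i) (d i) (m i))
    (B : Finset (Fin s))
    (hB : ∀ i ∈ B, Module.finrank L (IntermediateField.adjoin L (F i : Set M)) ≤ m i)
    (hQ : ∀ Q : Finset (Fin s), Disjoint Q B →
      Module.finrank (IntermediateField.adjoin L {z : M | ∃ j, j ∉ Q ∧ z ∈ F j}) M ≤
        1 + ∑ j ∈ Q, (m j - 1)) : PlurigenusPos k L (∑ i, d i) 1 := by
  classical
  have hessM : Algebra.EssFiniteType k M := ess_up k L M
  have hn : Algebra.trdeg k L = (∑ i, d i : ℕ) := trdeg_below (K := M) hnM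
  obtain ⟨y, E, hy, hE⟩ := Pool.Agent.Y172.exists_crd (k := k) (K := L) hn
  choose E' hE' using fun i => Pool.Agent.Y172.exists_lift (L := M) hn (E i)
  have hEd := Pool.Agent.Y172.lift_dual hE hE'
  choose t D ht hD using fun i => Pool.Agent.Y172.exists_crd (hd i)
  have hbt : IsTranscendenceBasis k (coords F t) := coords_basis F hnM halg t ht
  let J : M := (Matrix.of fun a b => E' a (coords F t b)).det
  have hJ : J ≠ 0 := jac_ne hbt hEd
  by_contra hneg
  refine hJ (elim_hall_oneV F hm1 (fun i => CanF k (d i) (D i))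
    (fun i => hV i (t i) (D i) (ht i) (hD i)) B hB hQ J fun f hf => ?_)
  obtain ⟨ω, h1, h2, h3⟩ := trace_pluri (K := L) hn (wdg F t f) (wdg_pluri F t f)
    (fun Q hQ => wdg_reg' F hd hnM ht hD hf Q hQ)
  by_contra hne
  refine hneg ⟨ω, h1, h2, E, ?_⟩
  rw [h3 E E' hE']
  unfold wdg
  rw [mul_comm]
  exact hne

/-- regular forms from sections -/
theorem reg_of_sec {K : Type} [Field K] [Algebra k K] {n m : ℕ}
    {ω : (Fin n → Derivation k K K) → K} (h : IsSec k K n (fun _ => False) {1} m 0 ω) :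
    IsPluriForm k K n m ω ∧ ∀ u : Place k K, IsDivisorial u n → RegularAt u n ω := by
  obtain ⟨h1, h2, -⟩ := h
  refine ⟨h1, fun v hv D hD => ?_⟩
  rcases h2 v hv id D hD with h3 | ⟨x, hx, -, h3⟩
  · exact Or.inl h3
  · right
    simpa using h3

/-- **The dimension of the canonical image.** -/
theorem imageV (hnM : Algebra.trdeg k M = (∑ i, d i : ℕ))
    (halg : Algebra.IsAlgebraic ↥(⨆ i, F i) M) (hd : ∀ i, Algebra.trdeg k (F i) = d i)
    {m : Fin s → ℕ} (hm1 : ∀ i, 1 ≤ m i) (hV : ∀ i, CanSepJ k (F i) (d i) (m i))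
    {a : Fin s → ℕ} (ha : ∀ i, ImageGe k (F i) (d i) (fun _ => False) 1 (a i))
    (B : Finset (Fin s))
    (hB : ∀ i ∈ B, 2 * Module.finrank L (IntermediateField.adjoin L (F i : Set M)) ≤ m i)
    (hQ : ∀ Q : Finset (Fin s), Disjoint Q B →
      Module.finrank (IntermediateField.adjoin L {z : M | ∃ j, j ∉ Q ∧ z ∈ F j}) M = 1 ∨
      2 * Module.finrank (IntermediateField.adjoin L {z : M | ∃ j, j ∉ Q ∧ z ∈ F j}) M ≤
        1 + ∑ j ∈ Q, (m j - 1)) :
    ImageGe k L (∑ i, d i) (fun _ => False) 1 (∑ i, a i) := by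
  classical
  have hessM : Algebra.EssFiniteType k M := ess_up k L M
  have hn : Algebra.trdeg k L = (∑ i, d i : ℕ) := trdeg_below (K := M) hnM
  obtain ⟨y, E, hy, hE⟩ := Pool.Agent.Y172.exists_crd (k := k) (K := L) hn
  choose E' hE' using fun i => Pool.Agent.Y172.exists_lift (L := M) hn (E i)
  have hEd := Pool.Agent.Y172.lift_dual hE hE'
  choose t D ht hD using fun i => Pool.Agent.Y172.exists_crd (hd i)
  have hbt : IsTranscendenceBasis k (coords F t) := coords_basis F hnM halg t ht
  let J : M := (Matrix.of fun a b => E' a (coords F t b)).det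
  have hJ : J ≠ 0 := jac_ne hbt hEd
  have hfi : Module.Finite L M := inferInstance
  -- the forms on the factors
  choose η hη G hG hGi using ha
  have hmem : ∀ i l, η i l (D i) ∈ CanF k (d i) (D i) := fun i l =>
    ⟨η i l, (reg_of_sec (hη i l)).1, (reg_of_sec (hη i l)).2, rfl⟩
  have hco : ∀ i l, η i l (G i) =
      (Matrix.of fun a b => G i a (t i b)).det ^ 1 * η i l (D i) := fun i l =>
    Pool.Agent.Y172.pluri_coord (ht i) (hD i) (hη i l).1 (G i)
  have hη0 : ∀ i l, η i l (D i) ≠ 0 := fun i l h => hG i l (by rw [hco, h, mul_zero])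
  have hdet : ∀ i, (Matrix.of fun a b => G i a (t i b)).det ^ 1 ≠ 0 := fun i h =>
    hG i 0 (by rw [hco, h, zero_mul])
  let x : ∀ i, Fin (a i) → F i := fun i l => η i l.succ (D i) / η i 0 (D i)
  have hx : ∀ i, AlgebraicIndependent k (x i) := by
    intro i
    have h1 : x i = fun l : Fin (a i) => η i l.succ (G i) / η i 0 (G i) := by
      funext l
      simp only [x]
      rw [hco i l.succ, hco i 0, mul_div_mul_left _ _ (hdet i)]
    rw [h1]
    exact hGi i
  choose u hu g hg hgx using fun i => extend_basis (hd i) (hx i)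
  have hbu : IsTranscendenceBasis k (coords F u) := coords_basis F hnM halg u hu
  let H : Finset (Fin (∑ i, d i)) :=
    Finset.univ.image fun p : (i : Fin s) × Fin (a i) => finSigmaFinEquiv ⟨p.1, g p.1 p.2⟩
  have hHc : H.card = ∑ i, a i := by
    rw [Finset.card_image_of_injective]
    · rw [Finset.card_univ, Fintype.card_sigma]
      simp
    · rintro ⟨i, l⟩ ⟨j, l'⟩ h
      have h1 := finSigmaFinEquiv.injective h
      simp only [Sigma.mk.injEq] at h1
      obtain ⟨h2, h3⟩ := h1
      subst h2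
      have h4 := hg i (eq_of_heq h3)
      rw [h4]
  -- the forms
  have hform : ∀ f : ∀ i, F i, ∃ ω : (Fin (∑ i, d i) → Derivation k L L) → L,
      (∀ i, f i ∈ CanF k (d i) (D i)) → (IsSec k L (∑ i, d i) (fun _ => False) {1} 1 0 ω ∧
      ω E = Algebra.trace L M (J * ∏ i, (f i : M))) := by
    intro f
    by_cases hf : ∀ i, f i ∈ CanF k (d i) (D i)
    · obtain ⟨ω, h1, h2, h3⟩ := trace_pluri (K := L) hn (wdg F t f) (wdg_pluri F t f)
        (fun Q hQ => wdg_reg' F hd hnM ht hD hf Q hQ)
      refine ⟨ω, fun _ => ⟨⟨h1, fun v hv _ D hD => ?_, fun v _ hB => absurd hB id⟩, ?_⟩⟩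
      · exact Pool.Agent.W303.PG.dom_of_reg (h2 v hv D hD)
      · rw [h3 E E' hE']
        unfold wdg
        rw [mul_comm]
    · exact ⟨fun _ => 0, fun h => absurd h hf⟩
  choose ω hω using hform
  -- a nonzero form
  obtain ⟨f0, hf0, hG0⟩ : ∃ f : ∀ i, F i, (∀ i, f i ∈ CanF k (d i) (D i)) ∧
      Algebra.trace L M (J * ∏ i, (f i : M)) ≠ 0 := by
    by_contra hcon
    push Not at hcon
    refine hJ (elim_hall_oneV F hm1 (fun i => CanF k (d i) (D i))
      (fun i => (hV i (t i) (D i) (ht i) (hD i)).sep) B (fun i hi => ?_) (fun Q hQB => ?_)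
      J hcon)
    · have := hB i hi
      omega
    · rcases hQ Q hQB with h | h <;> omega
  set G0 := Algebra.trace L M (J * ∏ i, (f0 i : M)) with hG0e
  let A : Set L := {x | ∃ f : ∀ i, F i, (∀ i, f i ∈ CanF k (d i) (D i)) ∧
    x = Algebra.trace L M (J * ∏ i, (f i : M)) / G0}
  obtain ⟨z, hzA, hz⟩ := exists_indep hn A hbu H (by
    intro δ δ' hδ hA b hb
    obtain ⟨⟨i, l⟩, -, rfl⟩ := Finset.mem_image.1 hb
    have hchar : CharZero L := charZero_of_injective_algebraMap (algebraMap k L).injective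
    have hΩ := AlgHom.card L M (AlgebraicClosure M)
    have hpos : 0 < Module.finrank L M := Module.finrank_pos
    obtain ⟨σ0⟩ : Nonempty (M →ₐ[L] AlgebraicClosure M) :=
      Fintype.card_pos_iff.1 (by rw [hΩ]; exact hpos)
    let θ : ∀ i, (M →ₐ[L] AlgebraicClosure M) → (F i →ₗ[k] AlgebraicClosure M) := fun i σ =>
      (σ.restrictScalars k).toLinearMap ∘ₗ (LinearMap.mulLeft k J) ∘ₗ
        (δ' : M →ₗ[k] M) ∘ₗ (F i).val.toLinearMap
    have hθe : ∀ i σ (z : F i), θ i σ z = σ (J * δ' (z : M)) := fun i σ z => rfl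
    have h1 := elim_hallV F hm1 (fun i => CanF k (d i) (D i))
      (fun i => hV i (t i) (D i) (ht i) (hD i)) B hB hQ (Ω := AlgebraicClosure M)
      (fun σ => σ (δ' J - algebraMap L M (δ G0 / G0) * J)) θ
      (fun i σ p q => by
        rw [hθe, hθe, hθe, resV_apply, resV_apply, ← map_mul, ← map_mul, ← map_add]
        congr 1
        have : ((p * q : F i) : M) = (p : M) * (q : M) := rfl
        rw [this, δ'.leibniz, smul_eq_mul, smul_eq_mul]
        ring)
      (fun f hf => by
        refine relationV F J δ δ' hδ (δ G0 / G0) ?_ θ hθe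
        have h2 := hA _ ⟨f, hf, rfl⟩
        have h3 : δ (Algebra.trace L M (J * ∏ i, (f i : M)) / G0 * G0) =
            δ (Algebra.trace L M (J * ∏ i, (f i : M))) := by
          rw [div_mul_cancel₀ _ hG0]
        rw [δ.leibniz, h2, smul_zero, add_zero, smul_eq_mul] at h3
        rw [← h3]
        ring) i σ0 (hmem i 0) (hmem i l.succ)
    rw [hθe, hθe, ← map_mul, ← map_mul] at h1
    have h2 := σ0.injective h1
    have h3 : ((η i 0 (D i) : F i) : M) ≠ 0 := fun h => hη0 i 0 (Subtype.ext h)
    have h4 : ((η i 0 (D i) : F i) : M) * δ' ((η i l.succ (D i) : F i) : M) =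
        ((η i l.succ (D i) : F i) : M) * δ' ((η i 0 (D i) : F i) : M) := by
      refine mul_left_cancel₀ hJ ?_
      linear_combination h2
    have h5 : coords F u (finSigmaFinEquiv ⟨i, g i l⟩) =
        ((η i l.succ (D i) : F i) : M) / ((η i 0 (D i) : F i) : M) := by
      unfold coords
      rw [Equiv.symm_apply_apply]
      change ((u i (g i l) : F i) : M) = _
      rw [hgx]
      rfl
    rw [h5]
    have h6 : δ' (((η i l.succ (D i) : F i) : M) / ((η i 0 (D i) : F i) : M) *
        ((η i 0 (D i) : F i) : M)) = δ' ((η i l.succ (D i) : F i) : M) := by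
      rw [div_mul_cancel₀ _ h3]
    rw [δ'.leibniz, smul_eq_mul, smul_eq_mul] at h6
    have h7 : ((η i 0 (D i) : F i) : M) *
        (((η i 0 (D i) : F i) : M) *
          δ' (((η i l.succ (D i) : F i) : M) / ((η i 0 (D i) : F i) : M))) = 0 := by
      have h8 : ((η i 0 (D i) : F i) : M) *
          δ' (((η i l.succ (D i) : F i) : M) / ((η i 0 (D i) : F i) : M)) =
          δ' ((η i l.succ (D i) : F i) : M) -
            ((η i l.succ (D i) : F i) : M) / ((η i 0 (D i) : F i) : M) *
              δ' ((η i 0 (D i) : F i) : M) := by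
        rw [← h6]
        ring
      rw [h8, mul_sub, h4]
      field_simp
      ring
    exact (mul_eq_zero.1 ((mul_eq_zero.1 h7).resolve_left h3)).resolve_left h3)
  choose f hf hzf using hzA
  have hne : ∀ l, Algebra.trace L M (J * ∏ i, (f l i : M)) ≠ 0 := by
    intro l h0
    have h1 := hz.transcendental l
    rw [hzf l, h0, zero_div] at h1
    exact h1 isAlgebraic_zero
  rw [← hHc]
  refine ⟨Fin.cons (ω f0) fun l => ω (f l), fun l => ?_, E, fun l => ?_, ?_⟩
  · refine Fin.cases ?_ (fun l => ?_) l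
    · rw [Fin.cons_zero]
      exact (hω f0 hf0).1
    · rw [Fin.cons_succ]
      exact (hω (f l) (hf l)).1
  · refine Fin.cases ?_ (fun l => ?_) l
    · rw [Fin.cons_zero, (hω f0 hf0).2]
      exact hG0
    · rw [Fin.cons_succ, (hω (f l) (hf l)).2]
      exact hne l
  · have h1 : (fun l : Fin H.card =>
        (Fin.cons (ω f0) (fun l => ω (f l)) :
            Fin (_ + 1) → (Fin (∑ i, d i) → Derivation k L L) → L) l.succ E /
          (Fin.cons (ω f0) (fun l => ω (f l)) :
            Fin (_ + 1) → (Fin (∑ i, d i) → Derivation k L L) → L) 0 E) = z := by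
      funext l
      rw [Fin.cons_succ, Fin.cons_zero, (hω f0 hf0).2, (hω (f l) (hf l)).2, hzf l]
    rw [h1]
    exact hz

end

end Q36.GV
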