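import Pool.Agent.Q36.GV.Pl

/-!
Algebraically independent functions from canonical forms and given functions.
-/

set_option autoImplicit false
set_option linter.overlappingInstances false
set_option linter.unusedSectionVars false

open Polynomial FF IsDedekindDomain IntermediateField
open Pool.Agent.W602.GT Pool.Agent.W603.LV Pool.Agent.W619.PQ Pool.Agent.W619.TW
  Pool.Agent.W619.Y Q36.PT Q36.SD Q36.HB

namespace Q36.GV

section

variable {k L M : Type} [Field k] [CharZero k] [IsAlgClosed k] [Field L] [Field M]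
  [Algebra k L] [Algebra k M] [Algebra L M] [IsScalarTower k L M] [FiniteDimensional L M]
  [Algebra.EssFiniteType k L] {s : ℕ} {d : Fin s → ℕ} (F : Fin s → IntermediateField k M)
  [∀ i, Algebra.EssFiniteType k (F i)]

theorem der_div' {K : Type} [Field K] [Algebra k K] (δ : Derivation k K K) {a b : K} (hb : b ≠ 0)
    (h : b * δ a = a * δ b) : δ (a / b) = 0 := by
  have h6 : δ (a / b * b) = δ a := by rw [div_mul_cancel₀ _ hb]
  rw [δ.leibniz, smul_eq_mul, smul_eq_mul] at h6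
  have h7 : b * (b * δ (a / b)) = 0 := by
    have h8 : b * δ (a / b) = δ a - a / b * δ b := by
      rw [← h6]
      ring
    rw [h8, mul_sub, h]
    field_simp
    ring
  exact (mul_eq_zero.1 ((mul_eq_zero.1 h7).resolve_left hb)).resolve_left hb

/-- **Independent functions.** -/
theorem indepV (hnM : Algebra.trdeg k M = (∑ i, d i : ℕ))
    (halg : Algebra.IsAlgebraic ↥(⨆ i, F i) M) (hd : ∀ i, Algebra.trdeg k (F i) = d i)
    {m : Fin s → ℕ} (hm1 : ∀ i, 1 ≤ m i) (hV : ∀ i, CanSepJ k (F i) (d i) (m i))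
    (B : Finset (Fin s))
    (hB : ∀ i ∈ B, 2 * Module.finrank L (IntermediateField.adjoin L (F i : Set M)) ≤ m i)
    (hQ : ∀ Q : Finset (Fin s), Disjoint Q B →
      Module.finrank (IntermediateField.adjoin L {z : M | ∃ j, j ∉ Q ∧ z ∈ F j}) M = 1 ∨
      2 * Module.finrank (IntermediateField.adjoin L {z : M | ∃ j, j ∉ Q ∧ z ∈ F j}) M ≤
        1 + ∑ j ∈ Q, (m j - 1))
    (A0 : Set L) (u : ∀ i, Fin (d i) → F i) (hu : ∀ i, IsTranscendenceBasis k (u i))
    (H : Finset (Fin (∑ i, d i)))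
    (hH : ∀ (δ : Derivation k L L) (δ' : Derivation k M M),
      (∀ f, δ' (algebraMap L M f) = algebraMap L M (δ f)) → (∀ x ∈ A0, δ x = 0) →
      (∀ i (η η' : (Fin (d i) → Derivation k (F i) (F i)) → F i),
        IsPluriForm k (F i) (d i) 1 η →
        (∀ u : Place k (F i), IsDivisorial u (d i) → RegularAt u (d i) η) →
        IsPluriForm k (F i) (d i) 1 η' →
        (∀ u : Place k (F i), IsDivisorial u (d i) → RegularAt u (d i) η') →
        ∀ G, η G ≠ 0 → δ' ((η' G / η G : F i) : M) = 0) →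
      ∀ b ∈ H, δ' (coords F u b) = 0) :
    ∃ (ω0 : (Fin (∑ i, d i) → Derivation k L L) → L)
      (E : Fin (∑ i, d i) → Derivation k L L),
      IsSec k L (∑ i, d i) (fun _ => False) {1} 1 0 ω0 ∧ ω0 E ≠ 0 ∧
      ∃ x : Fin H.card → L, AlgebraicIndependent k x ∧ ∀ l, x l ∈ A0 ∨
        ∃ ω1 : (Fin (∑ i, d i) → Derivation k L L) → L,
          IsSec k L (∑ i, d i) (fun _ => False) {1} 1 0 ω1 ∧ x l = ω1 E / ω0 E := by
  classical
  have hessM : Algebra.EssFiniteType k M := ess_up k L M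
  have hn : Algebra.trdeg k L = (∑ i, d i : ℕ) := trdeg_below (K := M) hnM
  obtain ⟨y, E, hy, hE⟩ := Pool.Agent.Y172.exists_crd (k := k) (K := L) hn
  choose E' hE' using fun i => Pool.Agent.Y172.exists_lift (L := M) hn (E i)
  have hEd := Pool.Agent.Y172.lift_dual hE hE'
  choose t D ht hD using fun i => Pool.Agent.Y172.exists_crd (hd i)
  have hbt : IsTranscendenceBasis k (coords F t) := coords_basis F hnM halg t ht
  let J : M := (Matrix.of fun a b => E' a (coords F t b)).det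
  have hJ : J ≠ 0 := jac_ne hbt hEd
  have hbu : IsTranscendenceBasis k (coords F u) := coords_basis F hnM halg u hu
  -- the forms
  have hform : ∀ f : ∀ i, F i, ∃ ω : (Fin (∑ i, d i) → Derivation k L L) → L,
      (∀ i, f i ∈ CanF k (d i) (D i)) → (IsSec k L (∑ i, d i) (fun _ => False) {1} 1 0 ω ∧
      ω E = Algebra.trace L M (J * ∏ i, (f i : M))) := by
    intro f
    by_cases hf : ∀ i, f i ∈ CanF k (d i) (D i)
    · obtain ⟨ω, h1, h2, h3⟩ := trace_pluri (K := L) hn (wdg F t f) (wdg_pluri F t f)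
        (fun Q hQ => wdg_reg' F hd hnM ht hD hf Q hQ)
      refine ⟨ω, fun _ => ⟨⟨h1, fun v hv _ D hD => ?_, fun v _ hB => absurd hB id⟩, ?_⟩⟩
      · exact Pool.Agent.W303.PG.dom_of_reg (h2 v hv D hD)
      · rw [h3 E E' hE']
        unfold wdg
        rw [mul_comm]
    · exact ⟨fun _ => 0, fun h => absurd h hf⟩
  choose ω hω using hform
  -- a nonzero form
  obtain ⟨f0, hf0, hG0⟩ : ∃ f : ∀ i, F i, (∀ i, f i ∈ CanF k (d i) (D i)) ∧
      Algebra.trace L M (J * ∏ i, (f i : M)) ≠ 0 := by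
    by_contra hcon
    push Not at hcon
    refine hJ (elim_hall_oneV F hm1 (fun i => CanF k (d i) (D i))
      (fun i => (hV i (t i) (D i) (ht i) (hD i)).sep) B (fun i hi => ?_) (fun Q hQB => ?_)
      J hcon)
    · have := hB i hi
      omega
    · rcases hQ Q hQB with h | h <;> omega
  set G0 := Algebra.trace L M (J * ∏ i, (f0 i : M)) with hG0e
  let A : Set L := A0 ∪ {x | ∃ f : ∀ i, F i, (∀ i, f i ∈ CanF k (d i) (D i)) ∧
    x = Algebra.trace L M (J * ∏ i, (f i : M)) / G0}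
  obtain ⟨z, hzA, hz⟩ := exists_indep hn A hbu H (by
    intro δ δ' hδ hA b hb
    refine hH δ δ' hδ (fun x hx => hA x (Or.inl hx)) (fun i η η' h1 h2 h1' h2' G hG => ?_) b hb
    have hchar : CharZero L := charZero_of_injective_algebraMap (algebraMap k L).injective
    have hΩ := AlgHom.card L M (AlgebraicClosure M)
    have hpos : 0 < Module.finrank L M := Module.finrank_pos
    obtain ⟨σ0⟩ : Nonempty (M →ₐ[L] AlgebraicClosure M) :=
      Fintype.card_pos_iff.1 (by rw [hΩ]; exact hpos)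
    let θ : ∀ i, (M →ₐ[L] AlgebraicClosure M) → (F i →ₗ[k] AlgebraicClosure M) := fun i σ =>
      (σ.restrictScalars k).toLinearMap ∘ₗ (LinearMap.mulLeft k J) ∘ₗ
        (δ' : M →ₗ[k] M) ∘ₗ (F i).val.toLinearMap
    have hθe : ∀ i σ (z : F i), θ i σ z = σ (J * δ' (z : M)) := fun i σ z => rfl
    have hm : η (D i) ∈ CanF k (d i) (D i) := ⟨η, h1, h2, rfl⟩
    have hm' : η' (D i) ∈ CanF k (d i) (D i) := ⟨η', h1', h2', rfl⟩
    have h3 := elim_hallV F hm1 (fun i => CanF k (d i) (D i))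
      (fun i => hV i (t i) (D i) (ht i) (hD i)) B hB hQ (Ω := AlgebraicClosure M)
      (fun σ => σ (δ' J - algebraMap L M (δ G0 / G0) * J)) θ
      (fun i σ p q => by
        rw [hθe, hθe, hθe, resV_apply, resV_apply, ← map_mul, ← map_mul, ← map_add]
        congr 1
        have : ((p * q : F i) : M) = (p : M) * (q : M) := rfl
        rw [this, δ'.leibniz, smul_eq_mul, smul_eq_mul]
        ring)
      (fun f hf => by
        refine relationV F J δ δ' hδ (δ G0 / G0) ?_ θ hθe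
        have h2 := hA _ (Or.inr ⟨f, hf, rfl⟩)
        have h3 : δ (Algebra.trace L M (J * ∏ i, (f i : M)) / G0 * G0) =
            δ (Algebra.trace L M (J * ∏ i, (f i : M))) := by
          rw [div_mul_cancel₀ _ hG0]
        rw [δ.leibniz, h2, smul_zero, add_zero, smul_eq_mul] at h3
        rw [← h3]
        ring) i σ0 hm hm'
    rw [hθe, hθe, ← map_mul, ← map_mul] at h3
    have h4 := σ0.injective h3
    have hco : ∀ ζ : (Fin (d i) → Derivation k (F i) (F i)) → F i,
        IsPluriForm k (F i) (d i) 1 ζ →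
        ζ G = (Matrix.of fun a b => G a (t i b)).det ^ 1 * ζ (D i) := fun ζ hζ =>
      Pool.Agent.Y172.pluri_coord (ht i) (hD i) hζ G
    have hη0 : η (D i) ≠ 0 := fun h => hG (by rw [hco η h1, h, mul_zero])
    have hdet : (Matrix.of fun a b => G a (t i b)).det ^ 1 ≠ 0 := fun h =>
      hG (by rw [hco η h1, h, zero_mul])
    have h5 : η' G / η G = η' (D i) / η (D i) := by
      rw [hco η h1, hco η' h1', mul_div_mul_left _ _ hdet]
    rw [h5]
    have h6 : ((η (D i) : F i) : M) ≠ 0 := fun h => hη0 (Subtype.ext h)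
    have h7 : ((η (D i) : F i) : M) * δ' ((η' (D i) : F i) : M) =
        ((η' (D i) : F i) : M) * δ' ((η (D i) : F i) : M) := by
      refine mul_left_cancel₀ hJ ?_
      linear_combination h4
    have h8 : ((η' (D i) / η (D i) : F i) : M) =
        ((η' (D i) : F i) : M) / ((η (D i) : F i) : M) := rfl
    rw [h8]
    exact der_div' δ' h6 h7)
  refine ⟨ω f0, E, (hω f0 hf0).1, by rw [(hω f0 hf0).2]; exact hG0, z, hz, fun l => ?_⟩
  rcases hzA l with h1 | ⟨f, hf, h1⟩
  · exact Or.inl h1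
  · right
    refine ⟨ω f, (hω f hf).1, ?_⟩
    rw [h1, (hω f hf).2, (hω f0 hf0).2]

end

section

variable {k K : Type} [Field k] [Field K] [Algebra k K] {n : ℕ}

/-- **The lower bound for the Kodaira dimension of a pair.** -/
theorem pkod_of_indep {h : ℕ} (δ : Place k K → ℝ) (hδ0 : ∀ v, 0 ≤ δ v)
    {ω0 : (Fin n → Derivation k K K) → K} {E : Fin n → Derivation k K K}
    (h0 : IsSec k K n (fun _ => False) {1} 1 0 ω0) (hE : ω0 E ≠ 0) {x : Fin h → K}
    (hx : AlgebraicIndependent k x)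
    (hxl : ∀ l, (∃ C : ℕ, ∀ v : Place k K, IsDivisorial v n → -(C * δ v) ≤ (v.ord (x l) : ℝ)) ∨
      ∃ ω1 : (Fin n → Derivation k K K) → K,
        IsSec k K n (fun _ => False) {1} 1 0 ω1 ∧ x l = ω1 E / ω0 E) :
    PKodGe k K n δ h := by
  classical
  have hx0 : ∀ l, x l ≠ 0 := fun l h1 => by
    have h2 := hx.transcendental l
    rw [h1] at h2
    exact h2 isAlgebraic_zero
  have hex : ∀ l, ∃ (ζ : (Fin n → Derivation k K K) → K) (ξ : K) (C : ℕ),
      IsSec k K n (fun _ => False) {1} 1 0 ζ ∧ ξ ≠ 0 ∧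
      (∀ v : Place k K, IsDivisorial v n → -(C * δ v) ≤ (v.ord ξ : ℝ)) ∧
      x l = ζ E / ω0 E * ξ := by
    intro l
    rcases hxl l with ⟨C, hC⟩ | ⟨ω1, h1, h2⟩
    · exact ⟨ω0, x l, C, h0, hx0 l, hC, by rw [div_self hE, one_mul]⟩
    · refine ⟨ω1, 1, 0, h1, one_ne_zero, fun v _ => ?_, by rw [h2, mul_one]⟩
      rw [v.ord_one]
      simp
  choose ζ ξ C hζ hξ0 hξ hxe using hex
  let C' : ℕ := ∑ l, C l
  have hCl : ∀ l, (C l : ℝ) ≤ C' := fun l => by
    exact_mod_cast Finset.single_le_sum (f := C) (fun _ _ => Nat.zero_le _) (Finset.mem_univ l)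
  let m : ℕ := h * (C' + 1) + 1
  refine ⟨m, Nat.le_add_left 1 _, fun j hj => ?_⟩
  have hrM : ∀ r : Fin h → Fin j, ∑ l, (r l : ℕ) ≤ j * m := by
    intro r
    calc ∑ l, (r l : ℕ) ≤ ∑ _l : Fin h, j := Finset.sum_le_sum fun l _ => (r l).2.le
      _ = h * j := by simp
      _ ≤ j * m := by
        change h * j ≤ j * (h * (C' + 1) + 1)
        nlinarith [Nat.zero_le (j * (h * C'))]
  let η : (Fin h → Fin j) → (Fin n → Derivation k K K) → K := fun r D =>
    (ω0 D ^ (j * m - ∑ l, (r l : ℕ)) * ∏ l : Fin h, ζ l D ^ (r l : ℕ)) *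
      ∏ l : Fin h, ξ l ^ (r l : ℕ)
  have hη : ∀ r, PSec k K n δ {1} (j * m) 0 (η r) := by
    intro r
    have h1 := Pool.Agent.W327.PG.TRGE3.sec_mul
      (Pool.Agent.W327.PG.TRGE3.sec_pow h0 (j * m - ∑ l, (r l : ℕ)))
      (Pool.Agent.W327.PG.TRGE3.sec_prod Finset.univ (fun l : Fin h => (r l : ℕ) * 1)
        (fun l D => ζ l D ^ (r l : ℕ))
        (fun l _ => Pool.Agent.W327.PG.TRGE3.sec_pow (hζ l) (r l : ℕ)))
    have h2 : (j * m - ∑ l, (r l : ℕ)) * 1 + ∑ l, (r l : ℕ) * 1 = j * m := by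
      simp only [mul_one]
      exact Nat.sub_add_cancel (hrM r)
    rw [h2] at h1
    have hξp : ∏ l : Fin h, ξ l ^ (r l : ℕ) ≠ 0 :=
      Finset.prod_ne_zero_iff.2 fun l _ => pow_ne_zero _ (hξ0 l)
    refine ⟨fun B D => ?_, fun v hv D hD => ?_⟩
    · have h3 : ω0 (fun i => ∑ j, B i j • D j) ^ (j * m - ∑ l, (r l : ℕ)) *
          ∏ l : Fin h, ζ l (fun i => ∑ j, B i j • D j) ^ (r l : ℕ) =
          B.det ^ (j * m) * (ω0 D ^ (j * m - ∑ l, (r l : ℕ)) *
            ∏ l : Fin h, ζ l D ^ (r l : ℕ)) := h1.1 B D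
      change (ω0 (fun i => ∑ j, B i j • D j) ^ (j * m - ∑ l, (r l : ℕ)) *
          ∏ l : Fin h, ζ l (fun i => ∑ j, B i j • D j) ^ (r l : ℕ)) *
          ∏ l : Fin h, ξ l ^ (r l : ℕ) =
          B.det ^ (j * m) * ((ω0 D ^ (j * m - ∑ l, (r l : ℕ)) *
            ∏ l : Fin h, ζ l D ^ (r l : ℕ)) * ∏ l : Fin h, ξ l ^ (r l : ℕ))
      rw [h3, mul_assoc]
    · have h3 := h1.2.1 v hv id D hD
      by_cases hz : η r D = 0
      · exact Or.inl hz
      right
      refine ⟨1, by simp, one_ne_zero, ?_⟩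
      have hz' : (ω0 D ^ (j * m - ∑ l, (r l : ℕ)) * ∏ l : Fin h, ζ l D ^ (r l : ℕ)) ≠ 0 :=
        fun h4 => hz (by change _ * _ = _; rw [h4, zero_mul])
      have h4 : 0 ≤ v.ord (ω0 D ^ (j * m - ∑ l, (r l : ℕ)) * ∏ l : Fin h, ζ l D ^ (r l : ℕ)) := by
        rcases Pool.Agent.W327.PG.TRGE3.dom_reg h3 with h4 | h4
        · exact absurd h4 hz'
        · exact h4
      have h5 : v.ord (η r D) =
          v.ord (ω0 D ^ (j * m - ∑ l, (r l : ℕ)) * ∏ l : Fin h, ζ l D ^ (r l : ℕ)) +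
            v.ord (∏ l : Fin h, ξ l ^ (r l : ℕ)) := v.ord_mul hz' hξp
      have h6 : (v.ord (∏ l : Fin h, ξ l ^ (r l : ℕ)) : ℝ) = ∑ l, (r l : ℕ) * (v.ord (ξ l) : ℝ) := by
        rw [ord_prod _ _ _ fun l _ => pow_ne_zero _ (hξ0 l)]
        push_cast
        refine Finset.sum_congr rfl fun l _ => ?_
        rw [v.ord_pow]
        push_cast
        ring
      have h7 : -((j * m : ℕ) * δ v) ≤ (v.ord (∏ l : Fin h, ξ l ^ (r l : ℕ)) : ℝ) := by
        rw [h6]
        have h8 : ∀ l ∈ (Finset.univ : Finset (Fin h)), -((j : ℝ) * (C' * δ v)) ≤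
            (r l : ℕ) * (v.ord (ξ l) : ℝ) := by
          intro l _
          have h9 := hξ l v hv
          have h10 : -((C' : ℝ) * δ v) ≤ v.ord (ξ l) := by
            have := mul_le_mul_of_nonneg_right (hCl l) (hδ0 v)
            linarith
          have h11 : ((r l : ℕ) : ℝ) * -((C' : ℝ) * δ v) ≤ (r l : ℕ) * v.ord (ξ l) :=
            mul_le_mul_of_nonneg_left h10 (by positivity)
          have h12 : ((r l : ℕ) : ℝ) ≤ j := by exact_mod_cast (r l).2.le
          have h13 : (0 : ℝ) ≤ C' * δ v := mul_nonneg (by positivity) (hδ0 v)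
          have h14 := mul_le_mul_of_nonneg_right h12 h13
          linarith
        have h9 := Finset.sum_le_sum h8
        rw [Finset.sum_const, Finset.card_univ, Fintype.card_fin, nsmul_eq_mul] at h9
        refine le_trans ?_ h9
        have h10 : (0 : ℝ) ≤ j * δ v := mul_nonneg (by positivity) (hδ0 v)
        have h11 : ((j * m : ℕ) : ℝ) * δ v = (h : ℝ) * (j * (C' * δ v)) +
            (h * (j * δ v) + j * δ v) := by
          simp only [m]
          push_cast
          ring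
        rw [h11]
        have h12 : (0 : ℝ) ≤ h * (j * δ v) := mul_nonneg (by positivity) h10
        linarith
      have h8 : (0 : ℝ) ≤
          v.ord (ω0 D ^ (j * m - ∑ l, (r l : ℕ)) * ∏ l : Fin h, ζ l D ^ (r l : ℕ)) := by
        exact_mod_cast h4
      rw [h5]
      push_cast at h7 h8 ⊢
      linarith
  have hli : LinearIndependent k η := by
    let φ : ((Fin n → Derivation k K K) → K) →ₗ[k] K := LinearMap.proj E
    refine LinearIndependent.of_comp φ ?_
    have hW : ω0 E ^ (j * m) ≠ 0 := pow_ne_zero _ hE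
    have e : φ ∘ η = (LinearMap.mulLeft k (ω0 E ^ (j * m))) ∘ fun r : Fin h → Fin j =>
        ∏ l, x l ^ (r l : ℕ) := by
      funext r
      change (ω0 E ^ (j * m - ∑ l, (r l : ℕ)) * ∏ l : Fin h, ζ l E ^ (r l : ℕ)) *
        ∏ l : Fin h, ξ l ^ (r l : ℕ) = ω0 E ^ (j * m) * ∏ l, x l ^ (r l : ℕ)
      have e1 : ω0 E ^ (j * m) = ω0 E ^ (j * m - ∑ l, (r l : ℕ)) * ∏ l, ω0 E ^ (r l : ℕ) := by
        rw [Finset.prod_pow_eq_pow_sum, ← pow_add, Nat.sub_add_cancel (hrM r)]
      rw [e1, mul_assoc, mul_assoc]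
      congr 1
      rw [← Finset.prod_mul_distrib, ← Finset.prod_mul_distrib]
      refine Finset.prod_congr rfl fun l _ => ?_
      rw [hxe l, ← mul_pow, ← mul_pow]
      congr 1
      field_simp
    rw [e]
    have h1 := (monomials_indep x hx Finset.univ j)
    have h2 : LinearIndependent k fun r : Fin h → Fin j => ∏ l, x l ^ (r l : ℕ) := by
      have h3 := h1.comp (fun (r : Fin h → Fin j) (l : (Finset.univ : Finset (Fin h))) => r l.1)
        (fun r r' hr => by
          funext l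
          exact congrFun hr ⟨l, Finset.mem_univ l⟩)
      convert h3 using 2 with r
      refine Finset.prod_congr rfl fun l _ => ?_
      unfold expo
      rw [dif_pos (Finset.mem_univ l)]
    exact h2.map' _ (LinearMap.ker_eq_bot.2 (mul_right_injective₀ hW))
  have hcard : Fintype.card (Fin h → Fin j) = j ^ h := by simp
  let e : Fin (j ^ h) ≃ (Fin h → Fin j) := (Fintype.equivFinOfCardEq hcard).symm
  exact ⟨fun l => η (e l), hli.comp e e.injective, fun l => hη (e l)⟩

end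

end Q36.GV
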