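import Pool.Agent.Q36.GV.Cl

/-!
Linear disjointness over algebraically closed subfields.
-/

set_option autoImplicit false
set_option linter.overlappingInstances false
set_option linter.unusedSectionVars false

open Polynomial IntermediateField

namespace Q36.GV

section

variable {K L M : Type} [Field K] [Field L] [Field M] [Algebra K L] [Algebra L M]
  [Algebra K M] [IsScalarTower K L M]

/-- the degree of an element does not drop over a field in which `K` is algebraically closed -/
theorem ld_elem (hK : ∀ x : L, IsAlgebraic K x → x ∈ (algebraMap K L).range) {θ : M}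
    (hθ : IsIntegral K θ) : (minpoly L θ).natDegree = (minpoly K θ).natDegree := by
  have hθL : IsIntegral L θ := hθ.tower_top
  have hdvd : minpoly L θ ∣ (minpoly K θ).map (algebraMap K L) :=
    minpoly.dvd_map_of_isScalarTower K L θ
  apply le_antisymm
  · refine (natDegree_le_of_dvd hdvd ?_).trans (natDegree_map_le)
    exact Polynomial.map_ne_zero (minpoly.ne_zero hθ)
  · have h1 := integralClosure.mem_lifts_of_monic_of_dvd_map L (minpoly.monic hθ)
      (minpoly.monic hθL) hdvd
    have h2 : minpoly L θ ∈ Polynomial.lifts (algebraMap K L) := by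
      rw [Polynomial.lifts_iff_coeff_lifts] at h1 ⊢
      intro n
      obtain ⟨c, hc⟩ := h1 n
      obtain ⟨r, hr⟩ := hK ((minpoly L θ).coeff n) (by
        rw [← hc]
        exact (c.2 : IsIntegral K (c : L)).isAlgebraic)
      exact ⟨r, hr⟩
    obtain ⟨q, hq⟩ := (Polynomial.mem_lifts _).1 h2
    have hq0 : q ≠ 0 := by
      rintro rfl
      rw [Polynomial.map_zero] at hq
      exact minpoly.ne_zero hθL hq.symm
    have h3 : aeval θ q = 0 := by
      have h4 : aeval θ (q.map (algebraMap K L)) = 0 := by rw [hq]; exact minpoly.aeval L θ
      rwa [aeval_map_algebraMap] at h4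
    calc (minpoly K θ).natDegree ≤ q.natDegree :=
          natDegree_le_of_dvd (minpoly.dvd K θ h3) hq0
      _ = (minpoly L θ).natDegree := by rw [← hq, natDegree_map]

/-- **Linear disjointness.** -/
theorem ld [CharZero K] (hK : ∀ x : L, IsAlgebraic K x → x ∈ (algebraMap K L).range)
    (P : IntermediateField K M) [FiniteDimensional K P] :
    Module.finrank L (IntermediateField.adjoin L (P : Set M)) = Module.finrank K P := by
  obtain ⟨α, hα⟩ := Field.exists_primitive_element K P
  have hint : IsIntegral K α := Algebra.IsIntegral.isIntegral α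
  have hintM : IsIntegral K (α : M) := (isIntegral_algebraMap_iff (algebraMap P M).injective).2 hint
  have h1 : IntermediateField.adjoin L (P : Set M) = L⟮(α : M)⟯ := by
    apply le_antisymm
    · rw [adjoin_le_iff]
      intro z hz
      have h2 : (⟨z, hz⟩ : P) ∈ K⟮α⟯ := by rw [hα]; trivial
      have h3 : K⟮α⟯ ≤ (L⟮(α : M)⟯.restrictScalars K).comap P.val := by
        rw [adjoin_simple_le_iff]
        exact mem_adjoin_simple_self L (α : M)
      exact h3 h2
    · rw [adjoin_simple_le_iff]
      exact subset_adjoin L _ α.2
  rw [h1, adjoin.finrank hintM.tower_top, ld_elem hK hintM]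
  have h4 : minpoly K (α : M) = minpoly K α := minpoly.algebraMap_eq (algebraMap P M).injective α
  rw [h4, ← adjoin.finrank hint, hα, IntermediateField.finrank_top']

/-- comparison of relative degrees -/
theorem ld_le [CharZero K] (hK : ∀ x : L, IsAlgebraic K x → x ∈ (algebraMap K L).range)
    [FiniteDimensional L M] (P1 P2 : IntermediateField K M) (h12 : P1 ≤ P2)
    [FiniteDimensional K P2] :
    ∃ r, Module.finrank K P1 * r = Module.finrank K P2 ∧
      r ≤ Module.finrank (IntermediateField.adjoin L (P1 : Set M)) M := by
  have hf1 : FiniteDimensional K P1 :=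
    Module.Finite.of_injective (IntermediateField.inclusion h12).toLinearMap
      (IntermediateField.inclusion h12).injective
  let i1 : Algebra P1 P2 := (IntermediateField.inclusion h12).toRingHom.toAlgebra
  have i2 : IsScalarTower K P1 P2 := IsScalarTower.of_algebraMap_eq fun x => rfl
  refine ⟨Module.finrank P1 P2, Module.finrank_mul_finrank K P1 P2, ?_⟩
  have h1 := Module.finrank_mul_finrank K P1 P2
  have h2 := ld hK P1
  have h3 := ld hK P2
  have h4 := Module.finrank_mul_finrank L (IntermediateField.adjoin L (P1 : Set M)) M
  have h5 : Module.finrank L (IntermediateField.adjoin L (P2 : Set M)) ≤ Module.finrank L M := by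
    have h6 := Module.finrank_mul_finrank L (IntermediateField.adjoin L (P2 : Set M)) M
    have h7 : 0 < Module.finrank (IntermediateField.adjoin L (P2 : Set M)) M :=
      Module.finrank_pos
    rw [← h6]
    exact Nat.le_mul_of_pos_right _ h7
  have h6 : 0 < Module.finrank K P1 := Module.finrank_pos
  rw [h3, ← h1, ← h4, h2] at h5
  exact Nat.le_of_mul_le_mul_left h5 h6

end

end Q36.GV
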