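import Mathlib

/-!
Spaces of functions which separate points and tangent vectors.
-/

set_option autoImplicit false
set_option linter.unusedSectionVars false

namespace Q36.GV

section

variable {k K Ω : Type} [Field k] [Field K] [Algebra k K] [Field Ω] [Algebra k Ω]

/-- `θ` is a tangent vector at the point `φ`. -/
def IsTan (φ : K →ₐ[k] Ω) (θ : K →ₗ[k] Ω) : Prop :=
  ∀ a b, θ (a * b) = φ a * θ b + φ b * θ a

theorem IsTan.zero (φ : K →ₐ[k] Ω) : IsTan φ 0 := by
  intro a b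
  simp

theorem IsTan.add {φ : K →ₐ[k] Ω} {θ θ' : K →ₗ[k] Ω} (h : IsTan φ θ) (h' : IsTan φ θ') :
    IsTan φ (θ + θ') := by
  intro a b
  rw [LinearMap.add_apply, LinearMap.add_apply, LinearMap.add_apply, h, h']
  ring

theorem IsTan.smul {φ : K →ₐ[k] Ω} {θ : K →ₗ[k] Ω} (h : IsTan φ θ) (c : Ω) :
    IsTan φ (c • θ) := by
  intro a b
  rw [LinearMap.smul_apply, LinearMap.smul_apply, LinearMap.smul_apply, h, smul_eq_mul,
    smul_eq_mul, smul_eq_mul]
  ring

theorem IsTan.sum {φ : K →ₐ[k] Ω} {T : Type} (s : Finset T) {θ : T → (K →ₗ[k] Ω)}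
    (h : ∀ x ∈ s, IsTan φ (θ x)) : IsTan φ (∑ x ∈ s, θ x) := by
  classical
  induction s using Finset.induction_on with
  | empty => simpa using IsTan.zero φ
  | insert a s ha ih =>
    rw [Finset.sum_insert ha]
    exact (h a (Finset.mem_insert_self _ _)).add
      (ih fun x hx => h x (Finset.mem_insert_of_mem hx))

variable (k) in
/-- Any `m` distinct points impose independent conditions on `V`. -/
def Sep (V : Set K) (m : ℕ) : Prop :=
  ∀ (Ω : Type) [Field Ω] [Algebra k Ω] (ι : Type) [Fintype ι] (φ : ι → (K →ₐ[k] Ω))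
    (c : ι → Ω), Function.Injective φ → Fintype.card ι ≤ m →
    (∀ f ∈ V, ∑ i, c i * φ i f = 0) → ∀ i, c i = 0

variable (k) in
/-- Distinct points with tangent vectors at some of them impose independent conditions on `V` if the
number of the points, the points with tangent vectors counted twice, is at most `m`. -/
def SepJ (V : Set K) (m : ℕ) : Prop :=
  ∀ (Ω : Type) [Field Ω] [Algebra k Ω] (ι : Type) [Fintype ι] (φ : ι → (K →ₐ[k] Ω)) (n : ι → ℕ)
    (c : ι → Ω) (θ : ι → (K →ₗ[k] Ω)), Function.Injective φ → (∀ i, n i = 1 ∨ n i = 2) →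
    ∑ i, n i ≤ m → (∀ i, IsTan (φ i) (θ i)) → (∀ i, n i = 1 → θ i = 0) →
    (∀ f ∈ V, ∑ i, (c i * φ i f + θ i f) = 0) → ∀ i, c i = 0 ∧ θ i = 0

theorem SepJ.sep {V : Set K} {m : ℕ} (h : SepJ k V m) : Sep k V m := by
  intro Ω _ _ ι _ φ c hφ hm hf i
  refine (h Ω ι φ (fun _ => 1) c (fun _ => 0) hφ (fun _ => Or.inl rfl) (by simpa using hm)
    (fun i => IsTan.zero _) (fun _ _ => rfl) (fun f hfV => ?_) i).1
  simpa using hf f hfV

/-- linear algebra -/
theorem span_target {J : Type} [Fintype J] (V : Set K) (ℓ : J → K → Ω) (t : J → Ω)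
    (h : ∀ d : J → Ω, (∀ f ∈ V, ∑ j, d j * ℓ j f = 0) → ∑ j, d j * t j = 0) :
    ∃ (p : ℕ) (a : Fin p → Ω) (g : Fin p → K), (∀ l, g l ∈ V) ∧
      ∀ j, ∑ l, a l * ℓ j (g l) = t j := by
  classical
  have hmem : t ∈ Submodule.span Ω ((fun f : K => fun j => ℓ j f) '' V) := by
    by_contra hne
    obtain ⟨f, hf0, hf⟩ := Submodule.exists_le_ker_of_notMem hne
    apply hf0
    have hfe : ∀ v : J → Ω, f v = ∑ j, f (Pi.single j 1) * v j := by
      intro v
      conv_lhs => rw [← Finset.univ_sum_single v]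
      rw [map_sum]
      refine Finset.sum_congr rfl fun j _ => ?_
      have : (Pi.single j (v j) : J → Ω) = v j • Pi.single j 1 := by
        rw [← Pi.single_smul, smul_eq_mul, mul_one]
      rw [this, map_smul, smul_eq_mul, mul_comm]
    rw [hfe]
    refine h _ fun y hy => ?_
    have h1 : f (fun j => ℓ j y) = 0 :=
      hf (Submodule.subset_span ⟨y, hy, rfl⟩)
    rw [hfe] at h1
    exact h1
  obtain ⟨p, a, g, hg⟩ := (Submodule.mem_span_set' ).1 hmem
  have hex : ∀ l, ∃ f ∈ V, (fun j => ℓ j f) = (g l : J → Ω) := fun l => (g l).2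
  choose f hf hfg using hex
  refine ⟨p, a, f, hf, fun j => ?_⟩
  have h1 := congrFun hg j
  rw [Finset.sum_apply] at h1
  rw [← h1]
  refine Finset.sum_congr rfl fun l _ => ?_
  rw [Pi.smul_apply, smul_eq_mul]
  congr 1
  exact congrFun (hfg l) j

/-- prescribed values and derivatives -/
theorem jetsV {V : Set K} {m : ℕ} (hV : SepJ k V m) {ι : Type} [Fintype ι]
    (φ : ι → (K →ₐ[k] Ω)) (hφ : Function.Injective φ) (n : ι → ℕ) (hn : ∀ i, n i = 1 ∨ n i = 2)
    (hm : ∑ i, n i ≤ m) {T : Type} [Fintype T] [DecidableEq ι] (π : T → ι)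
    (θ : T → (K →ₗ[k] Ω))
    (hθ : ∀ x, IsTan (φ (π x)) (θ x)) (hn2 : ∀ x, n (π x) = 2) (v : ι → Ω) (w : T → Ω)
    (hw : ∀ e : T → Ω, (∀ i, ∑ x ∈ Finset.univ.filter (fun x => π x = i), e x • θ x = 0) →
      ∑ x, e x * w x = 0) :
    ∃ (p : ℕ) (a : Fin p → Ω) (g : Fin p → K), (∀ l, g l ∈ V) ∧
      (∀ i, ∑ l, a l * φ i (g l) = v i) ∧ ∀ x, ∑ l, a l * θ x (g l) = w x := by
  classical
  obtain ⟨p, a, g, h1, h2⟩ := span_target (J := ι ⊕ T) V
    (fun j => Sum.elim (fun i => (φ i : K → Ω)) (fun x => (θ x : K → Ω)) j) (Sum.elim v w)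
    (fun d hd => by
      rw [Fintype.sum_sum_type]
      simp only [Sum.elim_inl, Sum.elim_inr]
      have h3 := hV Ω ι φ n (fun i => d (Sum.inl i))
        (fun i => ∑ x ∈ Finset.univ.filter (fun x => π x = i), d (Sum.inr x) • θ x) hφ hn hm
        (fun i => IsTan.sum _ fun x hx => by
          have h4 := (Finset.mem_filter.1 hx).2
          have h5 := hθ x
          rw [h4] at h5
          exact h5.smul _)
        (fun i hi => Finset.sum_eq_zero fun x hx => by
          have h4 := (Finset.mem_filter.1 hx).2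
          have h5 := hn2 x
          rw [h4] at h5
          omega)
        (fun f hf => by
          have h4 := hd f hf
          rw [Fintype.sum_sum_type] at h4
          simp only [Sum.elim_inl, Sum.elim_inr] at h4
          rw [Finset.sum_add_distrib, ← h4]
          congr 1
          have h5 : ∀ i, (∑ x ∈ Finset.univ.filter (fun x => π x = i),
              d (Sum.inr x) • θ x : K →ₗ[k] Ω) f =
              ∑ x ∈ Finset.univ.filter (fun x => π x = i), d (Sum.inr x) * θ x f := by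
            intro i
            rw [LinearMap.sum_apply]
            rfl
          rw [Finset.sum_congr rfl fun i _ => h5 i]
          exact Finset.sum_fiberwise Finset.univ π fun x => d (Sum.inr x) * θ x f)
      rw [Finset.sum_eq_zero fun i _ => by rw [(h3 i).1, zero_mul], zero_add]
      exact hw _ fun i => (h3 i).2)
  refine ⟨p, a, g, h1, fun i => h2 (Sum.inl i), fun x => h2 (Sum.inr x)⟩

/-- the value `1` at `φ0` and jets `0` at `B` -/
theorem kill_valV {V : Set K} {m : ℕ} (hV : SepJ k V m) (φ0 : K →ₐ[k] Ω)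
    (B : Finset (K →ₐ[k] Ω))
    (μ : (K →ₐ[k] Ω) → ℕ) (hμ : ∀ φ ∈ B, μ φ = 1 ∨ μ φ = 2) (hB : φ0 ∉ B)
    (hm : ∑ φ ∈ B, μ φ + 1 ≤ m) {T : Type} [Fintype T] (π : T → (K →ₐ[k] Ω))
    (θ : T → (K →ₗ[k] Ω)) (hθ : ∀ x, IsTan (π x) (θ x)) :
    ∃ (p : ℕ) (a : Fin p → Ω) (g : Fin p → K), (∀ l, g l ∈ V) ∧
      ∑ l, a l * φ0 (g l) = 1 ∧ (∀ φ ∈ B, ∑ l, a l * φ (g l) = 0) ∧
      ∀ x, π x ∈ B → μ (π x) = 2 → ∑ l, a l * θ x (g l) = 0 := by
  classical
  let ι := {φ : K →ₐ[k] Ω // φ ∈ insert φ0 B}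
  let T' := {x : T // π x ∈ B ∧ μ (π x) = 2}
  have hne : ∀ φ ∈ B, φ ≠ φ0 := fun φ h1 h2 => hB (h2 ▸ h1)
  obtain ⟨p, a, g, h1, h2, h3⟩ := jetsV hV (fun j : ι => (j : K →ₐ[k] Ω)) Subtype.val_injective
    (fun j => if (j : K →ₐ[k] Ω) = φ0 then 1 else μ j) (fun j => by
      split_ifs with h
      · exact Or.inl rfl
      · exact hμ _ ((Finset.mem_insert.1 j.2).resolve_left h)) (by
      refine le_of_eq_of_le ?_ hm
      rw [Finset.sum_coe_sort (insert φ0 B) (fun φ => if φ = φ0 then 1 else μ φ),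
        Finset.sum_insert hB, if_pos rfl, add_comm]
      congr 1
      refine Finset.sum_congr rfl fun φ hφ => ?_
      rw [if_neg (hne φ hφ)])
    (fun x : T' => (⟨π x, Finset.mem_insert_of_mem x.2.1⟩ : ι)) (fun x => θ x)
    (fun x => hθ x) (fun x => by
      simp only [if_neg (hne _ x.2.1)]
      exact x.2.2)
    (fun j => if (j : K →ₐ[k] Ω) = φ0 then 1 else 0) (fun _ => 0) (fun e _ => by simp)
  refine ⟨p, a, g, h1, ?_, fun φ hφ => ?_, fun x hx hx2 => h3 ⟨x, hx, hx2⟩⟩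
  · have := h2 ⟨φ0, Finset.mem_insert_self _ _⟩
    simpa using this
  · have := h2 ⟨φ, Finset.mem_insert_of_mem hφ⟩
    simp only [if_neg (hne φ hφ)] at this
    exact this

/-- the value `0` and the derivative `1` at `φ0`, and jets `0` at `B` -/
theorem kill_jetV {V : Set K} {m : ℕ} (hV : SepJ k V m) (φ0 : K →ₐ[k] Ω)
    (B : Finset (K →ₐ[k] Ω))
    (μ : (K →ₐ[k] Ω) → ℕ) (hμ : ∀ φ ∈ B, μ φ = 1 ∨ μ φ = 2) (hB : φ0 ∉ B)
    (hm : ∑ φ ∈ B, μ φ + 2 ≤ m) {T : Type} [Fintype T] (π : T → (K →ₐ[k] Ω))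
    (θ : T → (K →ₗ[k] Ω)) (hθ : ∀ x, IsTan (π x) (θ x))
    {θ0 : K →ₗ[k] Ω} (hθ0 : IsTan φ0 θ0) (hne0 : θ0 ≠ 0) :
    ∃ (p : ℕ) (a : Fin p → Ω) (g : Fin p → K), (∀ l, g l ∈ V) ∧
      ∑ l, a l * φ0 (g l) = 0 ∧ ∑ l, a l * θ0 (g l) = 1 ∧ (∀ φ ∈ B, ∑ l, a l * φ (g l) = 0) ∧
      ∀ x, π x ∈ B → μ (π x) = 2 → ∑ l, a l * θ x (g l) = 0 := by
  classical
  let ι := {φ : K →ₐ[k] Ω // φ ∈ insert φ0 B}
  let T' := {x : T // π x ∈ B ∧ μ (π x) = 2}
  have hne : ∀ φ ∈ B, φ ≠ φ0 := fun φ h1 h2 => hB (h2 ▸ h1)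
  let i0 : ι := ⟨φ0, Finset.mem_insert_self _ _⟩
  obtain ⟨p, a, g, h1, h2, h3⟩ := jetsV hV (fun j : ι => (j : K →ₐ[k] Ω)) Subtype.val_injective
    (fun j => if (j : K →ₐ[k] Ω) = φ0 then 2 else μ j) (fun j => by
      split_ifs with h
      · exact Or.inr rfl
      · exact hμ _ ((Finset.mem_insert.1 j.2).resolve_left h)) (by
      refine le_of_eq_of_le ?_ hm
      rw [Finset.sum_coe_sort (insert φ0 B) (fun φ => if φ = φ0 then 2 else μ φ),
        Finset.sum_insert hB, if_pos rfl, add_comm]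
      congr 1
      refine Finset.sum_congr rfl fun φ hφ => ?_
      rw [if_neg (hne φ hφ)])
    (T := Option T')
    (fun x => x.elim i0 fun x => (⟨π x, Finset.mem_insert_of_mem x.2.1⟩ : ι))
    (fun x => x.elim θ0 fun x => θ x)
    (fun x => by
      cases x with
      | none => exact hθ0
      | some x => exact hθ x)
    (fun x => by
      cases x with
      | none => simp [i0]
      | some x =>
        simp only [Option.elim_some, if_neg (hne _ x.2.1)]
        exact x.2.2)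
    (fun _ => 0) (fun x => x.elim 1 fun _ => 0) (fun e he => by
      rw [Fintype.sum_option]
      simp only [Option.elim_none, Option.elim_some, mul_zero, Finset.sum_const_zero, mul_one,
        add_zero]
      have h4 := he i0
      rw [Finset.sum_eq_single none] at h4
      · simp only [Option.elim_none] at h4
        exact (smul_eq_zero.1 h4).resolve_right hne0
      · intro x hx hxn
        cases x with
        | none => exact absurd rfl hxn
        | some x =>
          exfalso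
          have h5 := (Finset.mem_filter.1 hx).2
          simp only [Option.elim_some] at h5
          exact hne _ x.2.1 (congrArg Subtype.val h5)
      · intro h
        exact (h (Finset.mem_filter.2 ⟨Finset.mem_univ _, rfl⟩)).elim)
  refine ⟨p, a, g, h1, ?_, h3 none, fun φ hφ => ?_, fun x hx hx2 => h3 (some ⟨x, hx, hx2⟩)⟩
  · exact h2 i0
  · exact h2 ⟨φ, Finset.mem_insert_of_mem hφ⟩

/-- the value `1` at `φ0` and values `0` at `B` -/
theorem kill_V {V : Set K} {m : ℕ} (hV : Sep k V m) (φ0 : K →ₐ[k] Ω)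
    (B : Finset (K →ₐ[k] Ω)) (hB : φ0 ∉ B) (hm : B.card + 1 ≤ m) :
    ∃ (p : ℕ) (a : Fin p → Ω) (g : Fin p → K), (∀ l, g l ∈ V) ∧
      ∑ l, a l * φ0 (g l) = 1 ∧ ∀ φ ∈ B, ∑ l, a l * φ (g l) = 0 := by
  classical
  let ι := {φ : K →ₐ[k] Ω // φ ∈ insert φ0 B}
  have hne : ∀ φ ∈ B, φ ≠ φ0 := fun φ h1 h2 => hB (h2 ▸ h1)
  obtain ⟨p, a, g, h1, h2⟩ := span_target (J := ι) V (fun j => ((j : K →ₐ[k] Ω) : K → Ω))
    (fun j => if (j : K →ₐ[k] Ω) = φ0 then 1 else 0) (fun d hd => by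
      have h3 := hV Ω ι (fun j : ι => (j : K →ₐ[k] Ω)) d Subtype.val_injective
        (by rw [Fintype.card_coe, Finset.card_insert_of_notMem hB]; exact hm) hd
      exact Finset.sum_eq_zero fun j _ => by rw [h3 j, zero_mul])
  refine ⟨p, a, g, h1, ?_, fun φ hφ => ?_⟩
  · have := h2 ⟨φ0, Finset.mem_insert_self _ _⟩
    simpa using this
  · have := h2 ⟨φ, Finset.mem_insert_of_mem hφ⟩
    simp only [if_neg (hne φ hφ)] at this
    exact this

end

end Q36.GV
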