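import Pool.Agent.Q36.GV.Yc

/-!
Vanishing of regular canonical forms on logarithmic vector fields.
-/

set_option autoImplicit false
set_option linter.overlappingInstances false
set_option linter.unusedSectionVars false

open Polynomial FF IsDedekindDomain IntermediateField
open Pool.Agent.W602.GT Pool.Agent.W603.LV Pool.Agent.W619.PQ Pool.Agent.W619.TW
  Pool.Agent.W619.Y Pool.Agent.Y172 Q36.PT Q36.SD Q36.HB

namespace Q36.GV

section

variable {k M : Type} [Field k] [CharZero k] [Field M] [Algebra k M]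

/-- the factorisation for a curve, with a parameter -/
theorem ygood_curve [IsAlgClosed k] {C : IntermediateField k M} [IsFF k C] {y : C}
    {E : Derivation k C C} (hy : Transcendental k y) (hE : E y = 1) {f : C} (hf : RegDiff E f)
    (w : Place k M) :
    ∃ (Z z : M), w.Reg z ∧ (∀ D : Derivation k M M, D (y : M) = Z * D z) ∧
      Ge w 0 ((f : M) * Z) ∧ ∀ (p : Place k C) (e : ℕ), Over w p e → w.ord z = e := by
  have hE0 : E ≠ 0 := by
    intro h
    rw [h] at hE
    exact zero_ne_one hE
  by_cases htriv : ∀ g : C, w.ord (algebraMap C M g) = 0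
  · refine ⟨1, (y : M), Or.inr (htriv y).ge, fun D => (one_mul _).symm, ?_, fun p e h => ?_⟩
    · rw [mul_one]
      exact Or.inr (htriv f).ge
    · exfalso
      obtain ⟨t, -, ht⟩ := p.surj
      have h1 := h.2 t
      rw [htriv, ht, mul_one] at h1
      have := h.1
      omega
  · push Not at htriv
    obtain ⟨e, p, hp⟩ := exists_over (K := C) w htriv
    obtain ⟨r, h1, h2⟩ := ratio' (k := k) (K := M) hy (unif p)
    have hr : E (unif p) = r := by rw [h1, hE, mul_one]
    have hr0 : r ≠ 0 := by
      rw [← hr]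
      exact der_pi_ne_zero hE0 p (ord_unif p)
    have hrM : (algebraMap C M r) ≠ 0 := by simpa using hr0
    refine ⟨(algebraMap C M r)⁻¹, algebraMap C M (unif p), ?_, fun D => ?_, ?_, fun p' e' h => ?_⟩
    · exact hp.reg.2 (Or.inr (by rw [ord_unif]; norm_num))
    · rw [h2 D, ← mul_assoc, inv_mul_cancel₀ hrM, one_mul]
      rfl
    · have h3 : (f : M) * (algebraMap C M r)⁻¹ = algebraMap C M (f * r⁻¹) := by
        rw [map_mul, map_inv₀]
        rfl
      rw [h3]
      refine hp.reg.2 ?_
      by_cases hf0 : f = 0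
      · rw [hf0, zero_mul]
        exact Or.inl rfl
      right
      rw [p.ord_mul hf0 (inv_ne_zero hr0), p.ord_inv, ← hr]
      have h4 := (hf p).resolve_left hf0
      have h5 : vo p E = p.ord (E (unif p)) := rfl
      omega
    · obtain ⟨rfl, rfl⟩ := Pool.Agent.W619.PQ.over_unique' hp h
      rw [hp.2, ord_unif, mul_one]

section

variable {s : ℕ} {d : Fin s → ℕ} (F : Fin s → IntermediateField k M)

/-- factorisation at a place, with given parameters -/
theorem wdg_factor' (y : ∀ i, Fin (d i) → F i) (f : ∀ i, F i)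
    (Z : ∀ i, Matrix (Fin (d i)) (Fin (d i)) M) (z : ∀ i, Fin (d i) → M)
    (hZ : ∀ i (D : Derivation k M M) l, D (y i l : M) = ∑ c, Z i l c * D (z i c))
    (D : Fin (∑ i, d i) → Derivation k M M) :
    wdg F y f D = (∏ i, ((f i : M) * (Z i).det)) *
      (Matrix.of fun a b => D a (z (finSigmaFinEquiv.symm b).1 (finSigmaFinEquiv.symm b).2)).det := by
  classical
  unfold wdg
  have h1 : (Matrix.of fun a b => D a (coords F y b)) =
      (Matrix.of fun a b => D a (z (finSigmaFinEquiv.symm b).1 (finSigmaFinEquiv.symm b).2)) *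
        ((Matrix.blockDiagonal' Z).submatrix finSigmaFinEquiv.symm
          finSigmaFinEquiv.symm).transpose := by
    ext a b
    rw [Matrix.of_apply, Matrix.mul_apply]
    obtain ⟨⟨i, l⟩, rfl⟩ := (finSigmaFinEquiv (n := d)).surjective b
    unfold coords
    rw [Equiv.symm_apply_apply]
    rw [← (finSigmaFinEquiv (n := d)).sum_comp]
    rw [Fintype.sum_sigma, Finset.sum_eq_single i]
    · rw [hZ]
      refine Finset.sum_congr rfl fun c _ => ?_
      rw [Matrix.of_apply, Matrix.transpose_apply, Matrix.submatrix_apply,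
        Equiv.symm_apply_apply, Equiv.symm_apply_apply, Matrix.blockDiagonal'_apply_eq]
      ring
    · intro j _ hj
      refine Finset.sum_eq_zero fun c _ => ?_
      rw [Matrix.transpose_apply, Matrix.submatrix_apply,
        Equiv.symm_apply_apply, Equiv.symm_apply_apply,
        Matrix.blockDiagonal'_apply_ne _ _ _ (Ne.symm hj), mul_zero]
    · intro h
      exact absurd (Finset.mem_univ i) h
  rw [h1, Matrix.det_mul, Matrix.det_transpose, Matrix.det_submatrix_equiv_self, det_block,
    Finset.prod_mul_distrib]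
  ring

/-- the vanishing on logarithmic vector fields -/
theorem wdg_log (y : ∀ i, Fin (d i) → F i) (f : ∀ i, F i) (w : Place k M) (κ : Fin s → ℤ)
    (h : ∀ i, ∃ (Z : Matrix (Fin (d i)) (Fin (d i)) M) (z : Fin (d i) → M),
      (∀ (D : Derivation k M M) l, D (y i l : M) = ∑ c, Z l c * D (z c)) ∧
      Ge w 0 ((f i : M) * Z.det) ∧ (∀ c, w.Reg (z c)) ∧ (κ i = 0 ∨ d i = 1 ∧
        ∀ c, κ i ≤ w.ord (z c)))
    (D : Fin (∑ i, d i) → Derivation k M M) (hD : ∀ a, DerLog w (D a)) :
    Ge w (∑ i, κ i) (wdg F y f D) := by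
  classical
  choose Z z hZ hA hz hκ using h
  rw [wdg_factor' F y f Z z hZ D]
  have h1 : Ge w 0 (∏ i, ((f i : M) * (Z i).det)) := by
    have h1 : Ge w (∑ _i : Fin s, (0 : ℤ)) (∏ i, ((f i : M) * (Z i).det)) :=
      Ge.prod _ _ _ fun i _ => hA i
    simpa using h1
  have h2 : Ge w (∑ i, κ i) (Matrix.of fun a b =>
      D a (z (finSigmaFinEquiv.symm b).1 (finSigmaFinEquiv.symm b).2)).det := by
    refine Pool.Agent.W603.LV.ge_det w _ _ (fun _ b => κ (finSigmaFinEquiv.symm b).1)
      (fun a b => ?_) (fun σ => ?_)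
    · rw [Matrix.of_apply]
      refine DerLog.ge (hD a) ?_
      rcases hκ (finSigmaFinEquiv.symm b).1 with h3 | ⟨-, h3⟩
      · rw [h3]
        exact hz _ _
      · exact Or.inr (h3 _)
    · have h3 : ∑ i, κ (finSigmaFinEquiv.symm i).1 = ∑ p : (i : Fin s) × Fin (d i), κ p.1 :=
        Equiv.sum_comp (finSigmaFinEquiv (n := d)).symm fun p => κ p.1
      rw [h3, Fintype.sum_sigma]
      refine Finset.sum_le_sum fun i _ => ?_
      change κ i ≤ ∑ _c : Fin (d i), κ i
      rw [Finset.sum_const, Finset.card_univ, Fintype.card_fin]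
      rcases hκ i with h4 | ⟨h4, -⟩
      · rw [h4, smul_zero]
      · rw [h4, one_smul]
  have h3 := h1.mul h2
  rwa [zero_add] at h3

end

end

end Q36.GV
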