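import Pool.Agent.Q36.GV.Im
import Pool.Agent.Q36.GV.Cu
import Pool.Agent.Q36.HL.Nu

/-!
Upper bounds for the numerical dimension of varieties dominated by products of a variety and curves.
-/

set_option autoImplicit false
set_option linter.overlappingInstances false
set_option linter.unusedSectionVars false

open Polynomial FF IsDedekindDomain IntermediateField
open Pool.Agent.W603.LV Pool.Agent.W619.PQ Pool.Agent.W619.PL
  Pool.Agent.W619.TW Pool.Agent.W619.X Pool.Agent.W619.Y Q36.PT Q36.SD Q36.HB Q36.HL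

namespace Q36.GV

section

variable {k L M : Type} [Field k] [CharZero k] [IsAlgClosed k] [Field L] [Field M]
  [Algebra k L] [Algebra k M] [Algebra L M] [IsScalarTower k L M] [FiniteDimensional L M]
  {d n : ℕ} (Y : IntermediateField k M) [Algebra.EssFiniteType k Y]
  (F : Fin n → IntermediateField k M) [hF : ∀ i, IsFF k (F i)]

theorem ess_of_sup' (hsup : Y ⊔ (⨆ i, F i) = ⊤) : Algebra.EssFiniteType k M := by
  have h1 : (⨆ i, F i).FG := fg_iSup fun j => essFiniteType_iff.1 (IsFF.ess)
  have h2 : Y.FG := essFiniteType_iff.1 inferInstance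
  have h3 : (⊤ : IntermediateField k M).FG := by
    rw [← hsup]
    exact fg_sup h2 h1
  have h4 : Algebra.EssFiniteType k (⊤ : IntermediateField k M) := essFiniteType_iff.2 h3
  exact Algebra.EssFiniteType.of_surjective (IntermediateField.topEquiv : _ ≃ₐ[k] M).toAlgHom
    IntermediateField.topEquiv.surjective

/-- **The upper bound for the numerical dimension.** -/
theorem num_domV (hY : Algebra.trdeg k Y = d) (hnM : Algebra.trdeg k M = (d + n : ℕ))
    (hsup : Y ⊔ (⨆ i, F i) = ⊤) (BY : Place k Y → Prop)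
    (S : ∀ i, Finset (Place k (F i))) (hnn : ∀ i, 0 ≤ canDeg k (F i) + (S i).card)
    (Bd : Place k L → Prop) (hBd : ∀ (w : Place k M) (v : Place k L) (e : ℕ),
      IsDivisorial w (d + n) → Over w v e → Bd v → BdMany Y F BY (fun i p => p ∈ S i) w)
    {a : ℕ} (ha : NumLe k Y d BY a) :
    NumLe k L (d + n) Bd
      (a + (Finset.univ.filter fun i => 0 < canDeg k (F i) + (S i).card).card) := by
  classical
  have hessM : Algebra.EssFiniteType k M := ess_of_sup' Y F hsup
  have hessL : Algebra.EssFiniteType k L := ess_below (K := M)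
  have hn : Algebra.trdeg k L = (d + n : ℕ) := trdeg_below (K := M) hnM
  have hfin : ∀ i, {p | p ∈ S i}.Finite := fun i => (S i).finite_toSet
  have hcard : ∀ i, {p | p ∈ S i}.ncard = (S i).card := fun i => Set.ncard_coe_finset (S i)
  obtain ⟨-, -, -, h4⟩ := pMANYB k M d n Y F BY (fun i p => p ∈ S i) hY hnM hsup hfin
  have h5 := h4 a (fun i => by rw [hcard]; exact hnn i) ha
  have h6 : {i | canDeg k (F i) + ({p | p ∈ S i}.ncard : ℤ) ≠ 0}.ncard =
      (Finset.univ.filter fun i => 0 < canDeg k (F i) + (S i).card).card := by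
    rw [← Set.ncard_coe_finset]
    congr 1
    ext i
    simp only [Finset.coe_filter, Finset.mem_univ, true_and, Set.mem_ofPred_eq]
    rw [hcard]
    have := hnn i
    omega
  rw [h6] at h5
  obtain ⟨-, -, h7⟩ := pTRANS k L M (d + n) hn (fun y hy => fin_over y hy) Bd
  refine h7 _ (numLe_div ?_)
  refine le_mono (fun w hw => ?_) h5
  obtain ⟨⟨v, e, hwv, hv⟩, hd⟩ := hw
  exact hBd w v e hd hwv hv

/-- The case without boundary. -/
theorem num_domV0 (hY : Algebra.trdeg k Y = d) (hnM : Algebra.trdeg k M = (d + n : ℕ))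
    (hsup : Y ⊔ (⨆ i, F i) = ⊤) (hirr : ∀ i, ¬ ∃ t : F i, k⟮t⟯ = ⊤)
    {a : ℕ} (ha : NumLe k Y d (fun _ => False) a) :
    NumLe k L (d + n) (fun _ => False) (a + {i | ¬ IsElliptic (F i)}.ncard) := by
  classical
  have h1 := num_domV (L := L) Y F hY hnM hsup (fun _ => False) (fun i => ∅)
    (fun i => by simpa using canDeg_nonneg (hirr i)) (fun _ => False)
    (fun w v e _ _ h => absurd h id) ha
  simp only [Finset.card_empty, Nat.cast_zero, add_zero] at h1
  rw [ncard_elliptic F hirr] at h1
  exact h1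

/-- Pseudo-effectivity. -/
theorem psef_domV (hY : Algebra.trdeg k Y = d) (hnM : Algebra.trdeg k M = (d + n : ℕ))
    (hsup : Y ⊔ (⨆ i, F i) = ⊤) (h : IsPsef k L (d + n) (fun _ => False)) :
    IsPsef k Y d (fun _ => False) ∧ ∀ i, ¬ ∃ t : F i, k⟮t⟯ = ⊤ := by
  classical
  have hessM : Algebra.EssFiniteType k M := ess_of_sup' Y F hsup
  have hessL : Algebra.EssFiniteType k L := ess_below (K := M)
  have hn : Algebra.trdeg k L = (d + n : ℕ) := trdeg_below (K := M) hnM
  obtain ⟨h1, -, -⟩ := pTRANS k L M (d + n) hn (fun y hy => fin_over y hy) (fun _ => False)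
  have h2 := h1 h
  have hbd : BdUp (k := k) (K := L) (L := M) (fun _ => False) = fun _ => False := by
    funext w
    simp [BdUp]
  have hbd2 : BdMany Y F (fun _ => False) (fun _ _ => False) = fun _ => False := by
    funext w
    simp [BdMany]
  rw [hbd] at h2
  obtain ⟨h3, -, h4, -⟩ := pMANYB k M d n Y F (fun _ => False) (fun _ _ => False) hY hnM hsup
    (fun i => by simp)
  rw [hbd2] at h3 h4
  refine ⟨h3 h2, fun i hi => (h4 ⟨i, ?_⟩).1 h2⟩
  obtain ⟨t, ht⟩ := hi
  rw [canDeg_rational ht]
  simp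

/-- Numerical dimension `-∞`. -/
theorem neg_domV (hY : Algebra.trdeg k Y = d) (hnM : Algebra.trdeg k M = (d + n : ℕ))
    (hsup : Y ⊔ (⨆ i, F i) = ⊤)
    (h : NumNeg k Y d (fun _ => False) ∨ ∃ i, ∃ t : F i, k⟮t⟯ = ⊤) :
    NumNeg k L (d + n) (fun _ => False) := by
  classical
  have hessM : Algebra.EssFiniteType k M := ess_of_sup' Y F hsup
  have hessL : Algebra.EssFiniteType k L := ess_below (K := M)
  have hn : Algebra.trdeg k L = (d + n : ℕ) := trdeg_below (K := M) hnM
  obtain ⟨-, h1, -⟩ := pTRANS k L M (d + n) hn (fun y hy => fin_over y hy) (fun _ => False)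
  have hbd : BdUp (k := k) (K := L) (L := M) (fun _ => False) = fun _ => False := by
    funext w
    simp [BdUp]
  have hbd2 : BdMany Y F (fun _ => False) (fun _ _ => False) = fun _ => False := by
    funext w
    simp [BdMany]
  rw [hbd] at h1
  obtain ⟨-, h3, h4, -⟩ := pMANYB k M d n Y F (fun _ => False) (fun _ _ => False) hY hnM hsup
    (fun i => by simp)
  rw [hbd2] at h3 h4
  refine h1 ?_
  rcases h with h | ⟨i, t, ht⟩
  · exact h3 h
  · refine (h4 ⟨i, ?_⟩).2
    rw [canDeg_rational ht]
    simp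

end

end Q36.GV
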