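import Pool.Agent.Q36.GV.In
import Pool.Agent.W619.TW.Span

/-!
Pairs dominated by products: the lower bound for the Kodaira dimension.
-/

set_option autoImplicit false
set_option linter.overlappingInstances false
set_option linter.unusedSectionVars false

open Polynomial FF IsDedekindDomain IntermediateField
open Pool.Agent.W602.GT Pool.Agent.W603.LV Pool.Agent.W619.PQ Pool.Agent.W619.TW
  Pool.Agent.W619.Y Q36.PT Q36.SD Q36.HB

namespace Q36.GV

section

variable {k L M : Type} [Field k] [CharZero k] [IsAlgClosed k] [Field L] [Field M]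
  [Algebra k L] [Algebra k M] [Algebra L M] [IsScalarTower k L M] [FiniteDimensional L M]
  [Algebra.EssFiniteType k L] {s : ℕ} {d : Fin s → ℕ} (F : Fin s → IntermediateField k M)
  [∀ i, Algebra.EssFiniteType k (F i)]

/-- `z` is a quotient of two regular canonical forms. -/
def IsRatio {K : Type} [Field K] [Algebra k K] (n : ℕ) (z : K) : Prop :=
  ∃ η η' : (Fin n → Derivation k K K) → K,
    IsPluriForm k K n 1 η ∧ (∀ u : Place k K, IsDivisorial u n → RegularAt u n η) ∧
    IsPluriForm k K n 1 η' ∧ (∀ u : Place k K, IsDivisorial u n → RegularAt u n η') ∧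
    ∃ G, η G ≠ 0 ∧ z = η' G / η G

/-- the lower bound for the Kodaira dimension of a pair, general factors -/
theorem pkodV (hnM : Algebra.trdeg k M = (∑ i, d i : ℕ))
    (halg : Algebra.IsAlgebraic ↥(⨆ i, F i) M) (hd : ∀ i, Algebra.trdeg k (F i) = d i)
    {m : Fin s → ℕ} (hm1 : ∀ i, 1 ≤ m i) (hV : ∀ i, CanSepJ k (F i) (d i) (m i))
    (B : Finset (Fin s))
    (hB : ∀ i ∈ B, 2 * Module.finrank L (IntermediateField.adjoin L (F i : Set M)) ≤ m i)
    (hQ : ∀ Q : Finset (Fin s), Disjoint Q B →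
      Module.finrank (IntermediateField.adjoin L {z : M | ∃ j, j ∉ Q ∧ z ∈ F j}) M = 1 ∨
      2 * Module.finrank (IntermediateField.adjoin L {z : M | ∃ j, j ∉ Q ∧ z ∈ F j}) M ≤
        1 + ∑ j ∈ Q, (m j - 1))
    (δ : Place k L → ℝ) (hδ0 : ∀ v, 0 ≤ δ v)
    {b : Fin s → ℕ} {x : ∀ i, Fin (b i) → F i} (hx : ∀ i, AlgebraicIndependent k (x i))
    (hxl : ∀ i l, IsRatio (k := k) (d i) (x i l) ∨ ∀ q : ℕ, ∃ C : ℕ, ∀ v : Place k L,
      IsDivisorial v (∑ i, d i) →
        -(C * δ v) ≤ (v.ord (Algebra.trace L M ((x i l : M) ^ q)) : ℝ)) :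
    PKodGe k L (∑ i, d i) δ (∑ i, b i) := by
  classical
  have hn : Algebra.trdeg k L = (∑ i, d i : ℕ) := trdeg_below (K := M) hnM
  choose u hu g hg hgx using fun i => extend_basis (hd i) (hx i)
  let H : Finset (Fin (∑ i, d i)) :=
    Finset.univ.image fun p : (i : Fin s) × Fin (b i) => finSigmaFinEquiv ⟨p.1, g p.1 p.2⟩
  have hHc : H.card = ∑ i, b i := by
    rw [Finset.card_image_of_injective]
    · rw [Finset.card_univ, Fintype.card_sigma]
      simp
    · rintro ⟨i, l⟩ ⟨j, l'⟩ h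
      have h1 := finSigmaFinEquiv.injective h
      simp only [Sigma.mk.injEq] at h1
      obtain ⟨h2, h3⟩ := h1
      subst h2
      have h4 := hg i (eq_of_heq h3)
      rw [h4]
  let A0 : Set L := {z | ∃ C : ℕ, ∀ v : Place k L, IsDivisorial v (∑ i, d i) →
    -(C * δ v) ≤ (v.ord z : ℝ)}
  obtain ⟨ω0, E, hω0, hE, z, hz, hzl⟩ := indepV F hnM halg hd hm1 hV B hB hQ A0 u hu H
    (fun D D' hD hA hr c hc => by
      obtain ⟨⟨i, l⟩, -, rfl⟩ := Finset.mem_image.1 hc
      have h5 : coords F u (finSigmaFinEquiv ⟨i, g i l⟩) = (x i l : M) := by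
        unfold coords
        rw [Equiv.symm_apply_apply]
        change ((u i (g i l) : F i) : M) = _
        rw [hgx]
      rw [h5]
      rcases hxl i l with ⟨η, η', h1, h2, h3, h4, G, hG, h6⟩ | h1
      · rw [h6]
        exact hr i η η' h1 h2 h3 h4 G hG
      · exact der_of_traces hn D D' hD _ fun q => hA _ (h1 q))
  rw [← hHc]
  exact pkod_of_indep δ hδ0 hω0 hE hz fun l => (hzl l).imp id id

end

section

variable {k L M : Type} [Field k] [CharZero k] [IsAlgClosed k] [Field L] [Field M]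
  [Algebra k L] [Algebra k M] [Algebra L M] [IsScalarTower k L M] [FiniteDimensional L M]
  {d n : ℕ} (F : Fin (n + 1) → IntermediateField k M) [hess0 : Algebra.EssFiniteType k (F 0)]
  [hF : ∀ i : Fin n, IsFF k (F i.succ)]

/-- The pull back of the divisor contains a positive multiple of the pull back of a point of
the curve. -/
def HasFibre (N : ℕ) (δ : Place k L → ℝ) (C : IntermediateField k M) : Prop :=
  ∃ p : Place k C, ∃ ε : ℝ, 0 < ε ∧ ∀ (w : Place k M) (v : Place k L) (e : ℕ),
    IsDivisorial w N → Over w v e → ε * pm w p ≤ e * δ v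

/-- the ratios of an `ImageGe` -/
theorem ratio_of_image {K : Type} [Field K] [Algebra k K] {n a : ℕ}
    (h : ImageGe k K n (fun _ => False) 1 a) :
    ∃ x : Fin a → K, AlgebraicIndependent k x ∧ ∀ l, IsRatio (k := k) n (x l) := by
  obtain ⟨η, hη, G, hG, hx⟩ := h
  exact ⟨_, hx, fun l => ⟨η 0, η l.succ, (reg_of_sec (hη 0)).1, (reg_of_sec (hη 0)).2,
    (reg_of_sec (hη l.succ)).1, (reg_of_sec (hη l.succ)).2, G, hG 0, rfl⟩⟩

/-- a function with a pole at one point only -/
theorem pole_pm {C : IntermediateField k M} [IsFF k C] (p : Place k C) :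
    ∃ x : C, Transcendental k x ∧ ∃ m0 : ℕ, ∀ w : Place k M,
      -((m0 * pm w p : ℕ) : ℤ) ≤ w.ord (x : M) := by
  obtain ⟨x, hx1, hx2⟩ := exists_unique_pole p
  refine ⟨x, p.transcendental_of_ord_ne (by omega), (-p.ord x).toNat, fun w => ?_⟩
  by_cases htriv : ∀ g : C, w.ord (algebraMap C M g) = 0
  · have h1 : w.ord (x : M) = 0 := htriv x
    rw [h1]
    exact neg_nonpos.2 (by positivity)
  · push Not at htriv
    obtain ⟨e, q, hq⟩ := exists_over (K := C) w htriv
    have h1 : w.ord (x : M) = e * q.ord x := hq.2 x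
    rw [h1]
    by_cases hqp : q = p
    · subst hqp
      rw [pm_eq hq]
      push_cast
      rw [Int.toNat_of_nonneg (by omega)]
      have : -(-q.ord x * (e : ℤ)) = e * q.ord x := by ring
      rw [this]
    · have h2 := hx2 q hqp
      have h3 : (0 : ℤ) ≤ e * q.ord x := by positivity
      have h4 : (0 : ℤ) ≤ (((-p.ord x).toNat * pm w p : ℕ) : ℤ) := by positivity
      omega

/-- **The lower bound for the Kodaira dimension of a pair.** -/
theorem pkodYC [Algebra.EssFiniteType k L] (hY : Algebra.trdeg k (F 0) = d)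
    (hnM : Algebra.trdeg k M = (d + n : ℕ))
    (halg : Algebra.IsAlgebraic ↥(⨆ i, F i) M) {c : Fin (n + 1) → ℕ}
    (hc : c 0 = 0 ∨ CanSepJ k (F 0) d (c 0 + 1)) {a : ℕ}
    (ha : ImageGe k (F 0) d (fun _ => False) 1 a)
    (hγ : ∀ i : Fin n, ∀ b : F i.succ, Transcendental k b →
      c i.succ + 2 ≤ Module.finrank k⟮b⟯ (F i.succ))
    (B : Finset (Fin (n + 1)))
    (hB : ∀ i ∈ B, 2 * Module.finrank L (IntermediateField.adjoin L (F i : Set M)) ≤ c i + 1)
    (hQ : ∀ Q : Finset (Fin (n + 1)), Disjoint Q B →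
      Module.finrank (IntermediateField.adjoin L {z : M | ∃ j, j ∉ Q ∧ z ∈ F j}) M = 1 ∨
      2 * Module.finrank (IntermediateField.adjoin L {z : M | ∃ j, j ∉ Q ∧ z ∈ F j}) M ≤
        1 + ∑ j ∈ Q, c j)
    (δ : Place k L → ℝ) (hδ0 : ∀ v, 0 ≤ δ v) :
    PKodGe k L (d + n) δ
      (a + {i : Fin n | ¬ IsElliptic (F i.succ) ∨ HasFibre (d + n) δ (F i.succ)}.ncard) := by
  classical
  have hess : ∀ i, Algebra.EssFiniteType k (F i) := ess_all F
  have hpos : PlurigenusPos k (F 0) d 1 := by
    obtain ⟨ω, h1, D, h2, -⟩ := ha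
    exact ⟨ω 0, (reg_of_sec (h1 0)).1, (reg_of_sec (h1 0)).2, D, h2 0⟩
  have h2γ : ∀ i : Fin n, ∀ b : F i.succ, Transcendental k b →
      2 ≤ Module.finrank k⟮b⟯ (F i.succ) := fun i b hb => le_trans (by omega) (hγ i b hb)
  have hirr : ∀ i : Fin n, ¬ ∃ t : F i.succ, k⟮t⟯ = ⊤ := fun i => irr_of_gon (h2γ i)
  -- the functions on the factors
  have hsd := sum_dims (d := d) (n := n)
  have hex : ∀ i : Fin (n + 1), ∃ x : Fin ((Fin.cons a (fun i : Fin n =>
      if ¬ IsElliptic (F i.succ) ∨ HasFibre (d + n) δ (F i.succ) then 1 else 0) :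
        Fin (n + 1) → ℕ) i) → F i, AlgebraicIndependent k x ∧ ∀ l,
      IsRatio (k := k) ((Fin.cons d (fun _ => 1) : Fin (n + 1) → ℕ) i) (x l) ∨
      ∀ q : ℕ, ∃ C : ℕ, ∀ v : Place k L, IsDivisorial v (d + n) →
        -(C * δ v) ≤ (v.ord (Algebra.trace L M ((x l : M) ^ q)) : ℝ) := by
    intro i
    refine Fin.cases ?_ (fun i => ?_) i
    · rw [Fin.cons_zero, Fin.cons_zero]
      obtain ⟨x, hx, hxl⟩ := ratio_of_image ha
      exact ⟨x, hx, fun l => Or.inl (hxl l)⟩
    · rw [Fin.cons_succ, Fin.cons_succ]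
      by_cases hT : ¬ IsElliptic (F i.succ) ∨ HasFibre (d + n) δ (F i.succ)
      · rw [if_pos hT]
        by_cases hel : IsElliptic (F i.succ)
        · obtain ⟨p, ε, hε, h1⟩ := hT.resolve_left fun h => h hel
          obtain ⟨x, hx, m0, hm0⟩ := pole_pm (k := k) (M := M) p
          refine ⟨fun _ => x, ?_, fun l => Or.inr fun q => ?_⟩
          · rw [algebraicIndependent_unique_type_iff]
            exact hx
          · exact trace_pole p (x : M) m0 hm0 δ hδ0 hε h1 q
        · have h1 := image_curve (F := F i.succ)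
            (by rw [IsFF.trdeg (k := k) (K := F i.succ)]; simp) (h2γ i)
          have h2 : 0 < canDeg k (F i.succ) := canDeg_pos (hirr i) hel
          rw [if_pos h2] at h1
          obtain ⟨x, hx, hxl⟩ := ratio_of_image h1
          exact ⟨x, hx, fun l => Or.inl (hxl l)⟩
      · rw [if_neg hT]
        refine ⟨fun l => l.elim0, ?_, fun l => l.elim0⟩
        rw [algebraicIndependent_empty_type_iff]
        exact (algebraMap k (F i.succ)).injective
  choose x hx hxl using hex
  have h1 := pkodV (L := L) (d := (Fin.cons d (fun _ => 1) : Fin (n + 1) → ℕ)) F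
    (by rw [sum_dims]; exact hnM) halg (trd_all F hY) (m := fun i => c i + 1)
    (fun i => Nat.le_add_left 1 _) (fun i => by
      refine Fin.cases ?_ (fun i => ?_) i
      · rw [Fin.cons_zero]
        rcases hc with hc | hc
        · rw [hc]
          exact sep_one hpos
        · exact hc
      · rw [Fin.cons_succ]
        refine sep_curve fun b hb => ?_
        have := hγ i b hb
        omega)
    B hB (fun Q hQB => by
      have h3 : ∑ j ∈ Q, (c j + 1 - 1) = ∑ j ∈ Q, c j :=
        Finset.sum_congr rfl fun j _ => Nat.add_sub_cancel _ _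
      rw [h3]
      exact hQ Q hQB) δ hδ0 hx (fun i l => by
        rw [sum_dims]
        exact hxl i l)
  rw [sum_dims, Fin.sum_univ_succ] at h1
  simp only [Fin.cons_zero, Fin.cons_succ, Finset.sum_boole, Nat.cast_id] at h1
  have h2 : {i : Fin n | ¬ IsElliptic (F i.succ) ∨ HasFibre (d + n) δ (F i.succ)}.ncard =
      (Finset.univ.filter fun i : Fin n =>
        ¬ IsElliptic (F i.succ) ∨ HasFibre (d + n) δ (F i.succ)).card := by
    rw [← Set.ncard_coe_finset]
    congr 1
    ext i
    simp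
  rw [h2]
  exact h1

end

end Q36.GV
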