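import Pool.Agent.Q36.GV.Pa

/-!
Pairs dominated by products: the upper bound for the numerical dimension.
-/

set_option autoImplicit false
set_option linter.overlappingInstances false
set_option linter.unusedSectionVars false

open Polynomial FF IsDedekindDomain IntermediateField
open Pool.Agent.W602.GT Pool.Agent.W603.LV Pool.Agent.W619.PQ Pool.Agent.W619.TW
  Pool.Agent.W619.Y Q36.PT Q36.SD Q36.HB Q36.HL

namespace Q36.GV

section

variable {k L M : Type} [Field k] [CharZero k] [IsAlgClosed k] [Field L] [Field M]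
  [Algebra k L] [Algebra k M] [Algebra L M] [IsScalarTower k L M] [FiniteDimensional L M]
  {d n : ℕ} (F : Fin (n + 1) → IntermediateField k M) [hess0 : Algebra.EssFiniteType k (F 0)]
  [hF : ∀ i : Fin n, IsFF k (F i.succ)]

/-- the numerical dimension of the product with a reduced boundary -/
theorem numM (hY : Algebra.trdeg k (F 0) = d) (hnM : Algebra.trdeg k M = (d + n : ℕ))
    (hsup : ⨆ i, F i = ⊤) (S : ∀ i : Fin n, Finset (Place k (F i.succ)))
    (hirr : ∀ i : Fin n, ¬ ∃ t : F i.succ, k⟮t⟯ = ⊤) {a : ℕ}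
    (ha : NumLe k (F 0) d (fun _ => False) a) :
    NumLe k M (d + n) (fun w => ∃ (i : Fin n) (p : Place k (F i.succ)), p ∈ S i ∧ pm w p ≠ 0)
      (a + {i : Fin n | ¬ IsElliptic (F i.succ) ∨ (S i).Nonempty}.ncard) := by
  classical
  have hfin : ∀ i, {p | p ∈ S i}.Finite := fun i => (S i).finite_toSet
  have hcard : ∀ i, {p | p ∈ S i}.ncard = (S i).card := fun i => Set.ncard_coe_finset (S i)
  obtain ⟨-, -, -, h4⟩ := pMANYB k M d n (F 0) (fun i : Fin n => F i.succ) (fun _ => False)
    (fun i p => p ∈ S i) hY hnM (sup_succ F hsup) hfin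
  have h5 := h4 a (fun i => by
    rw [hcard]
    have := canDeg_nonneg (hirr i)
    positivity) ha
  have h6 : {i : Fin n | canDeg k (F i.succ) + ({p | p ∈ S i}.ncard : ℤ) ≠ 0} =
      {i : Fin n | ¬ IsElliptic (F i.succ) ∨ (S i).Nonempty} := by
    ext i
    simp only [Set.mem_ofPred_eq]
    rw [hcard, ← Finset.card_pos]
    have h7 := canDeg_nonneg (hirr i)
    constructor
    · intro h8
      by_contra h9
      push Not at h9
      have h10 := canDeg_elliptic h9.1
      omega
    · rintro (h8 | h8)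
      · have := canDeg_pos (hirr i) h8
        omega
      · omega
  rw [h6] at h5
  refine le_mono (fun w hw => ?_) h5
  obtain ⟨i, p, hp, hpm⟩ := hw
  exact Or.inr ⟨i, p, _, over_of_pm hpm, hp⟩

/-- **The upper bound for the numerical dimension of a pair.** -/
theorem pnumYC [Algebra.EssFiniteType k L] (hY : Algebra.trdeg k (F 0) = d)
    (hnM : Algebra.trdeg k M = (d + n : ℕ)) (hsup : ⨆ i, F i = ⊤)
    (hpos : PlurigenusPos k (F 0) d 1) (hirr : ∀ i : Fin n, ¬ ∃ t : F i.succ, k⟮t⟯ = ⊤)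
    {a : ℕ} (ha : NumLe k (F 0) d (fun _ => False) a)
    (S : ∀ i : Fin n, Finset (Place k (F i.succ))) (δ : Place k L → ℝ)
    (A : ℕ) (hδ : ∀ (w : Place k M) (v : Place k L) (e : ℕ), IsDivisorial w (d + n) →
      Over w v e → (e : ℝ) * δ v ≤ A * (∑ i, ∑ p ∈ S i, pm w p : ℕ)) :
    PNumLe k L (d + n) δ
      (a + {i : Fin n | ¬ IsElliptic (F i.succ) ∨ (S i).Nonempty}.ncard) := by
  classical
  have hess : ∀ i, Algebra.EssFiniteType k (F i) := ess_all F
  have hn : Algebra.trdeg k L = (d + n : ℕ) := trdeg_below (K := M) hnM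
  have hd := trd_all F hY
  choose t D ht hD using fun i => Pool.Agent.Y172.exists_crd (hd i)
  -- the forms on the factors
  obtain ⟨η, hη1, hη2, G0, hG0⟩ := hpos
  have hη0 : η (D 0) ≠ 0 := by
    intro h
    have h4 := Pool.Agent.Y172.pluri_coord (ht 0) (hD 0) hη1 G0
    rw [h, mul_zero] at h4
    exact hG0 h4
  have ht1 : ∀ i : Fin n, ∃ y : Fin 1 → F i.succ, t i.succ = y := fun i => ⟨t i.succ, rfl⟩
  have hD1 : ∀ i : Fin n, ∃ E : Fin 1 → Derivation k (F i.succ) (F i.succ), D i.succ = E :=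
    fun i => ⟨D i.succ, rfl⟩
  choose y1 hy1 using ht1
  choose E1 hE1 using hD1
  have hb1 : ∀ i : Fin n, IsTranscendenceBasis k (y1 i) := fun i => by
    rw [← hy1]
    exact ht i.succ
  have hd1 : ∀ (i : Fin n) (a b : Fin 1), E1 i a (y1 i b) = if a = b then 1 else 0 := fun i => by
    rw [← hy1, ← hE1]
    exact hD i.succ
  have hDs : ∀ i : Fin n, E1 i 0 ≠ 0 := by
    intro i h
    have h1 := hd1 i 0 0
    rw [h, if_pos rfl] at h1
    exact zero_ne_one h1
  choose g hg0 hg using fun i : Fin n => exists_regular (hirr i) (hDs i)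
  have hgreg : ∀ i : Fin n, RegDiff (E1 i 0) (g i) := fun i Q => Or.inr (hg i Q)
  let f : ∀ i, F i := Fin.cons (η (D 0)) g
  have hf0 : ∀ i, f i ≠ 0 := by
    intro i
    refine Fin.cases ?_ (fun i => ?_) i
    · exact hη0
    · exact hg0 i
  have hfc : ∀ i, f i ∈ CanF k ((Fin.cons d (fun _ => 1) : Fin (n + 1) → ℕ) i) (D i) := by
    intro i
    refine Fin.cases ?_ (fun i => ?_) i
    · exact ⟨η, hη1, hη2, rfl⟩
    · have h1 := canF_curve (hb1 i) (hd1 i) (hgreg i)
      rw [← hE1] at h1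
      exact h1
  have hnM' : Algebra.trdeg k M =
      (∑ i, (Fin.cons d (fun _ => 1) : Fin (n + 1) → ℕ) i : ℕ) := by rw [sum_dims]; exact hnM
  have hbt : IsTranscendenceBasis k (coords F t) :=
    coords_basis F hnM' (alg_of_sup' F hsup) t ht
  -- the form
  have hmain : ∀ N : ℕ, ∑ i, (Fin.cons d (fun _ => 1) : Fin (n + 1) → ℕ) i = N →
      N = d + n →
      PNumLe k L N δ (a + {i : Fin n | ¬ IsElliptic (F i.succ) ∨ (S i).Nonempty}.ncard) := by
    intro N hN hN2
    subst hN
    have hn' : Algebra.trdeg k L =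
        (∑ i, (Fin.cons d (fun _ => 1) : Fin (n + 1) → ℕ) i : ℕ) := by rw [hn, sum_dims]
    refine pnum_le (M := M) hn'
      (fun w => ∃ (i : Fin n) (p : Place k (F i.succ)), p ∈ S i ∧ pm w p ≠ 0)
      (wdg F t f) (wdg_pluri F t f) (fun Q hQ => wdg_reg' F hd hnM' ht hD hfc Q hQ) ?_ δ (A + 1)
      (Nat.le_add_left 1 A) (fun w v e hw hwv => ⟨fun hB => ?_, fun hB Dl hDl => ?_⟩) ?_
    · obtain ⟨y, E, hy, hE⟩ := Pool.Agent.Y172.exists_crd (k := k) (K := L) hn'
      choose E' hE' using fun i => Pool.Agent.Y172.exists_lift (L := M) hn' (E i)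
      have hEd := Pool.Agent.Y172.lift_dual hE hE'
      refine ⟨E', mul_ne_zero (Finset.prod_ne_zero_iff.2 fun i _ h => hf0 i (Subtype.ext h))
        (jac_ne hbt hEd)⟩
    · rw [hN2] at hw
      have h1 := hδ w v e hw hwv
      have h2 : ∑ i, ∑ p ∈ S i, pm w p = 0 := by
        refine Finset.sum_eq_zero fun i _ => Finset.sum_eq_zero fun p hp => ?_
        by_contra h3
        exact hB ⟨i, p, hp, h3⟩
      rw [h2] at h1
      simpa using h1
    · have h1 := hδ w v e (by rw [hN2] at hw; exact hw) hwv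
      have h2 : Ge w (∑ i, (Fin.cons (0 : ℤ) (fun i : Fin n => ((∑ p ∈ S i, pm w p : ℕ) : ℤ)) :
          Fin (n + 1) → ℤ) i) (wdg F t f Dl) := by
        refine wdg_log F t f w _ (fun i => ?_) Dl hDl
        refine Fin.cases ?_ (fun i => ?_) i
        · have h4 := pYLOC.{0, 0} k M (F 0) d (d + n) 1 hY hnM
            (fun y hy => Pool.Agent.Y172.fd_basis hy) η hη1 hη2 (t 0) (D 0) (ht 0) (hD 0) w
            (by rw [hN2] at hw; exact hw)
          obtain ⟨Z, z, hz, hZ, hA⟩ := h4
          rw [pow_one] at hA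
          exact ⟨Z, z, hZ, hA, hz, Or.inl rfl⟩
        · obtain ⟨Z, z, hz, hZ, hA, hzo⟩ := ygood_curve ((hb1 i).1.transcendental 0)
            (by rw [hd1, if_pos rfl]) (hgreg i) w
          refine ⟨fun _ _ => Z, fun _ => z, fun D' l => ?_, ?_, fun _ => hz,
            Or.inr ⟨rfl, fun _ => ?_⟩⟩
          · have h5 : ∀ l : Fin 1, D' ((y1 i l : F i.succ) : M) = ∑ c : Fin 1, Z * D' z := by
              intro l
              rw [Fin.sum_univ_one, ← hZ, Subsingleton.elim l 0]
            rw [← hy1] at h5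
            exact h5 l
          · change Ge w 0 ((g i : M) * (Matrix.of fun (_ : Fin 1) (_ : Fin 1) => Z).det)
            rw [Matrix.det_fin_one]
            exact hA
          · exact sum_pm_le (S i) hz hzo
      rw [Fin.sum_univ_succ] at h2
      simp only [Fin.cons_zero, Fin.cons_succ, zero_add] at h2
      rcases h2 with h3 | h3
      · exact Or.inl h3
      · right
        have h4 : ((∑ i, ∑ p ∈ S i, pm w p : ℕ) : ℤ) ≤ w.ord (wdg F t f Dl) := by
          push_cast at h3 ⊢
          exact h3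
        have h5 : ((∑ i, ∑ p ∈ S i, pm w p : ℕ) : ℝ) ≤ w.ord (wdg F t f Dl) := by
          exact_mod_cast h4
        have h6 : (0 : ℝ) ≤ (∑ i, ∑ p ∈ S i, pm w p : ℕ) := by positivity
        have h7 : (A : ℝ) * (∑ i, ∑ p ∈ S i, pm w p : ℕ) ≤ A * w.ord (wdg F t f Dl) :=
          mul_le_mul_of_nonneg_left h5 (by positivity)
        push_cast at h1 h5 h6 h7 ⊢
        linarith
    · rw [hN2]
      exact numM F hY hnM hsup S hirr ha
  have h1 := hmain _ rfl sum_dims
  rw [sum_dims] at h1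
  exact h1

end

end Q36.GV
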