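import Pool.Agent.Q36.GV.Pu

/-!
Functions with poles in the boundary, and lower bounds for the Kodaira dimension of pairs.
-/

set_option autoImplicit false
set_option linter.overlappingInstances false
set_option linter.unusedSectionVars false

open Polynomial FF IsDedekindDomain IntermediateField
open Pool.Agent.W602.GT Pool.Agent.W603.LV Pool.Agent.W619.PQ Pool.Agent.W619.TW
  Pool.Agent.W619.Y Q36.PT Q36.SD Q36.HB

namespace Q36.GV

open scoped Classical in
/-- The multiplicity along `w` of the pull back of the point `p`. -/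
noncomputable def pm {k M : Type} [Field k] [Field M] [Algebra k M] (w : Place k M)
    {C : IntermediateField k M} (p : Place k C) : ℕ :=
  if h : ∃ e, Over w p e then h.choose else 0

section

variable {k L M : Type} [Field k] [CharZero k] [Field L] [Field M]
  [Algebra k L] [Algebra k M] [Algebra L M] [IsScalarTower k L M] [FiniteDimensional L M]

theorem pm_eq {w : Place k M} {C : IntermediateField k M} {p : Place k C} {e : ℕ}
    (h : Over w p e) : pm w p = e := by
  unfold pm
  have h1 : ∃ e, Over w p e := ⟨e, h⟩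
  rw [dif_pos h1]
  exact h1.choose_spec.unique h

theorem over_of_pm {w : Place k M} {C : IntermediateField k M} {p : Place k C}
    (h : pm w p ≠ 0) : Over w p (pm w p) := by
  unfold pm at h ⊢
  by_cases h1 : ∃ e, Over w p e
  · rw [dif_pos h1]
    exact h1.choose_spec
  · rw [dif_neg h1] at h
    exact absurd rfl h

/-- the multiplicity of the pull back of a set of points is at most the order of a parameter -/
theorem sum_pm_le {w : Place k M} {C : IntermediateField k M} (S : Finset (Place k C)) {z : M}
    (hz : w.Reg z) (h : ∀ (p : Place k C) (e : ℕ), Over w p e → w.ord z = e) :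
    ((∑ p ∈ S, pm w p : ℕ) : ℤ) ≤ w.ord z := by
  by_cases h0 : ∀ p ∈ S, pm w p = 0
  · rw [Finset.sum_eq_zero h0]
    rcases hz with hz | hz
    · rw [hz, w.ord_zero]
      rfl
    · simpa using hz
  · push Not at h0
    obtain ⟨p, hp, hpm⟩ := h0
    have h1 := over_of_pm hpm
    rw [h p _ h1, Finset.sum_eq_single p]
    · intro q _ hq
      by_contra h2
      exact hq (Pool.Agent.W619.PQ.over_unique' (over_of_pm h2) h1).1
    · intro h2
      exact absurd hp h2

/-- the poles of the traces of the powers -/
theorem trace_pole {C : IntermediateField k M} (p : Place k C) (u : M) (m0 : ℕ)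
    (hu : ∀ w : Place k M, -((m0 * pm w p : ℕ) : ℤ) ≤ w.ord u) (δ : Place k L → ℝ)
    (hδ0 : ∀ v, 0 ≤ δ v) {n : ℕ} {ε : ℝ} (hε : 0 < ε)
    (hδ : ∀ (w : Place k M) (v : Place k L) (e : ℕ), Divisorial n w → Over w v e →
      ε * pm w p ≤ e * δ v) (q : ℕ) :
    ∃ C : ℕ, ∀ v : Place k L, Divisorial n v →
      -(C * δ v) ≤ (v.ord (Algebra.trace L M (u ^ q)) : ℝ) := by
  obtain ⟨C, hC⟩ := exists_nat_ge (((q : ℝ) * m0 + Module.finrank L M) / ε)
  refine ⟨C, fun v hv => ?_⟩
  by_cases hT : Algebra.trace L M (u ^ q) = 0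
  · rw [hT, v.ord_zero]
    have := hδ0 v
    have h1 : (0 : ℝ) ≤ C * δ v := by positivity
    simpa using h1
  by_cases h0 : ∀ (w : Place k M) (e : ℕ), Over w v e → pm w p = 0
  · have h1 : Ge v 0 (Algebra.trace L M (u ^ q)) := by
      refine Pool.Agent.Y692.NT.trace_reg v _ fun w e hwv => ?_
      right
      rw [w.ord_pow]
      have h2 := hu w
      rw [h0 w e hwv, mul_zero] at h2
      have h3 : (0 : ℤ) ≤ w.ord u := by simpa using h2
      have h4 : (0 : ℤ) ≤ q * w.ord u := by positivity
      have h5 := hwv.1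
      omega
    have h2 := h1.resolve_left hT
    have h3 : (0 : ℝ) ≤ v.ord (Algebra.trace L M (u ^ q)) := by exact_mod_cast h2
    have := hδ0 v
    have h4 : (0 : ℝ) ≤ C * δ v := by positivity
    linarith
  · push Not at h0
    obtain ⟨w0, e0, hw0, hpm0⟩ := h0
    -- the lower bound for `δ v`
    have hr : ε / Module.finrank L M ≤ δ v := by
      have h1 := hδ w0 v e0 (Pool.Agent.Y172.divisorial_up hw0 hv) hw0
      have h2 : (1 : ℝ) ≤ pm w0 p := by exact_mod_cast Nat.one_le_iff_ne_zero.2 hpm0
      have h3 : (e0 : ℝ) ≤ Module.finrank L M := by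
        exact_mod_cast Pool.Agent.Y692.NT.over_le hw0
      have h4 : (0 : ℝ) < Module.finrank L M := by exact_mod_cast Module.finrank_pos
      rw [div_le_iff₀ h4]
      calc ε = ε * 1 := (mul_one _).symm
        _ ≤ ε * pm w0 p := mul_le_mul_of_nonneg_left h2 hε.le
        _ ≤ e0 * δ v := h1
        _ ≤ Module.finrank L M * δ v := mul_le_mul_of_nonneg_right h3 (hδ0 v)
        _ = δ v * Module.finrank L M := mul_comm _ _
    obtain ⟨π, hπ0, hπ⟩ := v.surj
    let B : ℕ := ⌈(q : ℝ) * m0 * δ v / ε⌉₊
    have hB1 : (q : ℝ) * m0 * δ v / ε ≤ B := Nat.le_ceil _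
    have hB2 : (B : ℝ) < (q : ℝ) * m0 * δ v / ε + 1 := by
      refine Nat.ceil_lt_add_one ?_
      have := hδ0 v
      positivity
    have hπM : algebraMap L M π ≠ 0 := by simpa using hπ0
    have h1 : Ge v 0 (Algebra.trace L M (π ^ B • u ^ q)) := by
      refine Pool.Agent.Y692.NT.trace_reg v _ fun w e hwv => ?_
      rw [Algebra.smul_def, map_pow]
      by_cases hz : (algebraMap L M π) ^ B * u ^ q = 0
      · exact Or.inl hz
      right
      obtain ⟨h2, h3⟩ := mul_ne_zero_iff.1 hz
      rw [w.ord_mul h2 h3, w.ord_pow, w.ord_pow, hwv.2, hπ]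
      have h4 := hu w
      have h5 := hδ w v e (Pool.Agent.Y172.divisorial_up hwv hv) hwv
      have h6 : (0 : ℝ) ≤ (B : ℝ) * (e * 1) + q * (w.ord u : ℝ) := by
        have h7 : -((m0 : ℝ) * pm w p) ≤ w.ord u := by exact_mod_cast h4
        have h8 : (m0 : ℝ) * pm w p ≤ m0 * (e * δ v / ε) := by
          refine mul_le_mul_of_nonneg_left ?_ (by positivity)
          rw [le_div_iff₀ hε]
          linarith
        have h9 : (q : ℝ) * (m0 * (e * δ v / ε)) = (q * m0 * δ v / ε) * e := by ring
        have h10 : (q * m0 * δ v / ε) * (e : ℝ) ≤ B * e :=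
          mul_le_mul_of_nonneg_right hB1 (by positivity)
        have h11 : (q : ℝ) * -(m0 * (e * δ v / ε)) ≤ q * w.ord u :=
          mul_le_mul_of_nonneg_left (by linarith) (by positivity)
        linarith
      have h7 : (0 : ℤ) ≤ (B : ℤ) * (e * 1) + q * w.ord u := by exact_mod_cast h6
      have h8 := hwv.1
      omega
    rw [map_smul, smul_eq_mul] at h1
    have h2 := h1.resolve_left (mul_ne_zero (pow_ne_zero _ hπ0) hT)
    rw [v.ord_mul (pow_ne_zero _ hπ0) hT, v.ord_pow, hπ] at h2
    have h3 : (0 : ℝ) ≤ B * 1 + v.ord (Algebra.trace L M (u ^ q)) := by exact_mod_cast h2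
    have h4 : (1 : ℝ) ≤ Module.finrank L M / ε * δ v := by
      have h5 : (0 : ℝ) < Module.finrank L M := by exact_mod_cast Module.finrank_pos
      rw [div_mul_eq_mul_div, le_div_iff₀ hε, one_mul, mul_comm]
      rwa [div_le_iff₀ h5] at hr
    have h5 : (((q : ℝ) * m0 + Module.finrank L M) / ε) * δ v ≤ C * δ v :=
      mul_le_mul_of_nonneg_right hC (hδ0 v)
    have h6 : (((q : ℝ) * m0 + Module.finrank L M) / ε) * δ v =
        (q : ℝ) * m0 * δ v / ε + Module.finrank L M / ε * δ v := by ring
    linarith

/-- a derivation which kills the traces of the powers of `u` kills `u` -/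
theorem der_of_traces [Algebra.EssFiniteType k L] {n : ℕ} (hn : Algebra.trdeg k L = n)
    (d : Derivation k L L) (d' : Derivation k M M)
    (hd : ∀ f, d' (algebraMap L M f) = algebraMap L M (d f)) (u : M)
    (h : ∀ q : ℕ, d (Algebra.trace L M (u ^ q)) = 0) : d' u = 0 := by
  have hchar : CharZero L := charZero_of_injective_algebraMap (algebraMap k L).injective
  have hsep : Algebra.IsSeparable L M := inferInstance
  -- `d' u` lies in `L(u)`
  have hmem : d' u ∈ IntermediateField.adjoin L {u} := by
    obtain ⟨D1, hD1⟩ := Pool.Agent.Y172.exists_lift (L := IntermediateField.adjoin L {u}) hn d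
    have hn1 : Algebra.trdeg k (IntermediateField.adjoin L {u}) = n :=
      Pool.Agent.Y172.trdeg_up (K := L) hn
    have hst : IsScalarTower k (IntermediateField.adjoin L {u}) M :=
      IsScalarTower.of_algebraMap_eq fun c => by
        rw [IsScalarTower.algebraMap_apply k L (IntermediateField.adjoin L {u}),
          IsScalarTower.algebraMap_apply k L M]
        rfl
    obtain ⟨D2, hD2⟩ := Pool.Agent.Y172.exists_lift (L := M) hn1 D1
    have h1 : ∀ z : M, (D2 - d') z = 0 := by
      intro z
      refine der_alg (kerD (D2 - d')) _ (fun z hz => hz) ?_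
      have h2 : Algebra.IsAlgebraic L M := inferInstance
      let f : L →+* kerD (D2 - d') := (algebraMap L M).codRestrict (kerD (D2 - d')) fun x => by
        change (D2 - d') (algebraMap L M x) = 0
        change D2 (algebraMap L M x) - d' (algebraMap L M x) = 0
        rw [hd]
        have h3 := hD2 (algebraMap L (IntermediateField.adjoin L {u}) x)
        rw [hD1] at h3
        change D2 (algebraMap L M x) = algebraMap L M (d x) at h3
        rw [h3, sub_self]
      exact (h2.isAlgebraic z).ringHom_of_comp_eq f (RingHom.id M) f.injective (by ext y; rfl)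
    have h2 : D2 u = d' u := sub_eq_zero.1 (h1 u)
    rw [← h2]
    have h3 := hD2 (⟨u, mem_adjoin_simple_self L u⟩ : IntermediateField.adjoin L {u})
    change D2 u = _ at h3
    rw [h3]
    exact (D1 _).2
  by_contra hne
  -- the inverse of `d' u` is a polynomial in `u`
  have halg : IsAlgebraic L u := Algebra.IsAlgebraic.isAlgebraic u
  have hinv : (d' u)⁻¹ ∈ Algebra.adjoin L {u} := by
    have h1 : (d' u)⁻¹ ∈ IntermediateField.adjoin L {u} := inv_mem hmem
    rw [← IntermediateField.mem_toSubalgebra,
      IntermediateField.adjoin_simple_toSubalgebra_of_isAlgebraic halg] at h1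
    exact h1
  have hpol : ∀ z ∈ Algebra.adjoin L {u}, Algebra.trace L M (z * d' u) = 0 := by
    intro z hz
    rw [Algebra.adjoin_singleton_eq_range_aeval] at hz
    obtain ⟨P, rfl⟩ := hz
    have h1 : ∀ q : ℕ, Algebra.trace L M (u ^ q * d' u) = 0 := by
      intro q
      have h2 := h (q + 1)
      rw [← trace_der d d' hd, d'.leibniz_pow, Nat.add_sub_cancel, nsmul_eq_mul,
        smul_eq_mul] at h2
      have h3 : ((q + 1 : ℕ) : M) * (u ^ q * d' u) = ((q + 1 : ℕ) : L) • (u ^ q * d' u) := by
        rw [Algebra.smul_def, map_natCast]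
      rw [h3, map_smul, smul_eq_mul] at h2
      exact (mul_eq_zero.1 h2).resolve_left (by exact_mod_cast Nat.succ_ne_zero q)
    change Algebra.trace L M (aeval u P * d' u) = 0
    rw [aeval_eq_sum_range, Finset.sum_mul, map_sum]
    refine Finset.sum_eq_zero fun q _ => ?_
    rw [smul_mul_assoc, map_smul, h1, smul_zero]
  have h1 := hpol _ hinv
  rw [inv_mul_cancel₀ hne] at h1
  have h2 : Algebra.trace L M (1 : M) = Module.finrank L M := by
    have h3 := Algebra.trace_algebraMap (S := M) (1 : L)
    rw [map_one] at h3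
    rw [h3, nsmul_eq_mul, mul_one]
  rw [h2] at h1
  have h3 : Module.finrank L M ≠ 0 := Module.finrank_pos.ne'
  exact h3 (by exact_mod_cast h1)

end

end Q36.GV
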