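import Pool.Agent.Q36.GV.Lo

/-!
Upper bounds for the numerical dimension of pairs.
-/

set_option autoImplicit false
set_option linter.overlappingInstances false
set_option linter.unusedSectionVars false

open Polynomial FF IsDedekindDomain IntermediateField
open Pool.Agent.W602.GT Pool.Agent.W603.LV Pool.Agent.W619.PQ Pool.Agent.W619.TW
  Pool.Agent.W619.Y Q36.PT Q36.SD Q36.HB

namespace Q36.GV

section

variable (k K : Type) [Field k] [Field K] [Algebra k K]

/-- `ω` is a section of `m (K_X + Δ) + j A`, where the effective `ℝ`-divisor `Δ` is given by its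
multiplicities `δ v` along all divisors `v`, and `A` is the divisor generated by `S`. -/
def PSec (n : ℕ) (δ : Place k K → ℝ) (S : Finset K) (m j : ℕ)
    (ω : (Fin n → Derivation k K K) → K) : Prop :=
  IsPluriForm k K n m ω ∧ ∀ v : Place k K, IsDivisorial v n → ∀ D : Fin n → Derivation k K K,
    (∀ l, ∀ f, v.Reg f → v.Reg (D l f)) →
    ω D = 0 ∨ ∃ s ∈ S, s ≠ 0 ∧ (j : ℝ) * v.ord s - m * δ v ≤ v.ord (ω D)

/-- `κ (K_X + Δ) ≥ h` -/
def PKodGe (n : ℕ) (δ : Place k K → ℝ) (h : ℕ) : Prop :=
  ∃ m : ℕ, 1 ≤ m ∧ ∀ j : ℕ, 1 ≤ j → HasIndep k K n (j ^ h) (PSec k K n δ {1} (j * m) 0)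

/-- `ν (K_X + Δ) ≤ h` -/
def PNumLe (n : ℕ) (δ : Place k K → ℝ) (h : ℕ) : Prop :=
  ∀ S : Finset K, ∃ C : ℕ, ∀ m N : ℕ, 1 ≤ m →
    HasIndep k K n N (PSec k K n δ S m 1) → N ≤ C * m ^ h

end

section

variable {k L M : Type} [Field k] [CharZero k] [Field L] [Field M]
  [Algebra k L] [Algebra k M] [Algebra L M] [IsScalarTower k L M] [FiniteDimensional L M]
  [Algebra.EssFiniteType k L] {n : ℕ}

/-- **The upper bound.** -/
theorem pnum_le (hn : Algebra.trdeg k L = n) (Bd : Place k M → Prop)
    (G : (Fin n → Derivation k M M) → M) (hG : IsPluri 1 G)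
    (hGreg : ∀ w : Place k M, Divisorial n w → RegAt w G) (hG0 : ∃ D, G D ≠ 0)
    (δ : Place k L → ℝ) (A : ℕ) (hA : 1 ≤ A) (hδ : ∀ (w : Place k M) (v : Place k L) (e : ℕ),
      Divisorial n w → Over w v e → (¬ Bd w → (e : ℝ) * δ v ≤ 0) ∧
      (Bd w → ∀ D : Fin n → Derivation k M M, (∀ i, DerLog w (D i)) → G D = 0 ∨
        (e : ℝ) * δ v ≤ A * w.ord (G D))) {h : ℕ} (hnum : NumLe k M n Bd h) :
    PNumLe k L n δ h := by
  classical
  intro S
  obtain ⟨C, hC⟩ := hnum (S.image (algebraMap L M))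
  refine ⟨C * (1 + A) ^ h, fun m N hm hN => ?_⟩
  obtain ⟨ω, hω, hωs⟩ := hN
  obtain ⟨y, E, hy, hE⟩ := Pool.Agent.Y172.exists_crd (k := k) (K := L) hn
  choose E' hE' using fun i => Pool.Agent.Y172.exists_lift (L := M) hn (E i)
  have hEd := Pool.Agent.Y172.lift_dual hE hE'
  have hyM : IsTranscendenceBasis k (fun j => algebraMap L M (y j)) := hy.algebraMap_comp
  have halg : Algebra.IsAlgebraic L M := inferInstance
  let Ω : Fin N → (Fin n → Derivation k M M) → M := fun l D =>
    (Matrix.of fun a b => D a (algebraMap L M (y b))).det ^ m * algebraMap L M (ω l E) *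
      G D ^ (A * m)
  -- the estimate
  have hest : ∀ (l : Fin N) (w : Place k M), Divisorial n w →
      ∀ D : Fin n → Derivation k M M, (∀ i, DerReg w (D i)) →
      (∀ (v : Place k L) (e : ℕ), Over w v e → G D = 0 ∨ (e : ℝ) * δ v ≤ A * w.ord (G D)) →
      Dom w (S.image (algebraMap L M)) 1 (Ω l D) := by
    intro l w hw D hD hGD
    obtain ⟨e, v, hwv⟩ := Pool.Agent.W73.PG.PULL.exists_over' (K := L) w
    have hv : Divisorial n v := Pool.Agent.Y172.divisorial_down hwv hw
    obtain ⟨y', EP, i0, hl⟩ := Pool.Agent.Y172.exists_loc hn hv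
    have hd := (hωs l).2 v hv EP hl.pres
    by_cases hz : Ω l D = 0
    · exact Or.inl hz
    have hΩ : Ω l D = (Matrix.of fun a c => D a (algebraMap L M (y' c))).det ^ m *
        algebraMap L M (ω l EP) * G D ^ (A * m) := by
      change (Matrix.of fun a b => D a (algebraMap L M (y b))).det ^ m * algebraMap L M (ω l E) *
        G D ^ (A * m) = _
      rw [Pool.Agent.W73.PG.PULL.form_eq y y' hy hl.bas E EP hE hl.dual (ω l) (hωs l).1 D]
    rw [hΩ] at hz ⊢
    obtain ⟨h12, h3⟩ := mul_ne_zero_iff.1 hz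
    obtain ⟨h1, h2⟩ := mul_ne_zero_iff.1 h12
    have h2' : ω l EP ≠ 0 := fun h => h2 (by rw [h, map_zero])
    obtain ⟨s, hs, hs0, hle⟩ := hd.resolve_left h2'
    right
    refine ⟨algebraMap L M s, Finset.mem_image_of_mem _ hs, by simpa using hs0, ?_⟩
    rw [w.ord_mul h12 h3, w.ord_mul h1 h2, w.ord_pow (G D), hwv.2, hwv.2]
    have h4 : Ge w 0 ((Matrix.of fun a c => D a (algebraMap L M (y' c))).det ^ m) := by
      have h4 : Ge w 0 (Matrix.of fun a c => D a (algebraMap L M (y' c))).det :=
        Pool.Agent.W619.PQ.ge_det w _ (fun a c => hD a _ (hwv.reg.2 (hl.reg c)))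
      simpa using h4.pow m
    have h5 : 0 ≤ w.ord ((Matrix.of fun a c => D a (algebraMap L M (y' c))).det ^ m) :=
      h4.resolve_left h1
    have h6 : (e : ℝ) * δ v ≤ A * w.ord (G D) := by
      rcases hGD v e hwv with h | h
      · exact absurd (by rw [h, zero_pow (Nat.mul_pos hA hm).ne']) h3
      · exact h
    have h7 : (m : ℝ) * ((e : ℝ) * δ v) ≤ m * (A * w.ord (G D)) :=
      mul_le_mul_of_nonneg_left h6 (by positivity)
    have h8 : (e : ℝ) * ((1 : ℕ) * v.ord s - m * δ v) ≤ e * v.ord (ω l EP) :=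
      mul_le_mul_of_nonneg_left hle (by positivity)
    have h9 : ((1 : ℕ) : ℝ) * ((e : ℝ) * v.ord s) ≤
        w.ord ((Matrix.of fun a c => D a (algebraMap L M (y' c))).det ^ m) +
          e * v.ord (ω l EP) + (A * m : ℕ) * w.ord (G D) := by
      have h10 : (0 : ℝ) ≤ w.ord ((Matrix.of fun a c => D a (algebraMap L M (y' c))).det ^ m) := by
        exact_mod_cast h5
      push_cast at h8 ⊢
      linarith
    exact_mod_cast h9
  have hsec : ∀ l, IsSec k M n Bd (S.image (algebraMap L M)) (m * (1 + A)) 1 (Ω l) := by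
    intro l
    refine ⟨fun B D => ?_, fun w hw hB D hD => ?_, fun w hw hB D hD => ?_⟩
    · have e1 : (Matrix.of fun a b => (∑ j, B a j • D j) (algebraMap L M (y b))) =
          B * Matrix.of fun a b => D a (algebraMap L M (y b)) := by
        ext a b
        rw [Matrix.of_apply, Matrix.mul_apply, Pool.Agent.Y172.sum_smul_apply]
        rfl
      change (Matrix.of fun a b => (∑ j, B a j • D j) (algebraMap L M (y b))).det ^ m * _ *
        G _ ^ (A * m) = _ * (_ * _ * _)
      rw [e1, Matrix.det_mul, hG B D, pow_one]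
      ring
    · refine hest l w hw D hD fun v e hwv => ?_
      rcases hGreg w hw D hD with h1 | h1
      · exact Or.inl h1
      · right
        have h2 := (hδ w v e hw hwv).1 hB
        have h3 : (0 : ℝ) ≤ A * w.ord (G D) := by
          have : (0 : ℝ) ≤ w.ord (G D) := by exact_mod_cast h1
          positivity
        linarith
    · have hreg : ∀ i, DerReg w (D i) := by
        intro i f hf
        have h1 := hD i f
        by_cases hf0 : f = 0
        · rw [hf0, map_zero]
          exact w.reg_zero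
        have h2 := w.reg_mul h1 hf
        rwa [div_mul_cancel₀ _ hf0] at h2
      exact hest l w hw D hreg fun v e hwv => (hδ w v e hw hwv).2 hB D hD
  -- independence
  have hli0 : LinearIndependent k fun l => ω l E := by
    rw [Fintype.linearIndependent_iff]
    intro c hc
    refine Fintype.linearIndependent_iff.1 hω c ?_
    funext D
    rw [Finset.sum_apply]
    have h1 : ∀ l, (c l • ω l) D = (Matrix.of fun a b => D a (y b)).det ^ m * (c l • ω l E) := by
      intro l
      change c l • ω l D = _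
      rw [Pool.Agent.Y172.pluri_coord hy hE (hωs l).1 D, mul_smul_comm]
    rw [Finset.sum_congr rfl fun l _ => h1 l, ← Finset.mul_sum, hc, mul_zero]
    rfl
  obtain ⟨D0, hD0⟩ := hG0
  have hdet : (Matrix.of fun a b => D0 a (algebraMap L M (y b))).det ≠ 0 := by
    intro h0
    have h1 := Pool.Agent.Y172.pluri_coord hyM hEd hG D0
    rw [h0, pow_one, zero_mul] at h1
    exact hD0 h1
  have hli : LinearIndependent k Ω := by
    rw [Fintype.linearIndependent_iff]
    intro c hc
    refine Fintype.linearIndependent_iff.1 hli0 c ?_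
    have h1 := congrFun hc D0
    rw [Finset.sum_apply] at h1
    have h2 : ∀ l, (c l • Ω l) D0 = (Matrix.of fun a b => D0 a (algebraMap L M (y b))).det ^ m *
        G D0 ^ (A * m) * algebraMap L M (c l • ω l E) := by
      intro l
      change c l • Ω l D0 = _
      rw [Algebra.smul_def, Algebra.smul_def, map_mul, ← IsScalarTower.algebraMap_apply]
      simp only [Ω]
      ring
    rw [Finset.sum_congr rfl fun l _ => h2 l, ← Finset.mul_sum, ← map_sum] at h1
    have h3 := (mul_eq_zero.1 h1).resolve_left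
      (mul_ne_zero (pow_ne_zero _ hdet) (pow_ne_zero _ hD0))
    exact (map_eq_zero _).1 h3
  have h1 := hC (m * (1 + A)) N (Nat.mul_pos hm (by omega)) ⟨Ω, hli, hsec⟩
  calc N ≤ C * (m * (1 + A)) ^ h := h1
    _ = C * (1 + A) ^ h * m ^ h := by rw [mul_pow]; ring

end

end Q36.GV
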