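import Pool.Agent.Q36.GV.Cz

/-!
The core of varieties dominated by products of a variety with numerically trivial canonical class and
curves.
-/

set_option autoImplicit false
set_option linter.overlappingInstances false
set_option linter.unusedSectionVars false

open Polynomial FF IsDedekindDomain IntermediateField
open Pool.Agent.W603.LV Pool.Agent.W619.PQ Pool.Agent.W619.PL
  Pool.Agent.W619.TW Pool.Agent.W619.X Pool.Agent.W619.Y Q36.PT Q36.SD Q36.HB Q36.HL

namespace Q36.GV

section

variable {k L M : Type} [Field k] [CharZero k] [IsAlgClosed k] [Field L] [Field M]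
  [Algebra k L] [Algebra k M] [Algebra L M] [IsScalarTower k L M] [FiniteDimensional L M]
  [Algebra.EssFiniteType k L]
  {d n : ℕ} (F : Fin (n + 1) → IntermediateField k M) [hess0 : Algebra.EssFiniteType k (F 0)]
  [hF : ∀ i : Fin n, IsFF k (F i.succ)]

/-- the compositum of the non-elliptic curves -/
def genPart {n : ℕ} (F : Fin (n + 1) → IntermediateField k M) : IntermediateField k M :=
  ⨆ i : {i : Fin n // ¬ IsElliptic (F i.succ)}, F i.1.succ

/-- a subfield of transcendence degree zero is trivial -/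
theorem eq_bot_of_trdeg (E : IntermediateField k M) (h : Algebra.trdeg k E = (0 : ℕ)) : E = ⊥ := by
  rw [Nat.cast_zero, trdeg_eq_zero_iff] at h
  rw [eq_bot_iff]
  intro x hx
  have h2 : Function.Surjective (algebraMap k E) :=
    IsAlgClosed.algebraMap_bijective_of_isIntegral.surjective
  obtain ⟨r, hr⟩ := h2 ⟨x, hx⟩
  rw [IntermediateField.mem_bot]
  exact ⟨r, congrArg (fun z : E => (z : M)) hr⟩

theorem core0 (hY : Algebra.trdeg k (F 0) = d) (hnM : Algebra.trdeg k M = (d + n : ℕ))
    (hsup : ⨆ i, F i = ⊤) {c : Fin (n + 1) → ℕ}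
    (ha : ImageGe k (F 0) d (fun _ => False) 1 0) (hnum : NumLe k (F 0) d (fun _ => False) 0)
    (hc0 : c 0 = 0)
    (hγ : ∀ i : Fin n, ∀ b : F i.succ, Transcendental k b →
      c i.succ + 2 ≤ Module.finrank k⟮b⟯ (F i.succ))
    (hell : ∀ i : Fin n, IsElliptic (F i.succ) → c i.succ = 0)
    (B : Finset (Fin (n + 1)))
    (hB : ∀ i ∈ B, 2 * Module.finrank L (IntermediateField.adjoin L (F i : Set M)) ≤ c i + 1)
    (hQ : ∀ Q : Finset (Fin (n + 1)), Disjoint Q B →
      Module.finrank (IntermediateField.adjoin L {z : M | ∃ j, j ∉ Q ∧ z ∈ F j}) M = 1 ∨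
      2 * Module.finrank (IntermediateField.adjoin L {z : M | ∃ j, j ∉ Q ∧ z ∈ F j}) M ≤
        1 + ∑ j ∈ Q, c j) :
    ∃ K : IntermediateField k L, (∀ x : L, IsAlgebraic K x → x ∈ K) ∧
      Algebra.EssFiniteType k K ∧
      Algebra.trdeg k K = ({i : Fin n | ¬ IsElliptic (F i.succ)}.ncard : ℕ) ∧
      ImageGe k K {i : Fin n | ¬ IsElliptic (F i.succ)}.ncard (fun _ => False) 1
        {i : Fin n | ¬ IsElliptic (F i.succ)}.ncard ∧
      (∀ (q : ℕ) (ω ω' : (Fin (d + n) → Derivation k L L) → L),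
        IsSec k L (d + n) (fun _ => False) {1} q 0 ω →
        IsSec k L (d + n) (fun _ => False) {1} q 0 ω' → ∀ G, ω G ≠ 0 → ω' G / ω G ∈ K) ∧
      (∀ x ∈ K, algebraMap L M x ∈ genPart F) ∧
      Algebra.trdeg k (genPart F) = ({i : Fin n | ¬ IsElliptic (F i.succ)}.ncard : ℕ) ∧
      IntermediateField.adjoin L (genPart F : Set M) = ⊤ ∧
      (Pool.Agent.W602.GT.Special k L (d + n) (fun _ => False) →
        (∀ i : Fin n, IsElliptic (F i.succ)) ∧ Function.Bijective (algebraMap L M)) := by
  classical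
  have hess : ∀ i, Algebra.EssFiniteType k (F i) := ess_all F
  obtain ⟨S, hS0, hSs, h1, h2, h3, h4, h5, h6, h7⟩ := coreYC2 (L := L) F hY hnM hsup ha hnum
    (Or.inr ⟨rfl, hc0⟩) hγ hell B hB hQ
  have hpart : part F S = genPart F := by
    apply le_antisymm
    · refine iSup_le fun i => ?_
      obtain ⟨i, hi⟩ := i
      revert hi
      refine Fin.cases (fun hi => ?_) (fun i hi => ?_) i
      · have h8 : d = 0 := (hS0.1 hi).symm
        have h9 : F 0 = ⊥ := eq_bot_of_trdeg (F 0) (by rw [hY, h8])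
        change F 0 ≤ _
        rw [h9]
        exact bot_le
      · exact le_iSup (fun i : {i : Fin n // ¬ IsElliptic (F i.succ)} => F i.1.succ)
          ⟨i, (hSs i).1 hi⟩
    · refine iSup_le fun i => ?_
      exact le_part F ((hSs i.1).2 i.2)
  rw [zero_add] at h4 h5 h6
  rw [hpart] at h5
  refine ⟨iit F L S, h2, h3, h4, h6, h7, fun x hx => ?_, h5, ?_, fun hsp => ?_⟩
  · rw [← hpart]
    exact hx
  · rw [eq_top_iff, ← h1]
    refine IntermediateField.adjoin.mono _ _ _ ?_
    rintro z ⟨j, hj, hz⟩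
    rw [← hpart]
    exact le_part F hj hz
  · obtain ⟨h8, h9⟩ := specYC (L := L) F hY hnM hsup ha hnum hc0 hγ hell B hB hQ hsp
    refine ⟨h8, ?_⟩
    have h10 : (⊥ : IntermediateField L M) = ⊤ :=
      IntermediateField.finrank_eq_one_iff_eq_top.1 (by
        rw [IntermediateField.finrank_bot', h9])
    refine ⟨(algebraMap L M).injective, fun x => ?_⟩
    have h11 : x ∈ (⊥ : IntermediateField L M) := by
      rw [h10]
      exact IntermediateField.mem_top
    exact IntermediateField.mem_bot.1 h11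

end

end Q36.GV
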