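import Pool.Agent.Q36.GV.Ld
import Pool.Agent.W824.PG.Many

/-!
Transport of canonical forms along isomorphisms.
-/

set_option autoImplicit false
set_option linter.overlappingInstances false
set_option linter.unusedSectionVars false

open Polynomial FF IsDedekindDomain IntermediateField
open Pool.Agent.W603.LV Pool.Agent.W619.PQ Pool.Agent.W619.PL
  Pool.Agent.W619.TW Pool.Agent.W619.X Pool.Agent.W619.Y Q36.PT Q36.HB Q36.HL
open Pool.Agent.W824.PG (plc cDer cDer_apply)

namespace Q36.GV

section

variable {k K K' : Type} [Field k] [CharZero k] [IsAlgClosed k] [Field K] [Field K'] [Algebra k K]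
  [Algebra k K']

/-- transport of a form -/
noncomputable def tForm {n : ℕ} (e : K ≃ₐ[k] K') (η : (Fin n → Derivation k K K) → K)
    (D : Fin n → Derivation k K' K') : K' := e (η fun i => cDer e.symm (D i))

theorem div_plc {n : ℕ} (e : K ≃ₐ[k] K') {v : Place k K'} (hv : IsDivisorial v n) :
    IsDivisorial (plc e v) n := by
  obtain ⟨y, hy⟩ := hv
  refine ⟨fun i => e.symm (y i), fun p hp => ?_⟩
  obtain ⟨h1, h2⟩ := hy p hp
  have h3 : MvPolynomial.aeval (fun i => e.symm (y i)) p = e.symm (MvPolynomial.aeval y p) := by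
    have h4 := MvPolynomial.comp_aeval_apply (f := y) (e.symm : K' →ₐ[k] K) p
    exact h4.symm
  rw [h3]
  refine ⟨fun h => h1 (by simpa using h), ?_⟩
  change v.ord (e (e.symm _)) = 0
  rw [e.apply_symm_apply]
  exact h2

theorem tForm_pluri {n m : ℕ} (e : K ≃ₐ[k] K') {η : (Fin n → Derivation k K K) → K}
    (hη : IsPluriForm k K n m η) : IsPluriForm k K' n m (tForm e η) := by
  intro A D
  unfold tForm
  have h1 : (fun i => cDer e.symm (∑ j, A i j • D j)) =
      fun i => ∑ j, (A.map e.symm) i j • cDer e.symm (D j) := by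
    funext i
    ext z
    rw [cDer_apply, Pool.Agent.Y172.sum_smul_apply, Pool.Agent.Y172.sum_smul_apply, map_sum]
    refine Finset.sum_congr rfl fun j _ => ?_
    rw [map_mul]
    rfl
  rw [h1, hη, map_mul, map_pow]
  congr 2
  have h2 : (A.map e.symm).det = e.symm A.det := by
    have h3 := (AlgHom.map_det (e.symm : K' →ₐ[k] K) A).symm
    exact h3
  rw [h2, e.apply_symm_apply]

theorem tForm_reg {n : ℕ} (e : K ≃ₐ[k] K') {η : (Fin n → Derivation k K K) → K}
    (hη : ∀ u : Place k K, IsDivisorial u n → RegularAt u n η) (v : Place k K')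
    (hv : IsDivisorial v n) : RegularAt v n (tForm e η) := by
  intro D hD
  have h1 := hη (plc e v) (div_plc e hv) (fun i => cDer e.symm (D i)) (fun j f hf => by
    have h2 := hD j (e f) (by
      rcases hf with h | h
      · exact Or.inl (by rw [h, map_zero])
      · exact Or.inr h)
    rw [cDer_apply]
    have h3 : e.symm.symm f = e f := rfl
    rw [h3]
    rcases h2 with h | h
    · exact Or.inl (by rw [h, map_zero])
    · right
      change 0 ≤ v.ord (e (e.symm _))
      rw [e.apply_symm_apply]
      exact h)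
  rcases h1 with h | h
  · exact Or.inl (by unfold tForm; rw [h, map_zero])
  · exact Or.inr h

theorem cDer_cDer (e : K ≃ₐ[k] K') (D : Derivation k K K) : cDer e.symm (cDer e D) = D := by
  ext z
  rw [cDer_apply, cDer_apply]
  change e.symm (e (D (e.symm (e z)))) = D z
  rw [e.symm_apply_apply, e.symm_apply_apply]

/-- transport of the separation property -/
theorem canSepJ_equiv (e : K ≃ₐ[k] K') {d m : ℕ} (h : CanSepJ k K d m) : CanSepJ k K' d m := by
  intro y E hy hE Ω _ _ ι _ φ n c θ hφ hn hm hθ hθ1 hf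
  have hy' : IsTranscendenceBasis k fun i => e.symm (y i) := e.symm.isTranscendenceBasis hy
  have hE' : ∀ i j, cDer e.symm (E i) (e.symm (y j)) = if i = j then 1 else 0 := by
    intro i j
    rw [cDer_apply]
    have h3 : e.symm.symm (e.symm (y j)) = y j := e.apply_symm_apply _
    rw [h3, hE]
    split_ifs <;> simp
  have h1 := h _ _ hy' hE' Ω ι (fun i => (φ i).comp (e : K →ₐ[k] K')) n c
    (fun i => θ i ∘ₗ (e : K →ₐ[k] K').toLinearMap) (fun i j hij => by
      apply hφ
      ext z
      have h2 := congrArg (fun ψ : K →ₐ[k] Ω => ψ (e.symm z)) hij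
      simpa using h2) hn hm (fun i a b => by
      change θ i (e (a * b)) = φ i (e a) * θ i (e b) + φ i (e b) * θ i (e a)
      rw [map_mul, hθ i]) (fun i hi => by
      rw [hθ1 i hi, LinearMap.zero_comp]) (fun f hf' => by
      obtain ⟨η, h2, h3, h4⟩ := hf'
      refine hf (e f) ⟨tForm e η, tForm_pluri e h2, tForm_reg e h3, ?_⟩
      unfold tForm
      rw [h4])
  intro i
  refine ⟨(h1 i).1, ?_⟩
  ext z
  have h2 := congrArg (fun ψ : K →ₗ[k] Ω => ψ (e.symm z)) (h1 i).2
  simpa using h2

/-- transport of the canonical image -/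
theorem imageGe_equiv (e : K ≃ₐ[k] K') {n a : ℕ} (h : ImageGe k K n (fun _ => False) 1 a) :
    ImageGe k K' n (fun _ => False) 1 a := by
  obtain ⟨ω, h1, D, h2, h3⟩ := h
  have hv : ∀ l, tForm e (ω l) (fun i => cDer e (D i)) = e (ω l D) := by
    intro l
    unfold tForm
    congr 2
    funext i
    exact cDer_cDer e (D i)
  refine ⟨fun l => tForm e (ω l), fun l => ⟨tForm_pluri e (reg_of_sec (h1 l)).1,
    fun v hv _ D hD => Pool.Agent.W303.PG.dom_of_reg (tForm_reg e (reg_of_sec (h1 l)).2 v hv D hD),
    fun v _ hB => absurd hB id⟩, fun i => cDer e (D i), fun l => ?_, ?_⟩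
  · change tForm e (ω l) (fun i => cDer e (D i)) ≠ 0
    rw [hv]
    simpa using h2 l
  · have h4 : (fun l : Fin a => tForm e (ω l.succ) (fun i => cDer e (D i)) /
        tForm e (ω 0) (fun i => cDer e (D i))) =
        fun l : Fin a => (e : K →ₐ[k] K') (ω l.succ D / ω 0 D) := by
      funext l
      rw [hv, hv, map_div₀]
      rfl
    rw [h4]
    exact h3.map' (f := (e : K →ₐ[k] K')) e.injective

/-- the constant field -/
theorem canSepJ_bot (m : ℕ) (hb : ∀ z : K, ∃ r : k, algebraMap k K r = z) : CanSepJ k K 0 m := by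
  intro y E hy hE Ω _ _ ι _ φ n c θ hφ hn hm hθ hθ1 hf i
  have hθ0 : θ i = 0 := by
    have h1 : θ i 1 = 0 := by
      have h2 := hθ i 1 1
      rw [mul_one, map_one (φ i), one_mul] at h2
      linear_combination -h2
    ext z
    obtain ⟨r, rfl⟩ := hb z
    have h3 : algebraMap k K r = r • (1 : K) := by rw [Algebra.smul_def, mul_one]
    rw [h3, map_smul, h1, smul_zero]
    rfl
  refine ⟨?_, hθ0⟩
  have huniq : ∀ j, j = i := by
    intro j
    apply hφ
    ext z
    obtain ⟨r, rfl⟩ := hb z
    rw [(φ j).commutes, (φ i).commutes]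
  have h4 := hf 1 ⟨fun _ => 1, fun A D => by
      rw [Matrix.det_isEmpty, one_pow, one_mul], fun u _ D _ => u.reg_one, rfl⟩
  rw [Finset.sum_eq_single i (fun j _ hj => absurd (huniq j) hj)
    (fun h => absurd (Finset.mem_univ i) h), hθ0, map_one, mul_one] at h4
  simpa using h4

theorem imageGe_bot : ImageGe k K 0 (fun _ => False) 1 0 := by
  refine ⟨fun _ _ => 1, fun l => ⟨fun A D => by
      rw [Matrix.det_isEmpty, one_pow, one_mul], fun v _ _ D _ => ?_, fun v _ hB => absurd hB id⟩,
      fun i => i.elim0, fun l => one_ne_zero, ?_⟩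
  · exact Pool.Agent.W303.PG.dom_of_reg v.reg_one
  · rw [algebraicIndependent_empty_type_iff]
    exact (algebraMap k K).injective

end

end Q36.GV
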