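import Pool.Agent.Q36.GV.Yc

/-!
Varieties dominated by products of arbitrary varieties: uniruledness.
-/

set_option autoImplicit false
set_option linter.overlappingInstances false
set_option linter.unusedSectionVars false

open Polynomial FF IsDedekindDomain IntermediateField
open Pool.Agent.W603.LV Pool.Agent.W619.PQ Pool.Agent.W619.PL
  Pool.Agent.W619.TW Pool.Agent.W619.X Pool.Agent.W619.Y Q36.PT Q36.SD Q36.HB Q36.HL

namespace Q36.GV

section

variable {k L M : Type} [Field k] [CharZero k] [IsAlgClosed k] [Field L] [Field M]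
  [Algebra k L] [Algebra k M] [Algebra L M] [IsScalarTower k L M] [FiniteDimensional L M]
  {s : ℕ} {d : Fin s → ℕ} (W : Fin s → IntermediateField k M)
  [hess : ∀ i, Algebra.EssFiniteType k (W i)]

theorem ess_supW (hsup : ⨆ i, W i = ⊤) : Algebra.EssFiniteType k M := by
  have h1 : (⨆ i, W i).FG := fg_iSup fun j => essFiniteType_iff.1 (hess j)
  rw [hsup] at h1
  have h4 : Algebra.EssFiniteType k (⊤ : IntermediateField k M) := essFiniteType_iff.2 h1
  exact Algebra.EssFiniteType.of_surjective (IntermediateField.topEquiv : _ ≃ₐ[k] M).toAlgHom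
    IntermediateField.topEquiv.surjective

/-- a product with a uniruled factor is uniruled -/
theorem uniruled_prodV (hd : ∀ i, Algebra.trdeg k (W i) = d i)
    (hM : Algebra.trdeg k M = (∑ i, d i : ℕ)) (hsup : ⨆ i, W i = ⊤)
    (h : ∃ i, IsUniruled k (W i) (d i)) : IsUniruled k L (∑ i, d i) := by
  classical
  refine uniruled_img (M := M) ?_
  obtain ⟨i, hi⟩ := h
  have hN : ∑ j, d j = d i + ∑ j ∈ Finset.univ.erase i, d j :=
    (Finset.add_sum_erase _ _ (Finset.mem_univ i)).symm
  let P : IntermediateField k M := ⨆ j : {j // j ≠ i}, W j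
  have hfg : P.FG := IntermediateField.fg_iSup fun j =>
    IntermediateField.essFiniteType_iff.1 (hess j)
  have hPe : Algebra.EssFiniteType k P := IntermediateField.essFiniteType_iff.2 hfg
  have hsup' : W i ⊔ P = ⊤ := by
    rw [eq_top_iff, ← hsup]
    refine iSup_le fun j => ?_
    by_cases hj : j = i
    · subst hj
      exact le_sup_left
    · exact le_sup_of_le_right (le_iSup (fun j : {j // j ≠ i} => W j) ⟨j, hj⟩)
  have hP : Algebra.trdeg k P ≤ (∑ j ∈ Finset.univ.erase i, d j : ℕ) := by
    have hb : ∀ j, ∃ y : Fin (d j) → W j, IsTranscendenceBasis k y := fun j => by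
      obtain ⟨y, -, hy, -⟩ := Pool.Agent.Y172.exists_crd (hd j)
      exact ⟨y, hy⟩
    choose y hy using hb
    let T : Set M := Set.range fun p : (j : {j // j ≠ i}) × Fin (d j) => (y p.1 p.2 : M)
    have h2 : P ≤ Pool.Agent.W904.PG.acl k T := by
      refine iSup_le fun j => ?_
      have h3 := Pool.Agent.W904.PG.le_acl_of_basis (W j) _ (hy j).to_subtype_range
      refine h3.trans (Pool.Agent.W904.PG.acl_mono ?_)
      rintro _ ⟨⟨_, l, rfl⟩, rfl⟩
      exact ⟨⟨j, l⟩, rfl⟩
    refine (Pool.Agent.W904.PG.trdeg_le_acl _ _ h2).trans ?_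
    refine Cardinal.mk_range_le.trans ?_
    rw [Cardinal.mk_fintype, Fintype.card_sigma]
    refine Nat.cast_le.2 (le_of_eq ?_)
    simp only [Fintype.card_fin]
    rw [← Finset.sum_coe_sort (Finset.univ.erase i) d]
    refine Finset.sum_equiv (Equiv.subtypeEquivRight fun j => by simp) (fun j => by simp)
      (fun j _ => rfl)
  rw [hN] at hM ⊢
  exact Pool.Agent.W904.PG.main1 (W i) P (d i) _ (hd i) hM hP hsup' hPe hi

/-- **The equivalences.** -/
theorem tfaeV (hd : ∀ i, Algebra.trdeg k (W i) = d i)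
    (hM : Algebra.trdeg k M = (∑ i, d i : ℕ)) (hsup : ⨆ i, W i = ⊤)
    (hgen : (∀ i, ¬ IsUniruled k (W i) (d i)) → PlurigenusPos k L (∑ i, d i) 1) :
    List.TFAE [¬ PlurigenusPos k L (∑ i, d i) 1, KodairaNeg k L (∑ i, d i),
      ¬ IsPsef k L (∑ i, d i) (fun _ => False), NumNeg k L (∑ i, d i) (fun _ => False),
      IsUniruled k L (∑ i, d i), ∃ i, IsUniruled k (W i) (d i)] := by
  classical
  have hessM : Algebra.EssFiniteType k M := ess_supW W hsup
  have hessL : Algebra.EssFiniteType k L := ess_below (K := M)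
  have hn : Algebra.trdeg k L = (∑ i, d i : ℕ) := trdeg_below (K := M) hM
  set N := ∑ i, d i with hN
  tfae_have 1 → 6 := by
    intro h1
    by_contra h2
    push Not at h2
    exact h1 (hgen h2)
  tfae_have 6 → 5 := fun h => uniruled_prodV W hd hM hsup h
  tfae_have 5 → 4 := fun h => (uniruled_neg N hn h).2
  tfae_have 5 → 3 := fun h => (uniruled_neg N hn h).1
  tfae_have 3 → 2 := fun h => kodairaNeg_of_not_eff.1 fun h3 => h (psef_of_eff h3)
  tfae_have 2 → 1 := fun h h1 => not_neg_of_pos le_rfl h1 h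
  tfae_have 4 → 1 := by
    intro h1 h2
    obtain ⟨ω, h3, h4, D, hD⟩ := h2
    obtain ⟨m0, hm0⟩ := h1 {1}
    refine hm0 (1 * m0) (by omega) ?_
    refine ⟨fun _ => fun D => ω D ^ m0, ?_, fun _ => ⟨?_, ?_, ?_⟩⟩
    · refine LinearIndependent.of_subsingleton 0 ?_
      intro h5
      exact pow_ne_zero m0 hD (congrFun h5 D)
    · intro A D
      change ω _ ^ m0 = _
      rw [h3 A D, mul_pow, ← pow_mul]
    · intro v hv _ D hD
      rcases h4 v hv D hD with h5 | h5
      · change Dom v {1} 1 (ω D ^ m0)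
        rw [h5]
        rcases Nat.eq_zero_or_pos m0 with rfl | h6
        · exact Or.inr ⟨1, by simp, one_ne_zero, by rw [pow_zero, v.ord_one]; simp⟩
        · exact Or.inl (zero_pow (by omega))
      · exact Or.inr ⟨1, by simp, one_ne_zero, by
          rw [v.ord_pow, v.ord_one]
          have : (0 : ℤ) ≤ m0 * v.ord (ω D) := mul_nonneg (by positivity) h5
          simpa using this⟩
    · intro v _ hB
      exact absurd hB id
  tfae_finish

end

end Q36.GV
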