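import Pool.Agent.Q36.SD.Ma
import Pool.Agent.W619.Y.Parts

/-!
The exterior products of regular canonical forms of the factors.
-/

set_option autoImplicit false
set_option linter.overlappingInstances false
set_option linter.unusedSectionVars false

open Polynomial FF IsDedekindDomain IntermediateField
open Pool.Agent.W602.GT Pool.Agent.W603.LV Pool.Agent.W619.PQ Pool.Agent.W619.TW
  Pool.Agent.W619.Y

namespace Q36.GV

/-- determinants of block diagonal matrices -/
theorem det_block {R : Type} [CommRing R] {s : ℕ} {d : Fin s → ℕ}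
    (Z : ∀ i, Matrix (Fin (d i)) (Fin (d i)) R) :
    (Matrix.blockDiagonal' Z).det = ∏ i, (Z i).det := by
  classical
  rw [Matrix.BlockTriangular.det_fintype (Matrix.blockTriangular_blockDiagonal' Z)]
  refine Finset.prod_congr rfl fun i _ => ?_
  let e : Fin (d i) ≃ {a : (i : Fin s) × Fin (d i) // a.1 = i} :=
    { toFun := fun x => ⟨⟨i, x⟩, rfl⟩
      invFun := fun a => Fin.cast (by rw [a.2]) a.1.2
      left_inv := fun x => rfl
      right_inv := by
        rintro ⟨⟨j, x⟩, rfl⟩
        rfl }
  rw [← Matrix.det_submatrix_equiv_self e]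
  congr 1
  ext a b
  simp [Matrix.toSquareBlock, Matrix.toSquareBlockProp, e, Matrix.blockDiagonal'_apply]

section

variable {k M : Type} [Field k] [CharZero k] [Field M] [Algebra k M]
  {s : ℕ} {d : Fin s → ℕ} (F : Fin s → IntermediateField k M)

/-- the union of the coordinates -/
noncomputable def coords (y : ∀ i, Fin (d i) → F i) (b : Fin (∑ i, d i)) : M :=
  (y (finSigmaFinEquiv.symm b).1 (finSigmaFinEquiv.symm b).2 : M)

/-- the exterior product -/
noncomputable def wdg (y : ∀ i, Fin (d i) → F i) (f : ∀ i, F i)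
    (D : Fin (∑ i, d i) → Derivation k M M) : M :=
  (∏ i, (f i : M)) * (Matrix.of fun a b => D a (coords F y b)).det

theorem wdg_pluri (y : ∀ i, Fin (d i) → F i) (f : ∀ i, F i) : IsPluri 1 (wdg F y f) := by
  intro A D
  unfold wdg
  have e1 : (Matrix.of fun a b => (∑ j, A a j • D j) (coords F y b)) =
      A * Matrix.of fun a b => D a (coords F y b) := by
    ext a b
    rw [Matrix.of_apply, Matrix.mul_apply, Pool.Agent.Y172.sum_smul_apply]
    rfl
  rw [e1, Matrix.det_mul, pow_one]
  ring

/-- factorisation at a place -/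
theorem wdg_factor (y : ∀ i, Fin (d i) → F i) (f : ∀ i, F i) (w : Place k M)
    (h : ∀ i, YGood (d i) 1 w (fun l => (y i l : M)) (f i : M)) :
    ∃ (z : Fin (∑ i, d i) → M) (A : M), (∀ b, w.Reg (z b)) ∧ Ge w 0 A ∧
      ∀ D : Fin (∑ i, d i) → Derivation k M M,
        wdg F y f D = A * (Matrix.of fun a b => D a (z b)).det := by
  classical
  choose Z z hz hZ hA using h
  refine ⟨fun b => z (finSigmaFinEquiv.symm b).1 (finSigmaFinEquiv.symm b).2,
    ∏ i, ((f i : M) * (Z i).det ^ 1), fun b => hz _ _, ?_, fun D => ?_⟩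
  · have h1 : Ge w (∑ _i : Fin s, (0 : ℤ)) (∏ i, ((f i : M) * (Z i).det ^ 1)) :=
      Ge.prod _ _ _ fun i _ => hA i
    simpa using h1
  · unfold wdg
    have h1 : (Matrix.of fun a b => D a (coords F y b)) =
        (Matrix.of fun a b => D a (z (finSigmaFinEquiv.symm b).1 (finSigmaFinEquiv.symm b).2)) *
          ((Matrix.blockDiagonal' Z).submatrix finSigmaFinEquiv.symm
            finSigmaFinEquiv.symm).transpose := by
      ext a b
      rw [Matrix.of_apply, Matrix.mul_apply]
      obtain ⟨⟨i, l⟩, rfl⟩ := (finSigmaFinEquiv (n := d)).surjective b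
      unfold coords
      rw [Equiv.symm_apply_apply]
      rw [← (finSigmaFinEquiv (n := d)).sum_comp]
      rw [Fintype.sum_sigma, Finset.sum_eq_single i]
      · rw [hZ]
        refine Finset.sum_congr rfl fun c _ => ?_
        rw [Matrix.of_apply, Matrix.transpose_apply, Matrix.submatrix_apply,
          Equiv.symm_apply_apply, Equiv.symm_apply_apply, Matrix.blockDiagonal'_apply_eq]
        ring
      · intro j _ hj
        refine Finset.sum_eq_zero fun c _ => ?_
        rw [Matrix.transpose_apply, Matrix.submatrix_apply,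
          Equiv.symm_apply_apply, Equiv.symm_apply_apply,
          Matrix.blockDiagonal'_apply_ne _ _ _ (Ne.symm hj), mul_zero]
      · intro h
        exact absurd (Finset.mem_univ i) h
    rw [h1, Matrix.det_mul, Matrix.det_transpose, Matrix.det_submatrix_equiv_self, det_block,
      Finset.prod_mul_distrib, Finset.prod_pow, pow_one]
    ring

/-- the exterior product is regular -/
theorem wdg_reg (y : ∀ i, Fin (d i) → F i) (f : ∀ i, F i) (w : Place k M)
    (h : ∀ i, YGood (d i) 1 w (fun l => (y i l : M)) (f i : M)) :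
    RegAt w (wdg F y f) := by
  obtain ⟨z, A, hz, hA, hD⟩ := wdg_factor F y f w h
  intro D hDr
  rw [hD]
  have h1 := ge_det w (Matrix.of fun a b => D a (z b)) fun a b => hDr a _ (hz b)
  have h2 := hA.mul h1
  rw [add_zero] at h2
  exact h2

end

end Q36.GV
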