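import Pool.Agent.Q36.GV.Nu
import Pool.Agent.Q36.HB.Pr
import Pool.Agent.W318.PG.URAT
import Pool.Agent.W904.PG.UNI

/-!
Varieties dominated by products of a variety and curves.
-/

set_option autoImplicit false
set_option linter.overlappingInstances false
set_option linter.unusedSectionVars false

open Polynomial FF IsDedekindDomain IntermediateField
open Pool.Agent.W603.LV Pool.Agent.W619.PQ Pool.Agent.W619.PL
  Pool.Agent.W619.TW Pool.Agent.W619.X Pool.Agent.W619.Y Q36.PT Q36.SD Q36.HB Q36.HL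

namespace Q36.GV

section

variable {k L M : Type} [Field k] [CharZero k] [IsAlgClosed k] [Field L] [Field M]
  [Algebra k L] [Algebra k M] [Algebra L M] [IsScalarTower k L M] [FiniteDimensional L M]
  {d n : ℕ} (F : Fin (n + 1) → IntermediateField k M) [hess0 : Algebra.EssFiniteType k (F 0)]
  [hF : ∀ i : Fin n, IsFF k (F i.succ)]

theorem sup_succ (hsup : ⨆ i, F i = ⊤) : F 0 ⊔ (⨆ i : Fin n, F i.succ) = ⊤ := by
  rw [eq_top_iff, ← hsup]
  refine iSup_le fun i => ?_
  refine Fin.cases ?_ (fun i => ?_) i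
  · exact le_sup_left
  · exact le_sup_of_le_right (le_iSup (fun i : Fin n => F i.succ) i)

theorem ess_all (i : Fin (n + 1)) : Algebra.EssFiniteType k (F i) := by
  refine Fin.cases ?_ (fun i => ?_) i
  · exact hess0
  · exact IsFF.ess

theorem ess_supS (hsup : ⨆ i, F i = ⊤) : Algebra.EssFiniteType k M :=
  ess_of_sup' (F 0) (fun i : Fin n => F i.succ) (sup_succ F hsup)

theorem trd_all (hY : Algebra.trdeg k (F 0) = d) (i : Fin (n + 1)) :
    Algebra.trdeg k (F i) = ((Fin.cons d (fun _ => 1) : Fin (n + 1) → ℕ) i : ℕ) := by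
  refine Fin.cases ?_ (fun i => ?_) i
  · rw [Fin.cons_zero]
    exact hY
  · rw [Fin.cons_succ, IsFF.trdeg (k := k) (K := F i.succ)]
    simp

theorem sum_dims : ∑ i, (Fin.cons d (fun _ => 1) : Fin (n + 1) → ℕ) i = d + n := by
  rw [Fin.sum_univ_succ]
  simp

theorem alg_of_sup' {s : ℕ} (F : Fin s → IntermediateField k M) (hsup : ⨆ i, F i = ⊤) :
    Algebra.IsAlgebraic ↥(⨆ i, F i) M := by
  rw [hsup]
  exact ⟨fun z => isAlgebraic_algebraMap (⟨z, trivial⟩ : (⊤ : IntermediateField k M))⟩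

/-- **The dimension of the canonical image.** -/
theorem imageYC [Algebra.EssFiniteType k L] (hY : Algebra.trdeg k (F 0) = d)
    (hnM : Algebra.trdeg k M = (d + n : ℕ))
    (halg : Algebra.IsAlgebraic ↥(⨆ i, F i) M) {c : Fin (n + 1) → ℕ}
    (hc : c 0 = 0 ∨ CanSepJ k (F 0) d (c 0 + 1)) {a : ℕ}
    (ha : ImageGe k (F 0) d (fun _ => False) 1 a)
    (hγ : ∀ i : Fin n, ∀ b : F i.succ, Transcendental k b →
      c i.succ + 2 ≤ Module.finrank k⟮b⟯ (F i.succ))
    (B : Finset (Fin (n + 1)))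
    (hB : ∀ i ∈ B, 2 * Module.finrank L (IntermediateField.adjoin L (F i : Set M)) ≤ c i + 1)
    (hQ : ∀ Q : Finset (Fin (n + 1)), Disjoint Q B →
      Module.finrank (IntermediateField.adjoin L {z : M | ∃ j, j ∉ Q ∧ z ∈ F j}) M = 1 ∨
      2 * Module.finrank (IntermediateField.adjoin L {z : M | ∃ j, j ∉ Q ∧ z ∈ F j}) M ≤
        1 + ∑ j ∈ Q, c j) :
    ImageGe k L (d + n) (fun _ => False) 1
      (a + {i : Fin n | ¬ IsElliptic (F i.succ)}.ncard) := by
  classical
  have hess : ∀ i, Algebra.EssFiniteType k (F i) := ess_all F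
  have hpos : PlurigenusPos k (F 0) d 1 := by
    obtain ⟨ω, h1, D, h2, -⟩ := ha
    exact ⟨ω 0, (reg_of_sec (h1 0)).1, (reg_of_sec (h1 0)).2, D, h2 0⟩
  have h2γ : ∀ i : Fin n, ∀ b : F i.succ, Transcendental k b →
      2 ≤ Module.finrank k⟮b⟯ (F i.succ) := fun i b hb => le_trans (by omega) (hγ i b hb)
  have hirr : ∀ i : Fin n, ¬ ∃ t : F i.succ, k⟮t⟯ = ⊤ := fun i => irr_of_gon (h2γ i)
  have h1 := imageV (L := L) (d := (Fin.cons d (fun _ => 1) : Fin (n + 1) → ℕ)) F
    (by rw [sum_dims]; exact hnM) halg (trd_all F hY) (m := fun i => c i + 1)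
    (fun i => Nat.le_add_left 1 _) (fun i => by
      refine Fin.cases ?_ (fun i => ?_) i
      · rw [Fin.cons_zero]
        rcases hc with hc | hc
        · rw [hc]
          exact sep_one hpos
        · exact hc
      · rw [Fin.cons_succ]
        refine sep_curve fun b hb => ?_
        have := hγ i b hb
        omega)
    (a := (Fin.cons a (fun i : Fin n => if 0 < canDeg k (F i.succ) then 1 else 0)))
    (fun i => by
      refine Fin.cases ?_ (fun i => ?_) i
      · rw [Fin.cons_zero, Fin.cons_zero]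
        exact ha
      · rw [Fin.cons_succ, Fin.cons_succ]
        exact image_curve (by rw [IsFF.trdeg (k := k) (K := F i.succ)]; simp) (h2γ i))
    B hB (fun Q hQB => by
      have h3 : ∑ j ∈ Q, (c j + 1 - 1) = ∑ j ∈ Q, c j :=
        Finset.sum_congr rfl fun j _ => Nat.add_sub_cancel _ _
      rw [h3]
      exact hQ Q hQB)
  rw [sum_dims, Fin.sum_univ_succ] at h1
  simp only [Fin.cons_zero, Fin.cons_succ, Finset.sum_boole, Nat.cast_id] at h1
  rw [ncard_elliptic (fun i : Fin n => F i.succ) hirr] at h1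
  exact h1

/-- **The geometric genus.** -/
theorem genusYC [Algebra.EssFiniteType k L] (hY : Algebra.trdeg k (F 0) = d)
    (hnM : Algebra.trdeg k M = (d + n : ℕ))
    (halg : Algebra.IsAlgebraic ↥(⨆ i, F i) M) {c : Fin (n + 1) → ℕ}
    (hpos : PlurigenusPos k (F 0) d 1)
    (hc : c 0 = 0 ∨ CanSep k (F 0) d (c 0 + 1))
    (hγ : ∀ i : Fin n, ∀ b : F i.succ, Transcendental k b →
      c i.succ + 2 ≤ Module.finrank k⟮b⟯ (F i.succ))
    (B : Finset (Fin (n + 1)))
    (hB : ∀ i ∈ B, Module.finrank L (IntermediateField.adjoin L (F i : Set M)) ≤ c i + 1)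
    (hQ : ∀ Q : Finset (Fin (n + 1)), Disjoint Q B →
      Module.finrank (IntermediateField.adjoin L {z : M | ∃ j, j ∉ Q ∧ z ∈ F j}) M ≤
        1 + ∑ j ∈ Q, c j) :
    PlurigenusPos k L (d + n) 1 := by
  classical
  have hess : ∀ i, Algebra.EssFiniteType k (F i) := ess_all F
  have h1 := genusV (L := L) (d := (Fin.cons d (fun _ => 1) : Fin (n + 1) → ℕ)) F
    (by rw [sum_dims]; exact hnM) halg (trd_all F hY) (m := fun i => c i + 1)
    (fun i => Nat.le_add_left 1 _) (fun i => by
      refine Fin.cases ?_ (fun i => ?_) i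
      · rw [Fin.cons_zero]
        rcases hc with hc | hc
        · rw [hc]
          exact (sep_one hpos).canSep
        · exact hc
      · rw [Fin.cons_succ]
        refine (sep_curve fun b hb => ?_).canSep
        have := hγ i b hb
        omega)
    B hB (fun Q hQB => by
      have h3 : ∑ j ∈ Q, (c j + 1 - 1) = ∑ j ∈ Q, c j :=
        Finset.sum_congr rfl fun j _ => Nat.add_sub_cancel _ _
      rw [h3]
      exact hQ Q hQB)
  rw [sum_dims] at h1
  exact h1

/-- **The numerical dimension.** -/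
theorem numYC (hY : Algebra.trdeg k (F 0) = d) (hnM : Algebra.trdeg k M = (d + n : ℕ))
    (hsup : ⨆ i, F i = ⊤) (hirr : ∀ i : Fin n, ¬ ∃ t : F i.succ, k⟮t⟯ = ⊤)
    {a : ℕ} (ha : NumLe k (F 0) d (fun _ => False) a) :
    NumLe k L (d + n) (fun _ => False) (a + {i : Fin n | ¬ IsElliptic (F i.succ)}.ncard) :=
  num_domV0 (F 0) (fun i : Fin n => F i.succ) hY hnM (sup_succ F hsup) hirr ha

/-- images of uniruled varieties -/
theorem uniruled_img {N : ℕ} (h : IsUniruled k M N) : IsUniruled k L N := by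
  obtain ⟨M', _, _, h1, h2, ⟨f⟩⟩ := h
  exact ⟨M', _, _, h1, h2, ⟨f.comp (IsScalarTower.toAlgHom k L M)⟩⟩

theorem uniruled_prod (hY : Algebra.trdeg k (F 0) = d) (hnM : Algebra.trdeg k M = (d + n : ℕ))
    (hsup : ⨆ i, F i = ⊤)
    (h : IsUniruled k (F 0) d ∨ ∃ i : Fin n, ∃ t : F i.succ, k⟮t⟯ = ⊤) :
    IsUniruled k L (d + n) := by
  refine uniruled_img (M := M) ?_
  rcases h with h | h
  · exact Pool.Agent.W904.PG.main k M d n (F 0) (fun i : Fin n => F i.succ) hY hnM
      (sup_succ F hsup) h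
  · exact (Pool.Agent.W318.PG.URAT.main k M d n (F 0) (fun i : Fin n => F i.succ) hY hnM
      (sup_succ F hsup) h).1

/-- **The equivalences.** -/
theorem tfaeYC (hY : Algebra.trdeg k (F 0) = d) (hnM : Algebra.trdeg k M = (d + n : ℕ))
    (hsup : ⨆ i, F i = ⊤)
    (hYd : IsUniruled k (F 0) d ∨ PlurigenusPos k (F 0) d 1)
    (hgen : PlurigenusPos k (F 0) d 1 → (∀ i : Fin n, ¬ ∃ t : F i.succ, k⟮t⟯ = ⊤) →
      PlurigenusPos k L (d + n) 1) :
    List.TFAE [¬ PlurigenusPos k L (d + n) 1, KodairaNeg k L (d + n),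
      ¬ IsPsef k L (d + n) (fun _ => False), NumNeg k L (d + n) (fun _ => False),
      IsUniruled k L (d + n),
      IsUniruled k (F 0) d ∨ ∃ i : Fin n, ∃ t : F i.succ, k⟮t⟯ = ⊤] := by
  classical
  have hessM : Algebra.EssFiniteType k M := ess_supS F hsup
  have hessL : Algebra.EssFiniteType k L := ess_below (K := M)
  have hn : Algebra.trdeg k L = (d + n : ℕ) := trdeg_below (K := M) hnM
  have heff : PlurigenusPos k L (d + n) 1 → IsPsef k L (d + n) (fun _ => False) := by
    intro h1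
    by_contra h2
    exact not_neg_of_pos le_rfl h1 (kodairaNeg_of_not_eff.1 fun h3 => h2 (psef_of_eff h3))
  tfae_have 1 → 6 := by
    intro h1
    by_contra h2
    push Not at h2
    refine h1 (hgen (hYd.resolve_left h2.1) fun i hi => ?_)
    obtain ⟨t, ht⟩ := hi
    exact h2.2 i t ht
  tfae_have 6 → 5 := fun h => uniruled_prod F hY hnM hsup h
  tfae_have 5 → 4 := fun h => (uniruled_neg (d + n) hn h).2
  tfae_have 5 → 3 := fun h => (uniruled_neg (d + n) hn h).1
  tfae_have 3 → 2 := fun h => kodairaNeg_of_not_eff.1 fun h3 => h (psef_of_eff h3)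
  tfae_have 2 → 1 := fun h h1 => not_neg_of_pos le_rfl h1 h
  tfae_have 4 → 1 := by
    intro h1 h2
    obtain ⟨ω, h3, h4, D, hD⟩ := h2
    obtain ⟨m0, hm0⟩ := h1 {1}
    refine hm0 (1 * m0) (by omega) ?_
    refine ⟨fun _ => fun D => ω D ^ m0, ?_, fun _ => ⟨?_, ?_, ?_⟩⟩
    · refine LinearIndependent.of_subsingleton 0 ?_
      intro h5
      exact pow_ne_zero m0 hD (congrFun h5 D)
    · intro A D
      change ω _ ^ m0 = _
      rw [h3 A D, mul_pow, ← pow_mul]
    · intro v hv _ D hD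
      rcases h4 v hv D hD with h5 | h5
      · change Dom v {1} 1 (ω D ^ m0)
        rw [h5]
        rcases Nat.eq_zero_or_pos m0 with rfl | h6
        · exact Or.inr ⟨1, by simp, one_ne_zero, by rw [pow_zero, v.ord_one]; simp⟩
        · exact Or.inl (zero_pow (by omega))
      · exact Or.inr ⟨1, by simp, one_ne_zero, by
          rw [v.ord_pow, v.ord_one]
          have : (0 : ℤ) ≤ m0 * v.ord (ω D) := mul_nonneg (by positivity) h5
          simpa using this⟩
    · intro v _ hB
      exact absurd hB id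
  tfae_finish

end

end Q36.GV
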